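import Pool.Agent.H.MP_e23cd6_ag.SG.X.Bas

/-! Block X: the system of the line bundles `L ^ a ⊗ P ^ (b + 1)`. -/

set_option autoImplicit false

open scoped Manifold ContDiff Topology ENNReal
open MeasureTheory Set Filter

namespace Pool.Agent.SG

open Pool.Agent.Abd Pool.Agent.Abn

variable {E : Type} [NormedAddCommGroup E] [NormedSpace ℂ E] [FiniteDimensional ℂ E] {n : ℕ}
  {X₀ X : Type} [TopologicalSpace X₀] [ChartedSpace E X₀] [IsManifold 𝓘(ℂ, E) ω X₀]
  [TopologicalSpace X] [T2Space X] [CompactSpace X] {N : NSp E X₀ X} {L P : NLine N} {K J : ℕ}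

/-- Powers of `L ^ a ⊗ P ^ (b + 1)` which are generated by sections which separate the points.

Proof. Let `l` be as in `Ample1`. If `a = 0`: `c = l`, products of `b + 1` sections of `P ^ l`
(powers `s ^ (b + 1)`). If `a ≥ 1`: let `l'` be the number of `NefX` for `L ^ (2 a) ⊗ P`, and
`c = 2 l' l`: the products of the `l`-th powers of sections of `(L ^ (2 a) ⊗ P) ^ l'` and the
`l' (2 b + 1)`-th powers of sections of `P ^ l`. -/
theorem exists_gen_sep (hP : Ample1 L P) (hL : NefX L P) (a b : ℕ) : ∃ c : ℕ, 1 ≤ c ∧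
    (∀ x, ∃ s : NSec L P (c * a) (c * (b + 1)) univ, s.NZ x) ∧
    ∀ x y : X, x ≠ y → ∃ s : NSec L P (c * a) (c * (b + 1)) univ, s.NZ x ∧ ¬ s.NZ y := by
  obtain ⟨l, hl, h1, h2⟩ := hP
  rcases Nat.eq_zero_or_pos a with rfl | ha
  · refine ⟨l, hl, fun x => ?_, fun x y hxy => ?_⟩
    · obtain ⟨s, hs⟩ := h1 x
      refine ⟨(s.pow (b + 1)).cast (by ring) (by ring), ?_⟩
      rw [NSec.nz_cast, s.nz_pow (by omega) (mem_univ x)]
      exact hs
    · obtain ⟨s, hs, hs'⟩ := h2 x y hxy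
      refine ⟨(s.pow (b + 1)).cast (by ring) (by ring), ?_, ?_⟩
      · rw [NSec.nz_cast, s.nz_pow (by omega) (mem_univ x)]
        exact hs
      · rw [NSec.nz_cast, s.nz_pow (by omega) (mem_univ y)]
        exact hs'
  · obtain ⟨l', hl', h3⟩ := hL (2 * a) (by omega)
    have hne : l' * (2 * b + 1) ≠ 0 := Nat.mul_ne_zero (by omega) (by omega)
    have hK : l * (l' * (2 * a)) + l' * (2 * b + 1) * (l * 0) = 2 * l' * l * a := by ring
    have hJ : l * (l' * 1) + l' * (2 * b + 1) * (l * 1) = 2 * l' * l * (b + 1) := by ring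
    refine ⟨2 * l' * l, ?_, fun x => ?_, fun x y hxy => ?_⟩
    · exact Nat.mul_pos (Nat.mul_pos (by omega) hl') hl
    · obtain ⟨s, hs⟩ := h1 x
      obtain ⟨t, ht⟩ := h3 x
      refine ⟨((t.pow l).mul (s.pow (l' * (2 * b + 1)))).cast hK hJ, ?_⟩
      rw [NSec.nz_cast, NSec.nz_mul _ _ (mem_univ x), t.nz_pow (by omega) (mem_univ x),
        s.nz_pow hne (mem_univ x)]
      exact ⟨ht, hs⟩
    · obtain ⟨s, hs, hs'⟩ := h2 x y hxy
      obtain ⟨t, ht⟩ := h3 x
      refine ⟨((t.pow l).mul (s.pow (l' * (2 * b + 1)))).cast hK hJ, ?_, ?_⟩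
      · rw [NSec.nz_cast, NSec.nz_mul _ _ (mem_univ x), t.nz_pow (by omega) (mem_univ x),
          s.nz_pow hne (mem_univ x)]
        exact ⟨ht, hs⟩
      · rw [NSec.nz_cast, NSec.nz_mul _ _ (mem_univ y), t.nz_pow (by omega) (mem_univ y),
          s.nz_pow hne (mem_univ y)]
        exact fun h => hs' h.2

end Pool.Agent.SG
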