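import Pool.Agent.H.MP_e23cd6_ag.SG.X.PD

/-! Block X: the system of the line bundles `L ^ a ⊗ P ^ (b + 1)`. -/

set_option autoImplicit false

open scoped Manifold ContDiff Topology ENNReal
open MeasureTheory Set Filter

namespace Pool.Agent.SG

open Pool.Agent.Abd Pool.Agent.Abn

variable {E : Type} [NormedAddCommGroup E] [NormedSpace ℂ E] [FiniteDimensional ℂ E] {n : ℕ}
  {X₀ X : Type} [TopologicalSpace X₀] [ChartedSpace E X₀] [IsManifold 𝓘(ℂ, E) ω X₀]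
  [TopologicalSpace X] [T2Space X] [CompactSpace X] {N : NSp E X₀ X} {L P : NLine N} {K J : ℕ}
  {A : GAct n N} {ΛL : GLin A L} {ΛP : GLin A P}

/-- The logarithm of the norm of the vector of the values. -/
noncomputable def EDat.hh (D : EDat ΛL ΛP K J) (i : L.ι) (j : P.ι) (x : X) : ℝ :=
  Real.log (ns (D.vec i j x)) / 2

theorem EDat.hh_trans (D : EDat ΛL ΛP K J) (hg : ∀ x, ∃ s : NSec L P K J univ, s.NZ x)
    {i j i' j' x} (h : NAt L P i j x) (h' : NAt L P i' j' x) :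
    D.hh i j x = D.hh i' j' x + K * Real.log ‖L.g i i' x‖ + J * Real.log ‖P.g j j' x‖ := by
  have hL : ‖L.g i i' x‖ ≠ 0 := norm_ne_zero_iff.2 (L.g_ne h.memL h'.memL)
  have hP : ‖P.g j j' x‖ ≠ 0 := norm_ne_zero_iff.2 (P.g_ne h.memP h'.memP)
  have hv := (ns_pos (D.vec_ne hg h')).ne'
  unfold EDat.hh
  rw [D.vec_trans h h', ns_smul, norm_mul, norm_pow, norm_pow,
    Real.log_mul (pow_ne_zero _ (mul_ne_zero (pow_ne_zero _ hL) (pow_ne_zero _ hP))) hv,
    Real.log_pow, Real.log_mul (pow_ne_zero _ hL) (pow_ne_zero _ hP), Real.log_pow, Real.log_pow]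
  push_cast
  ring

theorem EDat.hh_cont (D : EDat ΛL ΛP K J) (hg : ∀ x, ∃ s : NSec L P K J univ, s.NZ x)
    {i j x} (h : NAt L P i j x) : ContinuousAt (D.hh i j) x := by
  have h2 : ContinuousAt (fun y => ns (D.vec i j y)) x :=
    ContinuousAt.comp (g := ns) continuous_ns.continuousAt (D.vec_cont h)
  exact (h2.log (ns_pos (D.vec_ne hg h)).ne').div_const 2

theorem EDat.lg_hh (D : EDat ΛL ΛP K J) (hg : ∀ x, ∃ s : NSec L P K J univ, s.NZ x) (g : Gp n)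
    {i j i' j' x} (h : NAt L P i j (A.act g x)) (h' : NAt L P i' j' x) :
    (D.toPDat hg).lg g x = D.hh i j (A.act g x) - D.hh i' j' x -
      (K * Real.log ‖ΛL.lam i i' g x‖ + J * Real.log ‖ΛP.lam j j' g x‖) := by
  have e := D.lg_eq hg g h h'
  have hL : ‖ΛL.lam i i' g x‖ ≠ 0 := norm_ne_zero_iff.2 (glam_ne ΛL h'.memL h.memL)
  have hP : ‖ΛP.lam j j' g x‖ ≠ 0 := norm_ne_zero_iff.2 (glam_ne ΛP h'.memP h.memP)
  rw [e]
  unfold gl
  rw [norm_mul, norm_pow, norm_pow, Real.log_mul (pow_ne_zero _ hL) (pow_ne_zero _ hP),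
    Real.log_pow, Real.log_pow]
  show _ = Real.log (ns fun a => (D.σ a).f i j (A.act g x)) / 2 -
    Real.log (ns fun a => (D.σ a).f i' j' x) / 2 - _
  ring

/-- Comparison of the metrics: for evaluation data of `L ^ (c a) ⊗ P ^ (c (b + 1))`,
`L ^ c₁ ⊗ P ^ c₁` and `P ^ c₀`.

Proof. For `x` in frames `i`, `j` let `H(x) = log (ns (σ_a)) / (2 c)`, `H₁`, `H₀` similarly for
`D₁`, `D₀`, and `u(x) = H(x) - a (H₁(x) - H₀(x)) - (b + 1) H₀(x)`. Under a change of frames `H`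
changes by `a log |L.g| + (b + 1) log |P.g|`, `H₁` by `log |L.g| + log |P.g|`, `H₀` by
`log |P.g|`, so `u` does not depend on the frames; it is continuous, so bounded on the compact
space `X`. By `EDat.lg_eq` the expression is `u (g y) - u y`. -/
theorem exists_cmp {c c₁ c₀ a b : ℕ} (hc : 1 ≤ c) (hc₁ : 1 ≤ c₁) (hc₀ : 1 ≤ c₀)
    (D : EDat ΛL ΛP (c * a) (c * (b + 1))) (D₁ : EDat ΛL ΛP (c₁ * 1) (c₁ * (0 + 1)))
    (D₀ : EDat ΛL ΛP (c₀ * 0) (c₀ * (0 + 1)))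
    (hg : ∀ x, ∃ s : NSec L P (c * a) (c * (b + 1)) univ, s.NZ x)
    (hg₁ : ∀ x, ∃ s : NSec L P (c₁ * 1) (c₁ * (0 + 1)) univ, s.NZ x)
    (hg₀ : ∀ x, ∃ s : NSec L P (c₀ * 0) (c₀ * (0 + 1)) univ, s.NZ x) :
    ∃ C : ℝ, ∀ g y, |(D.toPDat hg).lg g y / c -
      (a * ((D₁.toPDat hg₁).lg g y / c₁ - (D₀.toPDat hg₀).lg g y / c₀) +
        (b + 1) * ((D₀.toPDat hg₀).lg g y / c₀))| ≤ C := by
  have c0 : (c : ℝ) ≠ 0 := by positivity
  have c1 : (c₁ : ℝ) ≠ 0 := by positivity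
  have c2 : (c₀ : ℝ) ≠ 0 := by positivity
  obtain ⟨u, hu⟩ : ∃ u : L.ι → P.ι → X → ℝ, ∀ i j x, u i j x = D.hh i j x / c -
    (a * (D₁.hh i j x / c₁ - D₀.hh i j x / c₀) + (b + 1) * (D₀.hh i j x / c₀)) :=
    ⟨_, fun _ _ _ => rfl⟩
  have hut : ∀ i j i' j' x, NAt L P i j x → NAt L P i' j' x → u i j x = u i' j' x := by
    intro i j i' j' x h h'
    rw [hu, hu, D.hh_trans hg h h', D₁.hh_trans hg₁ h h', D₀.hh_trans hg₀ h h']
    push_cast
    field_simp
    ring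
  have huc : Continuous fun x => u (fr1 L x) (fr1 P x) x := by
    rw [continuous_iff_continuousAt]
    intro x
    have h := fr_nat L P x
    have h1 : ContinuousAt (u (fr1 L x) (fr1 P x)) x := by
      have e : u (fr1 L x) (fr1 P x) = fun y => D.hh (fr1 L x) (fr1 P x) y / c -
          (a * (D₁.hh (fr1 L x) (fr1 P x) y / c₁ - D₀.hh (fr1 L x) (fr1 P x) y / c₀) +
            (b + 1) * (D₀.hh (fr1 L x) (fr1 P x) y / c₀)) := funext fun y => hu _ _ y
      rw [e]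
      have k1 := (D.hh_cont hg h).div_const (c : ℝ)
      have k2 := (D₁.hh_cont hg₁ h).div_const (c₁ : ℝ)
      have k3 := (D₀.hh_cont hg₀ h).div_const (c₀ : ℝ)
      exact k1.sub (((k2.sub k3).const_mul (a : ℝ)).add (k3.const_mul ((b : ℝ) + 1)))
    refine h1.congr ?_
    filter_upwards [h.eventually] with y hy
    exact hut _ _ _ _ y hy (fr_nat L P y)
  obtain ⟨C, hC⟩ := isCompact_univ.exists_bound_of_continuousOn huc.continuousOn
  refine ⟨2 * C, fun g y => ?_⟩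
  have h := fr_nat L P (A.act g y)
  have h' := fr_nat L P y
  have e : (D.toPDat hg).lg g y / c -
      (a * ((D₁.toPDat hg₁).lg g y / c₁ - (D₀.toPDat hg₀).lg g y / c₀) +
        (b + 1) * ((D₀.toPDat hg₀).lg g y / c₀)) =
      u (fr1 L (A.act g y)) (fr1 P (A.act g y)) (A.act g y) - u (fr1 L y) (fr1 P y) y := by
    rw [hu, hu, D.lg_hh hg g h h', D₁.lg_hh hg₁ g h h', D₀.lg_hh hg₀ g h h']
    push_cast
    field_simp
    ring
  rw [e]
  have b1 := hC (A.act g y) (mem_univ _)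
  have b2 := hC y (mem_univ _)
  rw [Real.norm_eq_abs] at b1 b2
  calc _ ≤ |u (fr1 L (A.act g y)) (fr1 P (A.act g y)) (A.act g y)| +
        |u (fr1 L y) (fr1 P y) y| := abs_sub _ _
    _ ≤ 2 * C := by linarith

end Pool.Agent.SG
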