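import Pool.Agent.H.MP_e23cd6_ag.SG.SysOf
import Pool.Agent.H.MP_e23cd6_ag.SG.X.ExA
import Pool.Agent.H.MP_e23cd6_ag.SG.X.ExB

/-! Block X: the system of the line bundles `L ^ a ⊗ P ^ (b + 1)`. -/

set_option autoImplicit false

open scoped Manifold ContDiff Topology ENNReal
open MeasureTheory Set Filter

namespace Pool.Agent.SG

open Pool.Agent.Abd Pool.Agent.Abn

variable {E : Type} [NormedAddCommGroup E] [NormedSpace ℂ E] [FiniteDimensional ℂ E] {n : ℕ}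
  {X₀ X : Type} [TopologicalSpace X₀] [ChartedSpace E X₀] [IsManifold 𝓘(ℂ, E) ω X₀]
  [TopologicalSpace X] [T2Space X] [CompactSpace X] {N : NSp E X₀ X} {L P : NLine N} {K J : ℕ}
  {A : GAct n N} (ΛL : GLin A L) (ΛP : GLin A P)

/-- X1. Proof. `exists_gen_sep`, `exists_edat`, `EDat.toPDat`, `exists_cmp` (for `c 1 0`, `c 0 0`),
`EDat.sep`, `EDat.val`, `EDat.eqv`. -/
theorem exists_sys [SecondCountableTopology X₀] (hP : Ample1 L P) (hL : NefX L P) :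
    ∃ S : GSys n X, Nonempty (SysOf ΛL ΛP S) := by
  choose c hc hg hs using exists_gen_sep hP hL
  obtain ⟨D⟩ : Nonempty (∀ a b, EDat ΛL ΛP (c a b * a) (c a b * (b + 1))) :=
    ⟨fun a b => (exists_edat ΛL ΛP _ _).some⟩
  refine ⟨⟨A.act, A.one, A.mul, A.cont, c, hc, fun a b => (D a b).toPDat (hg a b),
    fun a b => exists_cmp (hc a b) (hc 1 0) (hc 0 0) (D a b) (D 1 0) (D 0 0) (hg a b) (hg 1 0)
      (hg 0 0), fun a b y y' h => (D a b).sep (hg a b) (hs a b) h⟩, ⟨⟨rfl, fun a b => (D a b).σ,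
    fun a b y i j hi hj => (D a b).val (hg a b) ⟨hi, hj⟩,
    fun a b g y i j i' j' h1 h2 h3 h4 α => (D a b).eqv g y i j i' j' ⟨h1, h2⟩ ⟨h3, h4⟩ α⟩⟩⟩

end Pool.Agent.SG
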