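import Pool.Agent.H.MP_e23cd6_ag.SG.X.FinA
import Pool.Agent.H.MP_e23cd6_ag.TB.PFin

/-! Block X: the spaces of sections have finite dimension. -/

set_option autoImplicit false

open scoped Manifold ContDiff Topology ENNReal
open MeasureTheory Set Filter

namespace Pool.Agent.SG

open Pool.Agent.Abd Pool.Agent.Abn

variable {E : Type} [NormedAddCommGroup E] [NormedSpace ℂ E] [FiniteDimensional ℂ E]
  {X₀ X : Type} [TopologicalSpace X₀] [ChartedSpace E X₀] [IsManifold 𝓘(ℂ, E) ω X₀]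
  [TopologicalSpace X] [T2Space X] [CompactSpace X] {N : NSp E X₀ X} {L P : NLine N} {K J : ℕ}

omit [FiniteDimensional ℂ E] in
/-- The iteration: functions with the doubling property which vanish on fine nets are `0`. -/
theorem fin_zero {β : Type} [Fintype β] {e : β → E} {R : β → ℝ} {C : ℝ} (hR : ∀ b, 0 < R b)
    (hC : 0 < C) {F : β → E → ℂ}
    (hd : ∀ b, ∀ w ∈ Metric.closedBall (e b) (2 * R b), DifferentiableAt ℂ (F b) w)
    (hdbl : ∀ S : ℝ, 0 ≤ S → (∀ b, ∀ w ∈ Metric.ball (e b) (R b), ‖F b w‖ ≤ S) →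
      ∀ b, ∀ w ∈ Metric.closedBall (e b) (2 * R b), ‖F b w‖ ≤ C * S)
    {T : β → Set E} (hTs : ∀ b, T b ⊆ Metric.ball (e b) (R b))
    (hT : ∀ b, Metric.ball (e b) (R b) ⊆ ⋃ y ∈ T b, Metric.ball y (R b / (2 * (C + 1))))
    (hz : ∀ b, ∀ y ∈ T b, F b y = 0) (hbdd : ∃ S : ℝ, ∀ b, ∀ w ∈ Metric.ball (e b) (R b),
      ‖F b w‖ ≤ S) : ∀ b, ∀ w ∈ Metric.ball (e b) (R b), F b w = 0 := by
  have hstep : ∀ S : ℝ, 0 ≤ S → (∀ b, ∀ w ∈ Metric.ball (e b) (R b), ‖F b w‖ ≤ S) →
      ∀ b, ∀ w ∈ Metric.ball (e b) (R b), ‖F b w‖ ≤ S / 2 := by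
    intro S hS hb b w hw
    exact pfin_half (hR b) hC hS (hd b) (hdbl S hS hb b) (hTs b) (hT b) (hz b) hw
  obtain ⟨S, hS⟩ := hbdd
  have hS' : ∀ b, ∀ w ∈ Metric.ball (e b) (R b), ‖F b w‖ ≤ |S| := fun b w hw =>
    (hS b w hw).trans (le_abs_self S)
  have hit : ∀ n : ℕ, ∀ b, ∀ w ∈ Metric.ball (e b) (R b), ‖F b w‖ ≤ |S| * (1 / 2) ^ n := by
    intro n
    induction n with
    | zero => intro b w hw; simpa using hS' b w hw
    | succ n ih =>
      intro b w hw
      have := hstep _ (by positivity) ih b w hw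
      calc _ ≤ _ := this
        _ = _ := by ring
  intro b w hw
  rw [← norm_le_zero_iff]
  have hlim : Tendsto (fun n : ℕ => |S| * (1 / 2 : ℝ) ^ n) atTop (𝓝 (|S| * 0)) :=
    (tendsto_pow_atTop_nhds_zero_of_lt_one (by norm_num) (by norm_num)).const_mul |S|
  rw [mul_zero] at hlim
  exact ge_of_tendsto' hlim fun n => hit n b w hw

omit [FiniteDimensional ℂ E] [T2Space X] [CompactSpace X] in
/-- Compact sets of regular points with frames are covered by finitely many balls. -/
theorem fin_balls {α : Type} [Fintype α] {i : α → L.ι} {j : α → P.ι} {Q : α → Set X₀}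
    (hQ : ∀ a, IsCompact (Q a)) (hat : ∀ a, ∀ y ∈ Q a, NAt L P (i a) (j a) (N.inc y)) :
    ∃ (β : Type) (_ : Fintype β) (c : β → α) (φ : β → OpenPartialHomeomorph X₀ E) (e : β → E)
      (R : β → ℝ), (∀ b, φ b ∈ Charts E X₀) ∧ (∀ b, 0 < R b) ∧
      (∀ b, ∀ w ∈ Metric.closedBall (e b) (4 * R b), w ∈ (φ b).target ∧
        NAt L P (i (c b)) (j (c b)) (N.inc ((φ b).symm w))) ∧
      ∀ a, ∀ y ∈ Q a, ∃ b, c b = a ∧ y ∈ (φ b).source ∧ φ b y ∈ Metric.ball (e b) (R b) := by
  classical
  have h1 : ∀ (a : α) (y : X₀), ∃ R : ℝ, 0 < R ∧ (y ∈ Q a →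
      ∀ w ∈ Metric.closedBall (chartAt E y y) (4 * R), w ∈ (chartAt E y).target ∧
        NAt L P (i a) (j a) (N.inc ((chartAt E y).symm w))) := by
    intro a y
    by_cases hy : y ∈ Q a
    · have ho : IsOpen ((chartAt E y).target ∩ (chartAt E y).symm ⁻¹'
          (N.inc ⁻¹' (L.U (i a) ∩ P.U (j a)))) :=
        (chartAt E y).isOpen_inter_preimage_symm
          (((L.isOpen (i a)).inter (P.isOpen (j a))).preimage N.emb.continuous)
      have hx : chartAt E y y ∈ (chartAt E y).target ∩ (chartAt E y).symm ⁻¹'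
          (N.inc ⁻¹' (L.U (i a) ∩ P.U (j a))) := by
        refine ⟨mem_chart_target E y, ?_⟩
        rw [mem_preimage, (chartAt E y).left_inv (mem_chart_source E y)]
        exact ⟨(hat a y hy).memL, (hat a y hy).memP⟩
      obtain ⟨ε, hε, h⟩ := Metric.nhds_basis_closedBall.mem_iff.1 (ho.mem_nhds hx)
      refine ⟨ε / 4, by positivity, fun _ w hw => ?_⟩
      have h4 : 4 * (ε / 4) = ε := by ring
      rw [h4] at hw
      exact ⟨(h hw).1, (h hw).2.1, (h hw).2.2⟩
    · exact ⟨1, one_pos, fun h => absurd h hy⟩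
  choose R hR hsub using h1
  have h2 : ∀ a, ∃ t : Finset X₀, (∀ y ∈ t, y ∈ Q a) ∧ Q a ⊆ ⋃ y ∈ t, (chartAt E y).source ∩
      (chartAt E y) ⁻¹' (Metric.ball (chartAt E y y) (R a y)) := fun a =>
    (hQ a).elim_nhds_subcover
      (fun y => (chartAt E y).source ∩ (chartAt E y) ⁻¹' (Metric.ball (chartAt E y y) (R a y)))
      (fun y _ => ((chartAt E y).isOpen_inter_preimage Metric.isOpen_ball).mem_nhds
        ⟨mem_chart_source E y, Metric.mem_ball_self (hR a y)⟩)
  choose t ht htc using h2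
  refine ⟨Σ a, {y // y ∈ t a}, inferInstance, fun b => b.1, fun b => chartAt E b.2.1,
    fun b => chartAt E b.2.1 b.2.1, fun b => R b.1 b.2.1, fun b => ?_, fun b => hR _ _,
    fun b => hsub b.1 b.2.1 (ht b.1 _ b.2.2), fun a y hy => ?_⟩
  · exact IsManifold.chart_mem_maximalAtlas (I := 𝓘(ℂ, E)) (n := ω) b.2.1
  · have hx := htc a hy
    rw [mem_iUnion₂] at hx
    obtain ⟨z, hz, h3⟩ := hx
    exact ⟨⟨a, z, hz⟩, rfl, h3.1, h3.2⟩

omit [FiniteDimensional ℂ E] [IsManifold 𝓘(ℂ, E) ω X₀] [CompactSpace X] in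
/-- The transition factors are bounded on the balls. -/
theorem fin_trans [ProperSpace E] {φ : OpenPartialHomeomorph X₀ E} {e : E} {R : ℝ} {W : Set X}
    (hW : IsCompact W) {i i' : L.ι} {j j' : P.ι}
    (h : ∀ w ∈ Metric.closedBall e R, w ∈ φ.target ∧ NAt L P i j (N.inc (φ.symm w)))
    (hWat : ∀ x ∈ W, NAt L P i' j' x) (K J : ℕ) :
    ∃ C : ℝ, ∀ w ∈ Metric.closedBall e R, N.inc (φ.symm w) ∈ W →
      ‖L.g i i' (N.inc (φ.symm w)) ^ K * P.g j j' (N.inc (φ.symm w)) ^ J‖ ≤ C := by
  have hsc : ContinuousOn (fun w => N.inc (φ.symm w)) (Metric.closedBall e R) := fun w hw =>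
    (N.emb.continuous.continuousAt.comp (φ.continuousAt_symm (h w hw).1)).continuousWithinAt
  have hQ : IsCompact (Metric.closedBall e R ∩ (fun w => N.inc (φ.symm w)) ⁻¹' W) :=
    (isCompact_closedBall _ _).of_isClosed_subset
      (hsc.preimage_isClosed_of_isClosed Metric.isClosed_closedBall hW.isClosed)
      inter_subset_left
  have hf : ContinuousOn (fun w => L.g i i' (N.inc (φ.symm w)) ^ K *
      P.g j j' (N.inc (φ.symm w)) ^ J)
      (Metric.closedBall e R ∩ (fun w => N.inc (φ.symm w)) ⁻¹' W) := by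
    rintro w ⟨hw, hwW⟩
    apply ContinuousAt.continuousWithinAt
    have hs : ContinuousAt (fun w => N.inc (φ.symm w)) w :=
      N.emb.continuous.continuousAt.comp (φ.continuousAt_symm (h w hw).1)
    have hat := (h w hw).2
    have hat' := hWat _ hwW
    have hg : ContinuousAt (L.g i i') (N.inc (φ.symm w)) :=
      Hol_continuousAt (L.hol i i' _ hat.memL hat'.memL)
    have hg' : ContinuousAt (P.g j j') (N.inc (φ.symm w)) :=
      Hol_continuousAt (P.hol j j' _ hat.memP hat'.memP)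
    exact ((ContinuousAt.comp (f := fun w => N.inc (φ.symm w)) hg hs).pow K).mul
      ((ContinuousAt.comp (f := fun w => N.inc (φ.symm w)) hg' hs).pow J)
  obtain ⟨C, hC⟩ := hQ.exists_bound_of_continuousOn hf
  exact ⟨C, fun w hw hw' => hC w ⟨hw, hw'⟩⟩

/-- The space of sections over `X` has finite dimension.

Proof. As `secMod_finite` in TB/PFin.lean: cover the compact sets `Q a` of `exists_bound` by finitely
many balls `φ_b⁻¹ (ball e_b R_b)` of charts of `X₀` with `closedBall e_b (4 R_b)` in the chart and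
over the frames; on the balls of radius `2 R_b` the values are bounded by `C'` times the maximum of
the values on the sets `W a` (transition functions are bounded on compact sets), so by `C''` times
the maximum over the balls of radius `R_b`; a section which vanishes at a fine finite net of these
balls is `0` there by `pfin_half` and iteration, so it is `0` on `Q a` and everywhere. Hence the
evaluation at the net is injective. -/
instance nMod_finite [SecondCountableTopology X₀] (L P : NLine N) (K J : ℕ) :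
    FiniteDimensional ℂ (nMod L P K J) := by
  classical
  have : ProperSpace E := FiniteDimensional.proper ℂ E
  obtain ⟨α, _, i, j, W, Q, C, hQ, hQat, hWat, hW, hcov, hC, hbd⟩ := exists_bound L P K J
  obtain ⟨β, _, c, φ, e, R, hφ, hR, hsub, hbc⟩ := fin_balls hQ hQat
  have hmem : ∀ b, ∀ w ∈ Metric.closedBall (e b) (2 * R b), w ∈ (φ b).target ∧
      NAt L P (i (c b)) (j (c b)) (N.inc ((φ b).symm w)) := by
    intro b w hw
    have hRb := hR b
    exact hsub b w (Metric.closedBall_subset_closedBall (by linarith) hw)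
  have htr : ∀ b a, ∃ C : ℝ, ∀ w ∈ Metric.closedBall (e b) (2 * R b),
      N.inc ((φ b).symm w) ∈ W a → ‖L.g (i (c b)) (i a) (N.inc ((φ b).symm w)) ^ K *
        P.g (j (c b)) (j a) (N.inc ((φ b).symm w)) ^ J‖ ≤ C := fun b a =>
    fin_trans (hW a) (hmem b) (hWat a) K J
  choose D hD using htr
  set D' : ℝ := 1 + ∑ b, ∑ a, |D b a| with hD'
  have hD'0 : 0 < D' := by positivity
  have hDle : ∀ b a, D b a ≤ D' := by
    intro b a
    have h1 : |D b a| ≤ ∑ a, |D b a| :=
      Finset.single_le_sum (f := fun a => |D b a|) (fun a _ => abs_nonneg _) (Finset.mem_univ a)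
    have h2 : ∑ a, |D b a| ≤ ∑ b, ∑ a, |D b a| :=
      Finset.single_le_sum (f := fun b => ∑ a, |D b a|)
        (fun b _ => Finset.sum_nonneg fun a _ => abs_nonneg _) (Finset.mem_univ b)
    have h3 := le_abs_self (D b a)
    linarith
  -- values at the regular points of `Q a` are values on the balls
  have hQF : ∀ (t : nMod L P K J) (S : ℝ),
      (∀ b, ∀ w ∈ Metric.ball (e b) (R b),
        ‖t.1 (i (c b)) (j (c b)) (N.inc ((φ b).symm w))‖ ≤ S) →
      ∀ a, ∀ y ∈ Q a, ‖t.1 (i a) (j a) (N.inc y)‖ ≤ S := by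
    intro t S hS a y hy
    obtain ⟨b, rfl, hyb, hyb'⟩ := hbc a y hy
    have h1 := hS b _ hyb'
    rwa [(φ b).left_inv hyb] at h1
  set C' : ℝ := D' * (C + 1) with hC'
  have hC'0 : 0 < C' := by positivity
  have hdbl : ∀ (t : nMod L P K J) (S : ℝ), 0 ≤ S →
      (∀ b, ∀ w ∈ Metric.ball (e b) (R b),
        ‖t.1 (i (c b)) (j (c b)) (N.inc ((φ b).symm w))‖ ≤ S) →
      ∀ b, ∀ w ∈ Metric.closedBall (e b) (2 * R b),
        ‖t.1 (i (c b)) (j (c b)) (N.inc ((φ b).symm w))‖ ≤ C' * S := by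
    intro t S hS hb b w hw
    have h1 := hbd t S hS (hQF t S hb)
    obtain ⟨a, ha⟩ := hcov (N.inc ((φ b).symm w))
    have ha' : N.inc ((φ b).symm w) ∈ W a := interior_subset ha
    rw [t.2.2.2 (i (c b)) (j (c b)) (i a) (j a) _ (hmem b w hw).2 (hWat a _ ha'), norm_mul]
    have h2 := h1 a _ ha'
    have h3 := (hD b a w hw ha').trans (hDle b a)
    calc _ ≤ D' * (C * S) := mul_le_mul h3 h2 (norm_nonneg _) hD'0.le
      _ ≤ C' * S := by
        rw [hC']
        nlinarith [mul_nonneg hD'0.le hS]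
  have hnet : ∀ b, ∃ T : Set E, T ⊆ Metric.ball (e b) (R b) ∧ T.Finite ∧
      Metric.ball (e b) (R b) ⊆ ⋃ y ∈ T, Metric.ball y (R b / (2 * (C' + 1))) := by
    intro b
    have h1 : TotallyBounded (Metric.ball (e b) (R b)) :=
      (isCompact_closedBall (e b) (R b)).totallyBounded.subset Metric.ball_subset_closedBall
    exact Metric.finite_approx_of_totallyBounded h1 _ (by have := hR b; positivity)
  choose T hTs hTf hT using hnet
  have : ∀ b, Finite (T b) := fun b => (hTf b).to_subtype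
  let Λ : nMod L P K J →ₗ[ℂ] ((Σ b, T b) → ℂ) :=
    { toFun := fun t p => t.1 (i (c p.1)) (j (c p.1)) (N.inc ((φ p.1).symm p.2.1))
      map_add' := fun t t' => rfl
      map_smul' := fun c t => rfl }
  have hinj : Function.Injective Λ := by
    rw [injective_iff_map_eq_zero]
    intro t ht
    have hz : ∀ b, ∀ y ∈ T b, t.1 (i (c b)) (j (c b)) (N.inc ((φ b).symm y)) = 0 :=
      fun b y hy => congrFun ht ⟨b, ⟨y, hy⟩⟩
    have hd : ∀ b, ∀ w ∈ Metric.closedBall (e b) (2 * R b),
        DifferentiableAt ℂ (fun w => t.1 (i (c b)) (j (c b)) (N.inc ((φ b).symm w))) w :=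
      fun b w hw => sup_diff (g := fun y => t.1 (i (c b)) (j (c b)) (N.inc y)) (hφ b)
        (hmem b w hw).1 (Hol_reg (t.2.2.1 _ _ _ (hmem b w hw).2))
    have hbdd : ∃ S : ℝ, ∀ b, ∀ w ∈ Metric.ball (e b) (R b),
        ‖t.1 (i (c b)) (j (c b)) (N.inc ((φ b).symm w))‖ ≤ S := by
      have h1 : ∀ b, ∃ S : ℝ, ∀ w ∈ Metric.closedBall (e b) (R b),
          ‖t.1 (i (c b)) (j (c b)) (N.inc ((φ b).symm w))‖ ≤ S := by
        intro b
        refine (isCompact_closedBall (e b) (R b)).exists_bound_of_continuousOn ?_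
        intro w hw
        have hRb := hR b
        exact (hd b w (Metric.closedBall_subset_closedBall (by linarith)
          hw)).continuousAt.continuousWithinAt
      choose S hS using h1
      refine ⟨∑ b, |S b|, fun b w hw => ?_⟩
      calc _ ≤ S b := hS b w (Metric.ball_subset_closedBall hw)
        _ ≤ |S b| := le_abs_self _
        _ ≤ _ := Finset.single_le_sum (f := fun b => |S b|) (fun b _ => abs_nonneg _)
            (Finset.mem_univ b)
    have hzero := fin_zero (F := fun b w => t.1 (i (c b)) (j (c b)) (N.inc ((φ b).symm w)))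
      hR hC'0 hd (hdbl t) hTs hT hz hbdd
    have h2 := hbd t 0 le_rfl (hQF t 0 fun b w hw => by
      rw [hzero b w hw, norm_zero])
    refine nMod_ext fun i' j' x hx => ?_
    obtain ⟨a, ha⟩ := hcov x
    have ha' := interior_subset ha
    have h4 := h2 a x ha'
    rw [mul_zero, norm_le_zero_iff] at h4
    rw [t.2.2.2 i' j' (i a) (j a) x hx (hWat a x ha'), h4, mul_zero]
    rfl
  exact Module.Finite.of_injective Λ hinj

end Pool.Agent.SG
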