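import Pool.Agent.H.MP_e23cd6_ag.SG.X.Bas
import Pool.Agent.H.MP_e23cd6_ag.NT.WFin

/-! Block X: a section of a line bundle `L ^ K₁ ⊗ P ^ J₁ ⊗ K_X` over the regular part. -/

set_option autoImplicit false

open scoped Manifold ContDiff Topology ENNReal
open MeasureTheory Set Filter

namespace Pool.Agent.SG

open Pool.Agent.Abd Pool.Agent.Abn

variable {E : Type} [NormedAddCommGroup E] [NormedSpace ℂ E] [FiniteDimensional ℂ E]
  {X₀ X : Type} [TopologicalSpace X₀] [ChartedSpace E X₀] [IsManifold 𝓘(ℂ, E) ω X₀]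
  [TopologicalSpace X] [T2Space X] [CompactSpace X] {N : NSp E X₀ X} {L P : NLine N} {K J : ℕ}

section triv

variable {E : Type} [NormedAddCommGroup E] [NormedSpace ℂ E]
  {X₀ X : Type} [TopologicalSpace X₀] [ChartedSpace E X₀] [TopologicalSpace X]

/-- The action of the trivial torus. -/
def trivT (E X₀ : Type) [NormedAddCommGroup E] [NormedSpace ℂ E] [TopologicalSpace X₀]
    [ChartedSpace E X₀] : TorusAction E 0 X₀ where
  act := fun _ y => y
  one := fun _ => rfl
  mul := fun _ _ _ _ _ => rfl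
  hol := fun _ _ _ => contMDiffAt_snd

/-- The action of the trivial torus. -/
def trivA (N : NSp E X₀ X) : NAct 0 N where
  act := fun _ x => x
  reg := trivT E X₀
  inc := fun _ _ _ => rfl
  one := fun _ => rfl
  mul := fun _ _ _ _ _ => rfl
  cont := fun _ _ _ => continuousAt_snd

/-- The linearisation for the trivial torus. -/
def trivL {N : NSp E X₀ X} (B : NLine N) : NLin (trivA N) B where
  lam := fun i j _ x => B.g i j x
  cont := fun i j a x _ hj hi => by
    have h1 : ContinuousAt (B.g i j) x := Hol_continuousAt (B.hol i j x hi hj)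
    exact ContinuousAt.comp (g := B.g i j) (f := fun v : (Fin 0 → ℂ) × X => v.2) h1
      continuousAt_snd
  hol := fun i j a y _ hj hi => by
    have h1 : HolAt E (fun y => B.g i j (N.inc y)) y := Hol_reg (B.hol i j (N.inc y) hi hj)
    exact ContMDiffAt.comp (g := fun y => B.g i j (N.inc y))
      (f := fun v : (Fin 0 → ℂ) × X₀ => v.2) (a, y) h1 contMDiffAt_snd
  one := fun _ _ _ _ _ => rfl
  mul := fun i j l _ _ x _ _ hl hj hi => B.mul i j l x hi hj hl

end triv

/-- A section `W` of some `L ^ K₁ ⊗ P ^ J₁ ⊗ K_X` over the regular part which is not identically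
zero.

Proof. `exists_W` of NT/WFinA.lean for the trivial action of the torus with `r = 0`, `S = ∅` and
`K' = 0`, `J' = l`. -/
theorem exists_wsec [ConnectedSpace X] (hP : Ample1 L P) : ∃ (K₁ J₁ : ℕ)
    (W : WSec L.reg P.reg K₁ J₁ (N.inc ⁻¹' univ)), ∃ y, W.NZ y := by
  obtain ⟨l, hl, h1, h2⟩ := hP
  have hA : NAmpleG (trivL L) (trivL P) ∅ (univ : Set X) 0 1 (fun _ => 0) := by
    refine ⟨⟨l, hl, fun x _ => ?_⟩, fun x _ y _ hxy => ?_⟩
    · obtain ⟨s, hs⟩ := h1 x
      exact ⟨s, nofwt_empty s, hs⟩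
    · have hne : x ≠ y := by
        intro h
        exact hxy ⟨1, ⟨fun c => one_ne_zero, fun _ _ => rfl⟩, h.symm⟩
      obtain ⟨s, hs, hs2⟩ := h2 x y hne
      exact ⟨l, hl, s, nofwt_empty s, hs, hs2⟩
  obtain ⟨K₁, J₁, -, W, -, y, -, hy⟩ := exists_W hA
  exact ⟨K₁, J₁, W, y, hy⟩

end Pool.Agent.SG
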