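import Pool.Agent.H.MP_e23cd6_ag.SG.X.ModSa
import Pool.Agent.H.MP_e23cd6_ag.SG.X.Fin
import Pool.Agent.H.MP_e23cd6_ag.SG.X.FinW

/-! Block X: the sections over the regular part. -/

set_option autoImplicit false

open scoped Manifold ContDiff Topology ENNReal
open MeasureTheory Set Filter

namespace Pool.Agent.SG

open Pool.Agent.Abd Pool.Agent.Abn

variable {E : Type} [NormedAddCommGroup E] [NormedSpace ℂ E] [FiniteDimensional ℂ E] {n : ℕ}
  {X₀ X : Type} [TopologicalSpace X₀] [ChartedSpace E X₀] [IsManifold 𝓘(ℂ, E) ω X₀]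
  [TopologicalSpace X] [T2Space X] [CompactSpace X] [ConnectedSpace X]
  {N : NSp E X₀ X} {L P : NLine N} {K J m : ℕ}

/-- The space of the sections of `L ^ K ⊗ P ^ J ⊗ K_X ^ (-m)` over the regular part has finite
dimension.

Proof. Let `W` be the section of `exists_wsec`. The linear map
`sMod L P K J m → nMod L P (K + m K₁) (J + m J₁)`, `s ↦ ` the extension (`exists_ofReg`) of
`mulW s W`, is injective by `mulW_zero` (the values at regular points are `s.f * W.f ^ m`; it is
linear by `nev_sep`). -/
theorem sMod_finite [SecondCountableTopology X₀] (hP : Ample1 L P) (K J m : ℕ) :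
    FiniteDimensional ℂ (sMod L P K J m) := by
  obtain ⟨K₁, J₁, W, y₀, hW⟩ := exists_wsec hP
  choose e he using fun s : sMod L P K J m => exists_ofReg (N := N) isOpen_univ (mulW (sMod.sec s) W)
  have hval : ∀ (s : sMod L P K J m) i j y, NAt L P i j (N.inc y) →
      (toMod (e s)).1 i j (N.inc y) = s.1 i j (chartAt E y) y * W.f i j (chartAt E y) y ^ m := by
    intro s i j y h
    rw [toMod_f _ h, he s i j (chartAt E y) y (mem_univ _) h.reg]
    rfl
  have hext : ∀ t t' : nMod L P (K + m * K₁) (J + m * J₁),
      (∀ i j y, NAt L P i j (N.inc y) → t.1 i j (N.inc y) = t'.1 i j (N.inc y)) → t = t' := by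
    intro t t' h
    rw [← sub_eq_zero]
    refine nev_sep _ fun i j y => ?_
    rw [map_sub, sub_eq_zero, nev_apply, nev_apply]
    by_cases hx : NAt L P i j (N.inc y)
    · exact h i j y hx
    · have e1 : t.1 i j (N.inc y) = 0 := by
        by_contra h0
        exact hx (t.2.1 i j _ h0)
      have e2 : t'.1 i j (N.inc y) = 0 := by
        by_contra h0
        exact hx (t'.2.1 i j _ h0)
      rw [e1, e2]
  let Φ : sMod L P K J m →ₗ[ℂ] nMod L P (K + m * K₁) (J + m * J₁) :=
    { toFun := fun s => toMod (e s)
      map_add' := fun s t => hext _ _ fun i j y h => by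
        have h1 := hval (s + t) i j y h
        have h2 := hval s i j y h
        have h3 := hval t i j y h
        have h4 : (s + t).1 i j (chartAt E y) y =
            s.1 i j (chartAt E y) y + t.1 i j (chartAt E y) y := rfl
        have h5 : (toMod (e s) + toMod (e t)).1 i j (N.inc y) =
            (toMod (e s)).1 i j (N.inc y) + (toMod (e t)).1 i j (N.inc y) := rfl
        rw [h1, h5, h2, h3, h4]
        ring
      map_smul' := fun c s => hext _ _ fun i j y h => by
        have h1 := hval (c • s) i j y h
        have h2 := hval s i j y h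
        have h4 : (c • s).1 i j (chartAt E y) y = c * s.1 i j (chartAt E y) y := rfl
        have h5 : ((RingHom.id ℂ) c • toMod (e s)).1 i j (N.inc y) =
            c * (toMod (e s)).1 i j (N.inc y) := rfl
        rw [h1, h5, h2, h4]
        ring }
  have hinj : Function.Injective Φ := by
    rw [injective_iff_map_eq_zero]
    intro s hs
    have hs' : toMod (e s) = 0 := hs
    have h1 : ∀ x ∈ N.inc ⁻¹' (univ : Set X), ¬ (mulW (sMod.sec s) W).NZ x := by
      rintro x - ⟨i, j, φ, hφ, h1, h2, h3, h4⟩
      have hat : At L.reg P.reg i j φ x := ⟨hφ, h1, h2, h3⟩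
      apply h4
      rw [← he s i j φ x (mem_univ _) hat, ← toMod_f (e s) (NAt.of_reg hat), hs']
      rfl
    have h2 := mulW_zero (isOpen_univ.preimage N.emb.continuous)
      (N.conn univ isOpen_univ isConnected_univ).isPreconnected (sMod.sec s) W ⟨y₀, mem_univ _, hW⟩ h1
    refine sMod_ext fun i j φ x hx => ?_
    have h3 := h2 x (mem_univ _)
    rw [(sMod.sec s).nz_iff (mem_univ _) hx, not_not] at h3
    exact h3
  exact FiniteDimensional.of_injective Φ hinj

end Pool.Agent.SG
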