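import Pool.Agent.H.MP_e23cd6_ag.SG.X.ModS
import Pool.Agent.H.MP_e23cd6_ag.SG.X.SpanA
import Pool.Agent.H.MP_e23cd6_ag.SG.X.ExSys

/-! Block X: the sections over the regular part. -/

set_option autoImplicit false

open scoped Manifold ContDiff Topology ENNReal
open MeasureTheory Set Filter

namespace Pool.Agent.SG

open Pool.Agent.Abd Pool.Agent.Abn

variable {E : Type} [NormedAddCommGroup E] [NormedSpace ℂ E] [FiniteDimensional ℂ E] {n : ℕ}
  {X₀ X : Type} [TopologicalSpace X₀] [ChartedSpace E X₀] [IsManifold 𝓘(ℂ, E) ω X₀]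
  [TopologicalSpace X] [T2Space X] [CompactSpace X] [ConnectedSpace X]
  {N : NSp E X₀ X} {L P : NLine N} {K J m : ℕ} {A : GAct n N} (ΛL : GLin A L) (ΛP : GLin A P)

/-- From a system of evaluation data: `P` is ample. (`(S.D 0 0)`: powers of `P` are generated and
separate the points: for `x ≠ y` the evaluation vectors are not proportional by `S.sep`, so some
linear combination of the sections vanishes at `y` and not at `x`.) -/
theorem SysOf.ample {ΛL : GLin A L} {ΛP : GLin A P} {S : GSys n X} (r : SysOf ΛL ΛP S) :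
    Ample1 L P := by
  have hnz : ∀ x (t : NSec L P (S.c 0 0 * 0) (S.c 0 0 * (0 + 1)) univ) (F : ℂ) (z : ℂ), z ≠ 0 →
      t.f (fr1 L x) (fr1 P x) x = z * F → (t.NZ x ↔ F ≠ 0) := by
    intro x t F z hz h
    rw [t.nz_iff (mem_univ x) (fr_nat L P x), h]
    exact ⟨right_ne_zero_of_mul, mul_ne_zero hz⟩
  refine ⟨S.c 0 0, S.c_pos 0 0, fun x => ?_, fun x y hxy => ?_⟩
  · obtain ⟨α, hα⟩ := Function.ne_iff.1 ((S.D 0 0).ne x)
    obtain ⟨z, hz, h⟩ := r.val 0 0 x (fr1 L x) (fr1 P x) (fr1_mem L x) (fr1_mem P x)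
    exact ⟨(r.sec 0 0 α).cast rfl (by ring), (hnz x (r.sec 0 0 α) _ z hz (h α)).2 hα⟩
  · obtain ⟨β, hβ⟩ := Function.ne_iff.1 ((S.D 0 0).ne y)
    rw [Pi.zero_apply] at hβ
    obtain ⟨α, hα⟩ : ∃ α, (S.D 0 0).v y β * (S.D 0 0).v x α - (S.D 0 0).v y α * (S.D 0 0).v x β ≠
        0 := by
      by_contra hcon
      push Not at hcon
      refine hxy (S.sep 0 0 y x ⟨(S.D 0 0).v x β / (S.D 0 0).v y β, ?_⟩).symm
      funext α
      have h1 := hcon α
      rw [Pi.smul_apply, smul_eq_mul]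
      field_simp
      linear_combination h1
    obtain ⟨z, hz, h⟩ := r.val 0 0 x (fr1 L x) (fr1 P x) (fr1_mem L x) (fr1_mem P x)
    obtain ⟨z', hz', h'⟩ := r.val 0 0 y (fr1 L y) (fr1 P y) (fr1_mem L y) (fr1_mem P y)
    let t : NSec L P (S.c 0 0 * 0) (S.c 0 0 * (0 + 1)) univ :=
      (NSec.smul ((S.D 0 0).v y β) (r.sec 0 0 α)).add
        (NSec.smul (-(S.D 0 0).v y α) (r.sec 0 0 β))
    refine ⟨t.cast rfl (by ring), (hnz x t _ z hz ?_).2 hα, fun hcon => ?_⟩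
    · show (S.D 0 0).v y β * (r.sec 0 0 α).f (fr1 L x) (fr1 P x) x +
        -(S.D 0 0).v y α * (r.sec 0 0 β).f (fr1 L x) (fr1 P x) x = _
      rw [h, h]
      ring
    · refine (hnz y t 0 z' hz' ?_).1 hcon rfl
      show (S.D 0 0).v y β * (r.sec 0 0 α).f (fr1 L y) (fr1 P y) y +
        -(S.D 0 0).v y α * (r.sec 0 0 β).f (fr1 L y) (fr1 P y) y = _
      rw [h', h']
      ring

/-- X8. Proof. `exists_repW` for `W = sMod L P k 0 m` (`sMod_finite`), `T = TRS` and the forms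
`sev` at the points with frames and charts (`sMod_ext`, `TRS_cont`, `TRS_hol`). The coefficients
`c` of `toSMod s` in the basis. For the last formula let `l = sev i' j' ψ y`: the vector
`V.act g (values at y)` is the vector of the values of `g⁻¹ σ_α` at `y`; apply `TRS_val` for `g` and
`t = g⁻¹ σ_α`. -/
theorem exists_span [SecondCountableTopology X₀] {ΛL : GLin A L} {ΛP : GLin A P} {S : GSys n X}
    (r : SysOf ΛL ΛP S) {k m : ℕ}
    (s : Sec2 L.reg P.reg k 0 m (N.inc ⁻¹' (univ : Set X))) :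
    ∃ (κ : Type) (_ : Fintype κ) (_ : DecidableEq κ) (V : Rep n κ)
      (σ : κ → Sec2 L.reg P.reg k 0 m (N.inc ⁻¹' (univ : Set X))) (c : κ → ℂ),
      (∀ i j, ∀ φ ∈ Charts E X₀, ∀ y, N.inc y ∈ L.U i → N.inc y ∈ P.U j → y ∈ φ.source →
        s.f i j φ y = ∑ α, c α * (σ α).f i j φ y) ∧
      ∀ g i j i' j', ∀ φ ∈ Charts E X₀, ∀ ψ ∈ Charts E X₀, ∀ y, A.act g (N.inc y) ∈ L.U i →
        A.act g (N.inc y) ∈ P.U j → N.inc y ∈ L.U i' → N.inc y ∈ P.U j' →
        A.reg g y ∈ φ.source → y ∈ ψ.source → ∀ α,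
        (σ α).f i j φ (A.reg g y) = ΛL.lam i i' g (N.inc y) ^ k * A.jac φ ψ g y ^ m *
          V.act g (fun β => (σ β).f i' j' ψ y) α := by
  haveI := sMod_finite r.ample k 0 m
  obtain ⟨κ, ft, de, V, b, h⟩ := exists_repW (W := sMod L P k 0 m) (TRS ΛL ΛP k 0 m)
    (S := L.ι × P.ι × OpenPartialHomeomorph X₀ E × X₀)
    (fun p => sev k 0 m p.1 p.2.1 p.2.2.1 p.2.2.2)
    (fun w hw => sMod_ext fun i j φ x _ => hw (i, j, φ, x))
    (fun p w => TRS_cont ΛL ΛP w _ _ _ _)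
    (fun p w γ hγ => TRS_hol ΛL ΛP w _ _ _ _ hγ)
  refine ⟨κ, ft, de, V, fun a => sMod.sec (b a), fun a => b.repr (toSMod s) a, ?_, ?_⟩
  · intro i j φ hφ y h1 h2 h3
    have hat : At L.reg P.reg i j φ y := ⟨hφ, h1, h2, h3⟩
    have e := congrArg (sev k 0 m i j φ y) (b.sum_repr (toSMod s))
    rw [map_sum] at e
    have e2 : sev k 0 m i j φ y (toSMod s) = s.f i j φ y := toSMod_f s hat
    rw [← e2, ← e]
    exact Finset.sum_congr rfl fun a _ => by rw [map_smul, smul_eq_mul]; rfl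
  · intro g i j i' j' φ hφ ψ hψ y h1 h2 h3 h4 h5 h6 α
    have hat : At L.reg P.reg i j φ (A.reg g y) := by
      refine ⟨hφ, ?_, ?_, h5⟩
      · rw [A.inc] at h1
        exact h1
      · rw [A.inc] at h2
        exact h2
    have hat' : At L.reg P.reg i' j' ψ y := ⟨hψ, h3, h4, h6⟩
    have e1 := congrFun (h g (sev k 0 m i' j' ψ y)) α
    have e2 : V.act g (fun β => (sMod.sec (b β)).f i' j' ψ y) α =
        (TRS ΛL ΛP k 0 m g⁻¹ (b α)).1 i' j' ψ y := e1
    have e3 := TRS_val ΛL ΛP g (TRS ΛL ΛP k 0 m g⁻¹ (b α)) hat hat'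
    rw [← Module.End.mul_apply, ← map_mul, mul_inv_cancel, map_one] at e3
    rw [e2]
    refine Eq.trans e3 ?_
    rw [gl, pow_zero, mul_one]

end Pool.Agent.SG
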