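import Pool.Agent.H.MP_e23cd6_ag.SG.X.Bas

/-! Block X: the vector space of the sections of `L ^ K ⊗ P ^ J` over `X` and the action of
`SL_n(ℂ)` on it. -/

set_option autoImplicit false

open scoped Manifold ContDiff Topology ENNReal
open MeasureTheory Set Filter

namespace Pool.Agent.SG

open Pool.Agent.Abd Pool.Agent.Abn

variable {E : Type} [NormedAddCommGroup E] [NormedSpace ℂ E] {n : ℕ}
  {X₀ X : Type} [TopologicalSpace X₀] [ChartedSpace E X₀] [TopologicalSpace X]
  {N : NSp E X₀ X} {L P : NLine N} {K J K' J' m : ℕ} {U V : Set X}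

/-- The vector space of the sections of `L ^ K ⊗ P ^ J` over `X`: the families `f i j` with the
value `0` outside of `U i ∩ U j`. -/
def nMod (L P : NLine N) (K J : ℕ) : Submodule ℂ (L.ι → P.ι → X → ℂ) where
  carrier := {f | (∀ i j x, f i j x ≠ 0 → NAt L P i j x) ∧
    (∀ i j x, NAt L P i j x → N.Hol (f i j) x) ∧
    (∀ i j i' j' x, NAt L P i j x → NAt L P i' j' x →
      f i j x = L.g i i' x ^ K * P.g j j' x ^ J * f i' j' x)}
  zero_mem' := ⟨fun i j x h => absurd rfl h, fun i j x _ => Hol_const 0 x,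
    fun i j i' j' x _ _ => by simp⟩
  add_mem' := by
    rintro f f' ⟨h1, h2, h3⟩ ⟨h1', h2', h3'⟩
    refine ⟨fun i j x h => ?_, fun i j x hx => ?_, fun i j i' j' x h h' => ?_⟩
    · by_contra hcon
      apply h
      have e1 : f i j x = 0 := by
        by_contra h0
        exact hcon (h1 i j x h0)
      have e2 : f' i j x = 0 := by
        by_contra h0
        exact hcon (h1' i j x h0)
      simp [e1, e2]
    · exact Hol_add (h2 i j x hx) (h2' i j x hx)
    · simp only [Pi.add_apply]
      rw [h3 i j i' j' x h h', h3' i j i' j' x h h']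
      ring
  smul_mem' := by
    rintro c f ⟨h1, h2, h3⟩
    refine ⟨fun i j x h => ?_, fun i j x hx => ?_, fun i j i' j' x h h' => ?_⟩
    · apply h1 i j x
      intro h0
      apply h
      simp [h0]
    · exact Hol_mul (Hol_const c x) (h2 i j x hx)
    · simp only [Pi.smul_apply, smul_eq_mul]
      rw [h3 i j i' j' x h h']
      ring

/-- The section given by an element of `nMod`. -/
def nMod.sec (t : nMod L P K J) : NSec L P K J univ where
  f := t.1
  hol := fun i j x _ h1 h2 => t.2.2.1 i j x ⟨h1, h2⟩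
  trans := fun i j i' j' x _ h1 h2 h3 h4 => t.2.2.2 i j i' j' x ⟨h1, h2⟩ ⟨h3, h4⟩

open Classical in
/-- The element of `nMod` given by a section. -/
noncomputable def toMod (s : NSec L P K J univ) : nMod L P K J :=
  ⟨fun i j x => if NAt L P i j x then s.f i j x else 0, by
    refine ⟨fun i j x h => ?_, fun i j x hx => ?_, fun i j i' j' x h h' => ?_⟩
    · by_contra hcon
      exact h (if_neg hcon)
    · refine Hol_congr (s.hol' (mem_univ x) hx) ?_
      filter_upwards [hx.eventually] with y hy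
      exact (if_pos hy).symm
    · simp only
      rw [if_pos h, if_pos h']
      exact s.trans' (mem_univ x) h h'⟩

theorem toMod_f (s : NSec L P K J univ) {i j x} (h : NAt L P i j x) :
    (toMod s).1 i j x = s.f i j x := if_pos h

theorem nMod_ext {t t' : nMod L P K J} (h : ∀ i j x, NAt L P i j x → t.1 i j x = t'.1 i j x) :
    t = t' := by
  apply Subtype.ext
  funext i j x
  by_cases hx : NAt L P i j x
  · exact h i j x hx
  · have e1 : t.1 i j x = 0 := by
      by_contra h0
      exact hx (t.2.1 i j x h0)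
    have e2 : t'.1 i j x = 0 := by
      by_contra h0
      exact hx (t'.2.1 i j x h0)
    rw [e1, e2]

/-- The value at the point `x`, in the frames `i`, `j`. -/
def nev (K J : ℕ) (i : L.ι) (j : P.ι) (x : X) : nMod L P K J →ₗ[ℂ] ℂ where
  toFun t := t.1 i j x
  map_add' _ _ := rfl
  map_smul' _ _ := rfl

theorem nev_apply (i : L.ι) (j : P.ι) (x : X) (t : nMod L P K J) : nev K J i j x t = t.1 i j x :=
  rfl

variable {A : GAct n N} (ΛL : GLin A L) (ΛP : GLin A P)

/-- A frame at `x`. -/
noncomputable def ch (B : NLine N) (x : X) : B.ι := (B.cover x).choose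

theorem ch_mem (B : NLine N) (x : X) : x ∈ B.U (ch B x) := (B.cover x).choose_spec

/-- Translation by `g`, on the values: `(g t) (x) = g (t (g⁻¹ x))`. -/
noncomputable def trF (K J : ℕ) (g : Gp n) (t : L.ι → P.ι → X → ℂ) (i : L.ι) (j : P.ι) (x : X) :
    ℂ :=
  gl ΛL ΛP K J i j (ch L (A.act g⁻¹ x)) (ch P (A.act g⁻¹ x)) g (A.act g⁻¹ x) *
    t (ch L (A.act g⁻¹ x)) (ch P (A.act g⁻¹ x)) (A.act g⁻¹ x)

/-- Proof. `gl_change` with the chosen frames at `x = g⁻¹ (g x)` and the frames `i'`, `j'` (the same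
frames `i`, `j` at `g x`, `L.one`, `P.one`), and the transition rule of `t`. -/
theorem trF_val (g : Gp n) (t : nMod L P K J) {i j i' j' x} (h : NAt L P i j (A.act g x))
    (h' : NAt L P i' j' x) :
    trF ΛL ΛP K J g t.1 i j (A.act g x) = gl ΛL ΛP K J i j i' j' g x * t.1 i' j' x := by
  unfold trF
  rw [gact_inv_act A g x]
  have h0 : NAt L P (ch L x) (ch P x) x := ⟨ch_mem L x, ch_mem P x⟩
  have e1 := gl_change (K := K) (J := J) ΛL ΛP h h0 h h'
  have e2 := t.2.2.2 _ _ _ _ x h' h0
  rw [e1, e2, L.one i _ h.memL, P.one j _ h.memP]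
  ring

open Classical in
/-- Translation by `g`.

Proof. Holomorphy at `x`: fix frames `i'`, `j'` at `g⁻¹ x`; near `x` the function is
`gl ΛL ΛP K J i j i' j' g (g⁻¹ y) * t i' j' (g⁻¹ y)` by `trF_val` (at the point `g⁻¹ y`); continuity
by `gl_contAt_x`, `gact_continuous`, holomorphy at the regular points by `gl_holAt`, `greg_hol`
(composition) and `A.inc`. Transition: `trF_val` with the frames `i, j` and `i', j'` at
`x = g (g⁻¹ x)` and `gl_change`. -/
noncomputable def tr (K J : ℕ) (g : Gp n) (t : nMod L P K J) : nMod L P K J :=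
  ⟨fun i j x => if NAt L P i j x then trF ΛL ΛP K J g t.1 i j x else 0, by
    refine ⟨fun i j x h => ?_, fun i j x hx => ?_, fun i j i' j' x h h' => ?_⟩
    · by_contra hcon
      exact h (if_neg hcon)
    · obtain ⟨i', j', hat⟩ := exists_nat L P (A.act g⁻¹ x)
      have hx' : NAt L P i j (A.act g (A.act g⁻¹ x)) := by rw [gact_act_inv]; exact hx
      have hc : Continuous (A.act g⁻¹) := gact_continuous A g⁻¹
      obtain ⟨V, hV, hxV, hVc, hVh⟩ := t.2.2.1 i' j' _ hat
      -- the function near `x`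
      have hval : ∀ y, NAt L P i j y → NAt L P i' j' (A.act g⁻¹ y) →
          trF ΛL ΛP K J g t.1 i j y = gl ΛL ΛP K J i j i' j' g (A.act g⁻¹ y) *
            t.1 i' j' (A.act g⁻¹ y) := by
        intro y hy hy'
        have e := trF_val ΛL ΛP g t (i := i) (j := j) (i' := i') (j' := j')
          (x := A.act g⁻¹ y) (by rw [gact_act_inv]; exact hy) hy'
        rw [gact_act_inv] at e
        exact e
      have hO : IsOpen ({y | NAt L P i j y ∧ NAt L P i' j' (A.act g⁻¹ y)} ∩ A.act g⁻¹ ⁻¹' V) := by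
        refine IsOpen.inter ?_ (hV.preimage hc)
        rw [isOpen_iff_mem_nhds]
        rintro y ⟨h1, h2⟩
        filter_upwards [h1.eventually, hc.continuousAt.eventually h2.eventually] with z k1 k2
        exact ⟨k1, k2⟩
      refine Hol_congr (f := fun y => gl ΛL ΛP K J i j i' j' g (A.act g⁻¹ y) *
        t.1 i' j' (A.act g⁻¹ y)) ?_ ?_
      · refine Hol_of_forall hO ⟨⟨hx, hat⟩, hxV⟩ ?_ ?_
        · rintro y ⟨⟨h1, h2⟩, h3⟩
          have h1' : NAt L P i j (A.act g (A.act g⁻¹ y)) := by rw [gact_act_inv]; exact h1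
          have c1 := gl_contAt_x (K := K) (J := J) ΛL ΛP h1' h2
          have c2 : ContinuousAt (t.1 i' j') (A.act g⁻¹ y) :=
            (hVc _ h3).continuousAt (hV.mem_nhds h3)
          exact ((ContinuousAt.comp (f := A.act g⁻¹) c1 hc.continuousAt).mul
            (ContinuousAt.comp (f := A.act g⁻¹) c2 hc.continuousAt)).continuousWithinAt
        · rintro y ⟨⟨h1, h2⟩, h3⟩
          have h1' : NAt L P i j (A.act g (A.act g⁻¹ (N.inc y))) := by
            rw [gact_act_inv]; exact h1
          have h3' : A.act g⁻¹ (N.inc y) ∈ V := h3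
          rw [A.inc] at h1' h2 h3'
          have c1 := gl_holAt (K := K) (J := J) ΛL ΛP h1' h2
          have c2 := hVh _ h3'
          have c3 : ContMDiffAt 𝓘(ℂ, E) 𝓘(ℂ, E) ω (A.reg g⁻¹) y := greg_hol A g⁻¹ y
          have c4 : HolAt E (fun y => gl ΛL ΛP K J i j i' j' g (N.inc (A.reg g⁻¹ y))) y :=
            ContMDiffAt.comp (g := fun y => gl ΛL ΛP K J i j i' j' g (N.inc y))
              (f := A.reg g⁻¹) y c1 c3
          have c5 : HolAt E (fun y => t.1 i' j' (N.inc (A.reg g⁻¹ y))) y :=
            ContMDiffAt.comp (g := fun y => t.1 i' j' (N.inc y)) (f := A.reg g⁻¹) y c2 c3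
          have c6 := c4.mul c5
          have e : (fun y => gl ΛL ΛP K J i j i' j' g (A.act g⁻¹ (N.inc y)) *
              t.1 i' j' (A.act g⁻¹ (N.inc y))) = fun y =>
              gl ΛL ΛP K J i j i' j' g (N.inc (A.reg g⁻¹ y)) *
                t.1 i' j' (N.inc (A.reg g⁻¹ y)) := by
            funext z
            rw [A.inc]
          rw [e]
          exact c6
      · filter_upwards [hO.mem_nhds ⟨⟨hx, hat⟩, hxV⟩] with y hy
        rw [if_pos hy.1.1, hval y hy.1.1 hy.1.2]
    · obtain ⟨i'', j'', hat⟩ := exists_nat L P (A.act g⁻¹ x)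
      have k1 : NAt L P i j (A.act g (A.act g⁻¹ x)) := by rw [gact_act_inv]; exact h
      have k2 : NAt L P i' j' (A.act g (A.act g⁻¹ x)) := by rw [gact_act_inv]; exact h'
      have e1 := trF_val ΛL ΛP g t k1 hat
      have e2 := trF_val ΛL ΛP g t k2 hat
      have e3 := gl_change (K := K) (J := J) ΛL ΛP k1 hat k2 hat
      rw [gact_act_inv] at e1 e2 e3
      simp only
      rw [if_pos h, if_pos h', e1, e2, e3, L.one _ _ hat.memL, P.one _ _ hat.memP]
      ring⟩

theorem tr_val (g : Gp n) (t : nMod L P K J) {i j i' j' x} (h : NAt L P i j (A.act g x))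
    (h' : NAt L P i' j' x) :
    (tr ΛL ΛP K J g t).1 i j (A.act g x) = gl ΛL ΛP K J i j i' j' g x * t.1 i' j' x := by
  have e : (tr ΛL ΛP K J g t).1 i j (A.act g x) = trF ΛL ΛP K J g t.1 i j (A.act g x) := if_pos h
  rw [e, trF_val ΛL ΛP g t h h']

end Pool.Agent.SG
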