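import Pool.Agent.H.MP_e23cd6_ag.SG.Defs
import Pool.Agent.H.MP_e23cd6_ag.NT.Ext

/-! Block X: basic facts on actions of `SL_n(ℂ)` and linearisations; translates of sections. -/

set_option autoImplicit false

open scoped Manifold ContDiff Topology ENNReal
open MeasureTheory Set Filter

namespace Pool.Agent.SG

open Pool.Agent.Abd Pool.Agent.Abn

variable {E : Type} [NormedAddCommGroup E] [NormedSpace ℂ E] {n : ℕ}
  {X₀ X : Type} [TopologicalSpace X₀] [ChartedSpace E X₀] [TopologicalSpace X]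
  {N : NSp E X₀ X} {L P : NLine N} {K J K' J' m : ℕ} {U V : Set X}

section act

variable (A : GAct n N)

theorem gact_inv_act (g : Gp n) (x : X) : A.act g⁻¹ (A.act g x) = x := by
  rw [← A.mul, inv_mul_cancel, A.one]

theorem gact_act_inv (g : Gp n) (x : X) : A.act g (A.act g⁻¹ x) = x := by
  rw [← A.mul, mul_inv_cancel, A.one]

theorem gact_continuous (g : Gp n) : Continuous (A.act g) :=
  A.cont.comp (continuous_const.prodMk continuous_id)

theorem greg_mul (g h : Gp n) (y : X₀) : A.reg (g * h) y = A.reg g (A.reg h y) := by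
  apply N.emb.injective
  rw [← A.inc, A.mul, A.inc, A.inc]

theorem greg_one (y : X₀) : A.reg 1 y = y := by
  apply N.emb.injective
  rw [← A.inc, A.one]

theorem greg_inv_reg (g : Gp n) (y : X₀) : A.reg g⁻¹ (A.reg g y) = y := by
  rw [← greg_mul, inv_mul_cancel, greg_one]

theorem greg_reg_inv (g : Gp n) (y : X₀) : A.reg g (A.reg g⁻¹ y) = y := by
  rw [← greg_mul, mul_inv_cancel, greg_one]

theorem holCurve_const (g : Gp n) : HolCurve fun _ : ℂ => g := fun _ _ => differentiable_const _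

/-- `y ↦ g y` is holomorphic on the regular part (use `A.hol` for the constant curve). -/
theorem greg_hol (g : Gp n) : ContMDiff 𝓘(ℂ, E) 𝓘(ℂ, E) ω (A.reg g) := by
  have h1 := A.hol (fun _ => g) (holCurve_const g)
  have h2 : ContMDiff 𝓘(ℂ, E) (𝓘(ℂ).prod 𝓘(ℂ, E)) ω (fun y : X₀ => ((0 : ℂ), y)) :=
    contMDiff_const.prodMk contMDiff_id
  exact h1.comp h2

variable {A} {B : NLine N} (Λ : GLin A B)

/-- The function `lam i j g x` has no zero. -/
theorem glam_ne {g : Gp n} {i j : B.ι} {x : X} (hj : x ∈ B.U j) (hi : A.act g x ∈ B.U i) :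
    Λ.lam i j g x ≠ 0 := by
  intro h0
  have h1 := Λ.mul j i j g⁻¹ g x hj hi (by rw [inv_mul_cancel, A.one]; exact hj)
  rw [h0, mul_zero, inv_mul_cancel, Λ.one j j x hj hj, B.one j x hj] at h1
  exact zero_ne_one h1

/-- Change of frames at both ends. -/
theorem glam_change {g : Gp n} {i i' j j' : B.ι} {x : X} (hj : x ∈ B.U j)
    (hj' : x ∈ B.U j') (hi : A.act g x ∈ B.U i) (hi' : A.act g x ∈ B.U i') :
    Λ.lam i j g x = B.g i i' (A.act g x) * Λ.lam i' j' g x * B.g j' j x := by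
  have h1 := Λ.mul i i' j 1 g x hj hi' (by rw [one_mul]; exact hi)
  rw [one_mul, Λ.one i i' _ hi hi'] at h1
  have h2 := Λ.mul i' j' j g 1 x hj (by rw [A.one]; exact hj') (by rw [mul_one]; exact hi')
  rw [mul_one, A.one, Λ.one j' j x hj' hj] at h2
  rw [← h1, ← h2, mul_assoc]

theorem glam_contAt {g : Gp n} {i j : B.ι} {x : X} (hj : x ∈ B.U j) (hi : A.act g x ∈ B.U i) :
    ContinuousAt (Λ.lam i j g) x := by
  have h1 : ContinuousAt (fun y : X => (g, y)) x := by fun_prop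
  exact ContinuousAt.comp (g := fun v : Gp n × X => Λ.lam i j v.1 v.2)
    (f := fun y : X => (g, y)) (Λ.cont i j g x hj hi) h1

theorem glam_contAt' {g : Gp n} {i j : B.ι} {x : X} (hj : x ∈ B.U j) (hi : A.act g x ∈ B.U i) :
    ContinuousAt (fun g => Λ.lam i j g x) g := by
  have h1 : ContinuousAt (fun g : Gp n => (g, x)) g := by fun_prop
  exact ContinuousAt.comp (g := fun v : Gp n × X => Λ.lam i j v.1 v.2)
    (f := fun g : Gp n => (g, x)) (Λ.cont i j g x hj hi) h1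

/-- `lam i j g` is holomorphic on the regular part. -/
theorem glam_holAt {g : Gp n} {i j : B.ι} {y : X₀} (hj : N.inc y ∈ B.U j)
    (hi : A.act g (N.inc y) ∈ B.U i) : HolAt E (fun y => Λ.lam i j g (N.inc y)) y := by
  have h1 := Λ.hol (fun _ => g) (holCurve_const g) i j 0 y hj hi
  have h2 : ContMDiffAt 𝓘(ℂ, E) (𝓘(ℂ).prod 𝓘(ℂ, E)) ω (fun y : X₀ => ((0 : ℂ), y)) y :=
    contMDiffAt_const.prodMk contMDiffAt_id
  exact ContMDiffAt.comp (g := fun v : ℂ × X₀ => Λ.lam i j g (N.inc v.2))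
    (f := fun y : X₀ => ((0 : ℂ), y)) y h1 h2

/-- `lam i j (φ z) y` is holomorphic in `z`. -/
theorem glam_differentiableAt {φ : ℂ → Gp n} (hφ : HolCurve φ) {i j : B.ι} {z : ℂ} {y : X₀}
    (hj : N.inc y ∈ B.U j) (hi : A.act (φ z) (N.inc y) ∈ B.U i) :
    DifferentiableAt ℂ (fun z => Λ.lam i j (φ z) (N.inc y)) z := by
  have h1 := Λ.hol φ hφ i j z y hj hi
  have h2 : ContMDiffAt 𝓘(ℂ) (𝓘(ℂ).prod 𝓘(ℂ, E)) ω (fun z : ℂ => (z, y)) z :=
    contMDiffAt_id.prodMk contMDiffAt_const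
  have h3 : ContMDiffAt 𝓘(ℂ) 𝓘(ℂ) ω (fun z => Λ.lam i j (φ z) (N.inc y)) z :=
    ContMDiffAt.comp (g := fun v : ℂ × X₀ => Λ.lam i j (φ v.1) (N.inc v.2))
      (f := fun z : ℂ => (z, y)) z h1 h2
  exact h3.contDiffAt.differentiableAt (by simp)

end act

section mult

variable {A : GAct n N} (ΛL : GLin A L) (ΛP : GLin A P)

/-- The factor of the action on `L ^ K ⊗ P ^ J`, from the frames `i'`, `j'` at `x` to the frames
`i`, `j` at `g x`. -/
def gl (K J : ℕ) (i : L.ι) (j : P.ι) (i' : L.ι) (j' : P.ι) (g : Gp n) (x : X) : ℂ :=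
  ΛL.lam i i' g x ^ K * ΛP.lam j j' g x ^ J

theorem gl_ne {g : Gp n} {i j i' j' x} (h : NAt L P i j (A.act g x)) (h' : NAt L P i' j' x) :
    gl ΛL ΛP K J i j i' j' g x ≠ 0 :=
  mul_ne_zero (pow_ne_zero _ (glam_ne ΛL h'.memL h.memL))
    (pow_ne_zero _ (glam_ne ΛP h'.memP h.memP))

theorem gl_mul {g h : Gp n} {i j i' j' i'' j'' x} (h1 : NAt L P i j (A.act (g * h) x))
    (h2 : NAt L P i' j' (A.act h x)) (h3 : NAt L P i'' j'' x) :
    gl ΛL ΛP K J i j i' j' g (A.act h x) * gl ΛL ΛP K J i' j' i'' j'' h x =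
      gl ΛL ΛP K J i j i'' j'' (g * h) x := by
  unfold gl
  rw [← ΛL.mul i i' i'' g h x h3.memL h2.memL h1.memL, ← ΛP.mul j j' j'' g h x h3.memP h2.memP
    h1.memP]
  ring

theorem gl_one {i j i' j' x} (h : NAt L P i j x) (h' : NAt L P i' j' x) :
    gl ΛL ΛP K J i j i' j' 1 x = L.g i i' x ^ K * P.g j j' x ^ J := by
  unfold gl
  rw [ΛL.one i i' x h.memL h'.memL, ΛP.one j j' x h.memP h'.memP]

/-- Change of frames at both ends. -/
theorem gl_change {g : Gp n} {i j i' j' i₁ j₁ i₁' j₁' x} (h : NAt L P i j (A.act g x))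
    (h' : NAt L P i' j' x) (h1 : NAt L P i₁ j₁ (A.act g x)) (h1' : NAt L P i₁' j₁' x) :
    gl ΛL ΛP K J i j i' j' g x = (L.g i i₁ (A.act g x) ^ K * P.g j j₁ (A.act g x) ^ J) *
      gl ΛL ΛP K J i₁ j₁ i₁' j₁' g x * (L.g i₁' i' x ^ K * P.g j₁' j' x ^ J) := by
  unfold gl
  rw [glam_change ΛL h'.memL h1'.memL h.memL h1.memL, glam_change ΛP h'.memP h1'.memP h.memP
    h1.memP]
  ring

theorem gl_contAt {g : Gp n} {i j i' j' x} (h : NAt L P i j (A.act g x)) (h' : NAt L P i' j' x) :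
    ContinuousAt (fun v : Gp n × X => gl ΛL ΛP K J i j i' j' v.1 v.2) (g, x) :=
  ((ΛL.cont i i' g x h'.memL h.memL).pow K).mul ((ΛP.cont j j' g x h'.memP h.memP).pow J)

theorem gl_contAt_x {g : Gp n} {i j i' j' x} (h : NAt L P i j (A.act g x))
    (h' : NAt L P i' j' x) : ContinuousAt (gl ΛL ΛP K J i j i' j' g) x :=
  ((glam_contAt ΛL h'.memL h.memL).pow K).mul ((glam_contAt ΛP h'.memP h.memP).pow J)

theorem gl_contAt_g {g : Gp n} {i j i' j' x} (h : NAt L P i j (A.act g x))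
    (h' : NAt L P i' j' x) : ContinuousAt (fun g => gl ΛL ΛP K J i j i' j' g x) g :=
  ((glam_contAt' ΛL h'.memL h.memL).pow K).mul ((glam_contAt' ΛP h'.memP h.memP).pow J)

theorem gl_holAt {g : Gp n} {i j i' j'} {y : X₀} (h : NAt L P i j (A.act g (N.inc y)))
    (h' : NAt L P i' j' (N.inc y)) :
    HolAt E (fun y => gl ΛL ΛP K J i j i' j' g (N.inc y)) y :=
  ((glam_holAt ΛL h'.memL h.memL).pow K).mul ((glam_holAt ΛP h'.memP h.memP).pow J)

theorem gl_differentiableAt {φ : ℂ → Gp n} (hφ : HolCurve φ) {i j i' j'} {z : ℂ} {y : X₀}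
    (h : NAt L P i j (A.act (φ z) (N.inc y))) (h' : NAt L P i' j' (N.inc y)) :
    DifferentiableAt ℂ (fun z => gl ΛL ΛP K J i j i' j' (φ z) (N.inc y)) z :=
  ((glam_differentiableAt ΛL hφ h'.memL h.memL).pow K).mul
    ((glam_differentiableAt ΛP hφ h'.memP h.memP).pow J)

end mult

end Pool.Agent.SG
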