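import Pool.Agent.H.MP_e23cd6_ag.SG.X.SupA

/-! Block X: the absolute values of holomorphic functions near the singular points are bounded by
those on a compact set of regular points. -/

set_option autoImplicit false

open scoped Manifold ContDiff Topology ENNReal
open MeasureTheory Set Filter

namespace Pool.Agent.SG

open Pool.Agent.Abd Pool.Agent.Abn

variable {E : Type} [NormedAddCommGroup E] [NormedSpace ℂ E] [FiniteDimensional ℂ E]
  {X₀ X : Type} [TopologicalSpace X₀] [ChartedSpace E X₀] [IsManifold 𝓘(ℂ, E) ω X₀]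
  [TopologicalSpace X] [T2Space X] [CompactSpace X] {N : NSp E X₀ X}

omit [FiniteDimensional ℂ E] [IsManifold 𝓘(ℂ, E) ω X₀] [T2Space X] [CompactSpace X] in
/-- One hump. -/
theorem sup_hump {V V' V'' : Set X} (hV : IsOpen V) (hV'' : IsCompact V'')
    (h' : V' ⊆ interior V'') (h'' : V'' ⊆ V) {Q : Set X₀}
    (hno : ∀ C : ℝ, 0 ≤ C → ∃ f : X → ℂ, ContinuousOn f V ∧
      (∀ y, N.inc y ∈ V → HolAt E (fun y => f (N.inc y)) y) ∧
      ∃ M : ℝ, 0 ≤ M ∧ (∀ y ∈ Q, ‖f (N.inc y)‖ ≤ M) ∧ ∃ x ∈ V', C * M < ‖f x‖)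
    (k : ℕ) (B : ℝ) : ∃ (f : X → ℂ) (q : X₀) (S : ℝ), ContinuousOn f V ∧
      (∀ y, N.inc y ∈ V → HolAt E (fun y => f (N.inc y)) y) ∧
      (∀ y ∈ Q, ‖f (N.inc y)‖ ≤ (2 : ℝ)⁻¹ ^ k) ∧ N.inc q ∈ V'' ∧ k + 1 + B < ‖f (N.inc q)‖ ∧
      ∀ x ∈ V'', ‖f x‖ ≤ S := by
  obtain ⟨f, hfc, hfh, M, hM, hfM, x, hx, hfx⟩ := hno ((k + 2 + |B|) * 2 ^ k) (by positivity)
  have hf0 : 0 < ‖f x‖ := lt_of_le_of_lt (by positivity) hfx
  set c : ℂ := (((k + 2 + |B|) / ‖f x‖ : ℝ) : ℂ) with hc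
  have hcn : ‖c‖ = (k + 2 + |B|) / ‖f x‖ := by
    rw [hc, Complex.norm_real, Real.norm_of_nonneg (by positivity)]
  have hgc : ContinuousOn (fun z => c * f z) V := continuousOn_const.mul hfc
  have hgx : ‖c * f x‖ = k + 2 + |B| := by
    rw [norm_mul, hcn, div_mul_cancel₀ _ hf0.ne']
  have hxV : x ∈ V := h'' (interior_subset (h' hx))
  have hev : ∀ᶠ z in 𝓝 x, k + 1 + B < ‖c * f z‖ := by
    have h1 : ContinuousAt (fun z => ‖c * f z‖) x :=
      ((hgc x hxV).continuousAt (hV.mem_nhds hxV)).norm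
    refine h1.eventually_const_lt ?_
    change k + 1 + B < ‖c * f x‖
    rw [hgx]
    have := le_abs_self B
    linarith
  obtain ⟨W, hW, hWo, hxW⟩ := mem_nhds_iff.1 (hev.and (isOpen_interior.mem_nhds (h' hx)))
  obtain ⟨q, hq⟩ := exists_reg N hWo ⟨x, hxW⟩
  obtain ⟨S, hS⟩ := hV''.exists_bound_of_continuousOn (hgc.mono h'')
  refine ⟨fun z => c * f z, q, S, hgc, fun y hy => ?_, fun y hy => ?_,
    interior_subset (hW hq).2, (hW hq).1, hS⟩
  · exact ContMDiffAt.mul contMDiffAt_const (hfh y hy)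
  · rw [norm_mul, hcn]
    have h1 := hfM y hy
    have h2 : (2 : ℝ)⁻¹ ^ k * 2 ^ k = 1 := by
      rw [← mul_pow, inv_mul_cancel₀ (by norm_num), one_pow]
    rw [div_mul_eq_mul_div, div_le_iff₀ hf0]
    calc (k + 2 + |B|) * ‖f (N.inc y)‖ ≤ (k + 2 + |B|) * M := by gcongr
      _ = (2 : ℝ)⁻¹ ^ k * ((k + 2 + |B|) * 2 ^ k * M) := by
          linear_combination (-(k + 2 + |B|) * M) * h2
      _ ≤ (2 : ℝ)⁻¹ ^ k * ‖f x‖ := by gcongr

/-- Gliding hump. For `V` open in `X` and `V' ⊆ V` compact there are a compact set `Q` of regular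
points of `V` and `C` with `sup_{V'} |f| ≤ C sup_Q |f|` for all continuous functions `f` on `V` which
are holomorphic at the regular points.

Proof. Let `V'' ⊆ V` be a compact neighbourhood of `V'` and `Q 0 ⊆ Q 1 ⊆ …` a compact exhaustion of
`inc⁻¹ V` (`exists_exhaust`). Assume that there are no such `Q`, `C`. Construct by recursion `f k`,
`q k` and an increasing sequence `m k`: given `f 0, …, f (k-1)` let
`B k = ∑_{j<k} sup_{V''} |f j|` (finite, `V''` compact); by the assumption for `Q (m k)` and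
`C = (k + 2 + B k) * 2 ^ k` there is `f k` with `|f k| ≤ 2 ^ (-k)` on `Q (m k)` (rescale) and
`|f k| > k + 1 + B k` at some point of `V'`, so by continuity and density of the regular points at
`inc (q k)`, a regular point of `V''`; choose `m (k + 1) > m k` with `q k ∈ Q (m (k + 1))`. Then
`F = ∑ f k` is holomorphic on `inc⁻¹ V` (`hol_series` for the exhaustion `Q (m k)`) and
`|F (q k)| ≥ |f k (q k)| - B k - ∑_{j>k} 2 ^ (-j) ≥ k`. By `N.ext` `F` extends to a continuous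
function on `V`, bounded on the compact set `V''`: contradiction. -/
theorem sup_le [SecondCountableTopology X₀] {V V' : Set X} (hV : IsOpen V) (hV' : IsCompact V')
    (h : V' ⊆ V) : ∃ (Q : Set X₀) (C : ℝ), IsCompact Q ∧ Q ⊆ N.inc ⁻¹' V ∧ 0 ≤ C ∧
      ∀ f : X → ℂ, ContinuousOn f V → (∀ y, N.inc y ∈ V → HolAt E (fun y => f (N.inc y)) y) →
        ∀ M : ℝ, 0 ≤ M → (∀ y ∈ Q, ‖f (N.inc y)‖ ≤ M) → ∀ x ∈ V', ‖f x‖ ≤ C * M := by
  obtain ⟨V'', hV'', h', h''⟩ := exists_compact_between hV' hV h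
  obtain ⟨Q, hQc, hQi, hQU⟩ := exists_exhaust E (hV.preimage N.emb.continuous)
  have hmono : Monotone Q := monotone_nat_of_le_succ fun k => (hQi k).trans interior_subset
  by_contra hcon
  push Not at hcon
  have hno : ∀ m : ℕ, ∀ C : ℝ, 0 ≤ C → ∃ f : X → ℂ, ContinuousOn f V ∧
      (∀ y, N.inc y ∈ V → HolAt E (fun y => f (N.inc y)) y) ∧
      ∃ M : ℝ, 0 ≤ M ∧ (∀ y ∈ Q m, ‖f (N.inc y)‖ ≤ M) ∧ ∃ x ∈ V', C * M < ‖f x‖ := by
    intro m C hC
    have hsub : Q m ⊆ N.inc ⁻¹' V := by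
      rw [← hQU]
      exact subset_iUnion Q m
    obtain ⟨f, h1, h2, M, h3, h4, x, h5, h6⟩ := hcon (Q m) C (hQc m) hsub hC
    exact ⟨f, h1, h2, M, h3, h4, x, h5, h6⟩
  have hstep : ∀ (k m : ℕ) (B : ℝ), ∃ (f : X → ℂ) (q : X₀) (S : ℝ) (m' : ℕ), ContinuousOn f V ∧
      (∀ y, N.inc y ∈ V → HolAt E (fun y => f (N.inc y)) y) ∧
      (∀ y ∈ Q m, ‖f (N.inc y)‖ ≤ (2 : ℝ)⁻¹ ^ k) ∧ N.inc q ∈ V'' ∧ k + 1 + B < ‖f (N.inc q)‖ ∧
      (∀ x ∈ V'', ‖f x‖ ≤ S) ∧ m < m' ∧ q ∈ Q m' := by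
    intro k m B
    obtain ⟨f, q, S, h1, h2, h3, h4, h5, h6⟩ := sup_hump hV hV'' h' h'' (hno m) k B
    have hq : q ∈ ⋃ k, Q k := by
      rw [hQU]
      exact h'' h4
    obtain ⟨l, hl⟩ := mem_iUnion.1 hq
    exact ⟨f, q, S, m + l + 1, h1, h2, h3, h4, h5, h6, by omega, hmono (by omega) hl⟩
  choose F q S m' hF1 hF2 hF3 hF4 hF5 hF6 hF7 hF8 using hstep
  let st : ℕ → ℕ × ℝ := fun k => Nat.rec (0, 0)
    (fun k p => (m' k p.1 p.2, p.2 + S k p.1 p.2)) k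
  have hst1 : ∀ k, (st (k + 1)).1 = m' k (st k).1 (st k).2 := fun k => rfl
  have hst2 : ∀ k, (st (k + 1)).2 = (st k).2 + S k (st k).1 (st k).2 := fun k => rfl
  have hst0 : (st 0).2 = 0 := rfl
  set mm : ℕ → ℕ := fun k => (st k).1 with hmm
  set g : ℕ → X → ℂ := fun k => F k (st k).1 (st k).2 with hg
  have hmlt : ∀ k, mm k < mm (k + 1) := fun k => by
    rw [hmm]
    simp only [hst1]
    exact hF7 k _ _
  have hmm' : StrictMono mm := strictMono_nat_of_lt_succ hmlt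
  have hser := hol_series (O := N.inc ⁻¹' V) (Q := fun k => Q (mm k))
    (fun k => (hQi (mm k)).trans (interior_mono (hmono (hmlt k))))
    (by
      rw [← hQU]
      apply Subset.antisymm
      · exact iUnion_subset fun k => subset_iUnion Q (mm k)
      · exact iUnion_subset fun k => (hmono (hmm'.id_le k)).trans
          (subset_iUnion (fun k => Q (mm k)) k))
    (f := fun k y => g k (N.inc y))
    (fun k y hy => hF2 k _ _ y hy) (fun k y hy => hF3 k _ _ y hy)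
  obtain ⟨G, hGc, hG⟩ := N.ext V hV _ (fun y hy => (hser y hy).1)
  obtain ⟨S', hS'⟩ := hV''.exists_bound_of_continuousOn (hGc.mono h'')
  -- the values of the first terms
  have hB : ∀ k, ∀ x ∈ V'', ∑ j ∈ Finset.range k, ‖g j x‖ ≤ (st k).2 := by
    intro k x hx
    induction k with
    | zero => simp [hst0]
    | succ k ih =>
      rw [Finset.sum_range_succ, hst2]
      exact add_le_add ih (hF6 k _ _ x hx)
  obtain ⟨k, hk⟩ := exists_nat_gt S'
  set p : X₀ := q k (st k).1 (st k).2 with hp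
  have hpV'' : N.inc p ∈ V'' := hF4 k _ _
  have hpV : N.inc p ∈ V := h'' hpV''
  have h1 : ‖∑' j, g j (N.inc p)‖ ≤ S' := by
    rw [← hG p hpV]
    exact hS' _ hpV''
  have h2 := (hser p hpV).2.sum_add_tsum_nat_add (k + 1)
  have h3 : k + 1 + (st k).2 < ‖g k (N.inc p)‖ := hF5 k _ _
  have h4 : ‖∑' j, g (j + (k + 1)) (N.inc p)‖ ≤ 1 := by
    have h5 : HasSum (fun j : ℕ => (2 : ℝ)⁻¹ ^ (j + (k + 1))) ((2 : ℝ)⁻¹ ^ k) := by
      have h6 := (hasSum_geometric_of_lt_one (r := (2 : ℝ)⁻¹) (by norm_num)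
        (by norm_num)).mul_right ((2 : ℝ)⁻¹ ^ (k + 1))
      have h7 : (1 - (2 : ℝ)⁻¹)⁻¹ * (2 : ℝ)⁻¹ ^ (k + 1) = (2 : ℝ)⁻¹ ^ k := by
        have h0 : (1 - (2 : ℝ)⁻¹)⁻¹ = 2 := by norm_num
        rw [h0, pow_succ]
        ring
      rw [h7] at h6
      have h8 : (fun j : ℕ => (2 : ℝ)⁻¹ ^ (j + (k + 1))) =
          fun j => (2 : ℝ)⁻¹ ^ j * (2 : ℝ)⁻¹ ^ (k + 1) := funext fun j => pow_add _ _ _
      rw [h8]
      exact h6
    have h8 : ∀ j, ‖g (j + (k + 1)) (N.inc p)‖ ≤ (2 : ℝ)⁻¹ ^ (j + (k + 1)) := by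
      intro j
      refine hF3 (j + (k + 1)) _ _ p ?_
      refine hmono (hmm'.monotone (show k + 1 ≤ j + (k + 1) by omega)) ?_
      exact hF8 k _ _
    refine (tsum_of_norm_bounded h5 h8).trans (pow_le_one₀ (by norm_num) (by norm_num))
  have h9 := hB k _ hpV''
  rw [← h2, Finset.sum_range_succ] at h1
  have h10 : ‖g k (N.inc p)‖ ≤ ‖∑ j ∈ Finset.range k, g j (N.inc p) + g k (N.inc p) +
      ∑' j, g (j + (k + 1)) (N.inc p)‖ + ‖∑ j ∈ Finset.range k, g j (N.inc p)‖ +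
      ‖∑' j, g (j + (k + 1)) (N.inc p)‖ := by
    have h11 : g k (N.inc p) = (∑ j ∈ Finset.range k, g j (N.inc p) + g k (N.inc p) +
      ∑' j, g (j + (k + 1)) (N.inc p)) - (∑ j ∈ Finset.range k, g j (N.inc p)) -
      ∑' j, g (j + (k + 1)) (N.inc p) := by ring
    calc ‖g k (N.inc p)‖ = _ := congrArg norm h11
      _ ≤ _ := (norm_sub_le _ _).trans (by gcongr; exact norm_sub_le _ _)
  have h12 : ‖∑ j ∈ Finset.range k, g j (N.inc p)‖ ≤ (st k).2 := (norm_sum_le _ _).trans h9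
  linarith

end Pool.Agent.SG
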