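import Pool.Agent.H.MP_e23cd6_ag.SG.X.Mod
import Pool.Agent.H.MP_e23cd6_ag.SG.X.Sup

/-! Block X: the spaces of sections have finite dimension. -/

set_option autoImplicit false

open scoped Manifold ContDiff Topology ENNReal
open MeasureTheory Set Filter

namespace Pool.Agent.SG

open Pool.Agent.Abd Pool.Agent.Abn

variable {E : Type} [NormedAddCommGroup E] [NormedSpace ℂ E] [FiniteDimensional ℂ E]
  {X₀ X : Type} [TopologicalSpace X₀] [ChartedSpace E X₀] [IsManifold 𝓘(ℂ, E) ω X₀]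
  [TopologicalSpace X] [T2Space X] [CompactSpace X] {N : NSp E X₀ X} {L P : NLine N} {K J : ℕ}

/-- A finite cover of `X` by compact sets with frames.

Proof. `X` is compact Hausdorff, so locally compact; as in `weights_bounded` (NT/FourD.lean). -/
theorem exists_cover (L P : NLine N) : ∃ (α : Type) (_ : Fintype α) (i : α → L.ι) (j : α → P.ι)
    (W V : α → Set X), (∀ a, IsCompact (W a)) ∧ (∀ a, IsOpen (V a)) ∧ (∀ a, W a ⊆ V a) ∧
      (∀ a, ∀ x ∈ V a, NAt L P (i a) (j a) x) ∧ ∀ x, ∃ a, x ∈ interior (W a) := by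
  choose i j hij using exists_nat L P
  have h1 : ∀ x, ∃ K : Set X, IsCompact K ∧ x ∈ interior K ∧ K ⊆ L.U (i x) ∩ P.U (j x) := fun x =>
    exists_compact_subset ((L.isOpen (i x)).inter (P.isOpen (j x))) ⟨(hij x).memL, (hij x).memP⟩
  choose K hK hxK hKs using h1
  obtain ⟨t, ht⟩ := (isCompact_univ (X := X)).elim_nhds_subcover (fun x => interior (K x))
    (fun x _ => isOpen_interior.mem_nhds (hxK x))
  refine ⟨{x // x ∈ t}, inferInstance, fun a => i a.1, fun a => j a.1, fun a => K a.1,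
    fun a => L.U (i a.1) ∩ P.U (j a.1), fun a => hK a.1,
    fun a => (L.isOpen (i a.1)).inter (P.isOpen (j a.1)), fun a => hKs a.1,
    fun a x hx => ⟨hx.1, hx.2⟩, fun x => ?_⟩
  have hx := ht.2 (mem_univ x)
  rw [mem_iUnion₂] at hx
  obtain ⟨a, ha, h2⟩ := hx
  exact ⟨⟨a, ha⟩, h2⟩

/-- The values of the sections are bounded by the values on a compact set of regular points.

Proof. `sup_le` for the finitely many pairs `W a ⊆ V a` of `exists_cover`, `Q = ⋃ Q a`, and on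
`Q a ⊆ inc⁻¹ (V a)` the frames `i a`, `j a`. -/
theorem exists_bound [SecondCountableTopology X₀] (L P : NLine N) (K J : ℕ) :
    ∃ (α : Type) (_ : Fintype α) (i : α → L.ι) (j : α → P.ι)
    (W : α → Set X) (Q : α → Set X₀) (C : ℝ), (∀ a, IsCompact (Q a)) ∧
      (∀ a, ∀ y ∈ Q a, NAt L P (i a) (j a) (N.inc y)) ∧
      (∀ a, ∀ x ∈ W a, NAt L P (i a) (j a) x) ∧ (∀ a, IsCompact (W a)) ∧
      (∀ x, ∃ a, x ∈ interior (W a)) ∧ 0 ≤ C ∧
      ∀ (t : nMod L P K J) (M : ℝ), 0 ≤ M → (∀ a, ∀ y ∈ Q a, ‖t.1 (i a) (j a) (N.inc y)‖ ≤ M) →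
        ∀ a, ∀ x ∈ W a, ‖t.1 (i a) (j a) x‖ ≤ C * M := by
  obtain ⟨α, _, i, j, W, V, hW, hV, hWV, hVat, hcov⟩ := exists_cover L P
  have h1 := fun a => sup_le (N := N) (hV a) (hW a) (hWV a)
  choose Q C hQ hQV hC hb using h1
  refine ⟨α, inferInstance, i, j, W, Q, ∑ a, C a, hQ, fun a y hy => hVat a _ (hQV a hy),
    fun a x hx => hVat a x (hWV a hx), hW, hcov, Finset.sum_nonneg fun a _ => hC a, ?_⟩
  intro t M hM ht a x hx
  have h2 := hb a (t.1 (i a) (j a))
    (fun z hz => (Hol_continuousAt (t.2.2.1 (i a) (j a) z (hVat a z hz))).continuousWithinAt)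
    (fun y hy => Hol_reg (t.2.2.1 (i a) (j a) _ (hVat a _ hy))) M hM (ht a) x hx
  refine h2.trans ?_
  exact mul_le_mul_of_nonneg_right
    (Finset.single_le_sum (f := C) (fun a _ => hC a) (Finset.mem_univ a)) hM

end Pool.Agent.SG
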