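import Mathlib

/-! Block X: the derivative of a continuous family of holomorphic maps is continuous. -/

set_option autoImplicit false

open scoped Topology
open Set Filter Metric

namespace Pool.Agent.SG

variable {T E F : Type} [TopologicalSpace T] [NormedAddCommGroup E] [NormedSpace ℂ E]
  [NormedAddCommGroup F] [NormedSpace ℂ F]

/-- A directional derivative of a continuous family of holomorphic maps is continuous. -/
theorem family_fderiv_contAt {G : T → E → F} {O : Set (T × E)} (hO : IsOpen O)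
    (hc : ∀ v ∈ O, ContinuousAt (fun v : T × E => G v.1 v.2) v)
    (hd : ∀ v ∈ O, DifferentiableAt ℂ (G v.1) v.2) (e : E) {v₀ : T × E} (hv₀ : v₀ ∈ O) :
    ContinuousAt (fun v : T × E => fderiv ℂ (G v.1) v.2 e) v₀ := by
  -- the map `(v, t) ↦ (v.1, v.2 + t e)`
  obtain ⟨Ψ, hΨ⟩ : ∃ Ψ : (T × E) × ℂ → T × E, ∀ p, Ψ p = (p.1.1, p.1.2 + p.2 • e) :=
    ⟨_, fun _ => rfl⟩
  have hΨc : Continuous Ψ := by
    have e1 : Ψ = fun p : (T × E) × ℂ => (p.1.1, p.1.2 + p.2 • e) := funext hΨ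
    rw [e1]
    fun_prop
  have hΨ0 : ∀ v : T × E, Ψ (v, 0) = v := fun v => by
    rw [hΨ, zero_smul, add_zero]
  -- a small disc
  obtain ⟨ρ, hρ, hρO⟩ : ∃ ρ > 0, ∀ t ∈ closedBall (0 : ℂ) ρ, Ψ (v₀, t) ∈ O := by
    have h1 : Continuous fun t : ℂ => Ψ (v₀, t) := hΨc.comp (continuous_const.prodMk continuous_id)
    have h2 : (fun t : ℂ => Ψ (v₀, t)) ⁻¹' O ∈ 𝓝 (0 : ℂ) := by
      refine (hO.preimage h1).mem_nhds ?_
      show Ψ (v₀, 0) ∈ O
      rw [hΨ0]
      exact hv₀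
    obtain ⟨ρ, hρ, h3⟩ := Metric.nhds_basis_closedBall.mem_iff.1 h2
    exact ⟨ρ, hρ, fun t ht => h3 ht⟩
  -- the derivative along the disc
  have hder : ∀ (v : T × E) (t : ℂ), Ψ (v, t) ∈ O →
      HasDerivAt (fun t : ℂ => G v.1 (v.2 + t • e)) (fderiv ℂ (G v.1) (v.2 + t • e) e) t := by
    intro v t hvt
    rw [hΨ] at hvt
    have h1 : HasFDerivAt (G v.1) (fderiv ℂ (G v.1) (v.2 + t • e)) (v.2 + t • e) :=
      (hd _ hvt).hasFDerivAt
    have h2 : HasDerivAt (fun t : ℂ => v.2 + t • e) e t := by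
      have h3 : HasDerivAt (fun t : ℂ => t • e) ((1 : ℂ) • e) t := (hasDerivAt_id t).smul_const e
      rw [one_smul] at h3
      exact h3.const_add v.2
    exact h1.comp_hasDerivAt t h2
  rw [Metric.continuousAt_iff']
  intro ε hε
  obtain ⟨η, hη, hη2⟩ : ∃ η > 0, η / ρ < ε := ⟨ε * ρ / 2, by positivity, by
    rw [div_lt_iff₀ hρ]
    have := mul_pos hε hρ
    linarith⟩
  have hK : ∀ᶠ v in 𝓝 v₀, ∀ t ∈ closedBall (0 : ℂ) ρ,
      Ψ (v, t) ∈ O ∧ ‖G v.1 (v.2 + t • e) - G v₀.1 (v₀.2 + t • e)‖ ≤ η := by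
    refine (isCompact_closedBall (0 : ℂ) ρ).eventually_forall_of_forall_eventually
      (P := fun v t => Ψ (v, t) ∈ O ∧
        ‖G v.1 (v.2 + t • e) - G v₀.1 (v₀.2 + t • e)‖ ≤ η) fun t₀ ht₀ => ?_
    have h1 := hρO t₀ ht₀
    have h2 : ContinuousAt (fun p : (T × E) × ℂ => G (Ψ p).1 (Ψ p).2) (v₀, t₀) :=
      ContinuousAt.comp (g := fun v : T × E => G v.1 v.2) (f := Ψ) (hc _ h1)
        hΨc.continuousAt
    have h3 : ContinuousAt (fun p : (T × E) × ℂ => G (Ψ (v₀, p.2)).1 (Ψ (v₀, p.2)).2)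
        (v₀, t₀) := by
      have h4 : ContinuousAt (fun p : (T × E) × ℂ => Ψ (v₀, p.2)) (v₀, t₀) :=
        (hΨc.comp (continuous_const.prodMk continuous_snd)).continuousAt
      exact ContinuousAt.comp (g := fun v : T × E => G v.1 v.2)
        (f := fun p : (T × E) × ℂ => Ψ (v₀, p.2)) (hc _ h1) h4
    have h5 : ContinuousAt (fun p : (T × E) × ℂ =>
        ‖G (Ψ p).1 (Ψ p).2 - G (Ψ (v₀, p.2)).1 (Ψ (v₀, p.2)).2‖) (v₀, t₀) := (h2.sub h3).norm
    have h6 : ∀ᶠ p : (T × E) × ℂ in 𝓝 (v₀, t₀),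
        ‖G (Ψ p).1 (Ψ p).2 - G (Ψ (v₀, p.2)).1 (Ψ (v₀, p.2)).2‖ < η := by
      refine h5.eventually_lt_const ?_
      simp only [sub_self, norm_zero]
      exact hη
    have h7 : ∀ᶠ p : (T × E) × ℂ in 𝓝 (v₀, t₀), Ψ p ∈ O :=
      hΨc.continuousAt.eventually (hO.mem_nhds h1)
    filter_upwards [h6, h7] with p h8 h9
    refine ⟨h9, ?_⟩
    rw [hΨ, hΨ] at h8
    exact h8.le
  filter_upwards [hK] with v hv
  have h0 : (0 : ℂ) ∈ closedBall (0 : ℂ) ρ := mem_closedBall_self hρ.le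
  have h1 := hder v 0 (hv 0 h0).1
  have h2 := hder v₀ 0 (hρO 0 h0)
  rw [zero_smul, add_zero] at h1 h2
  have h3 := h1.fun_sub h2
  have h4 : DifferentiableOn ℂ (fun t : ℂ => G v.1 (v.2 + t • e) - G v₀.1 (v₀.2 + t • e))
      (closure (ball (0 : ℂ) ρ)) := by
    intro t ht
    have ht' : t ∈ closedBall (0 : ℂ) ρ := closure_ball_subset_closedBall ht
    exact ((hder v t (hv t ht').1).fun_sub
      (hder v₀ t (hρO t ht'))).differentiableAt.differentiableWithinAt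
  have h5 := Complex.norm_deriv_le_of_forall_mem_sphere_norm_le hρ h4.diffContOnCl
    (C := η) fun t ht => (hv t (sphere_subset_closedBall ht)).2
  rw [h3.deriv] at h5
  rw [dist_eq_norm]
  exact h5.trans_lt hη2

/-- The Jacobian determinant of a continuous family of holomorphic maps is continuous. -/
theorem family_det_contAt [FiniteDimensional ℂ E] {G : T → E → E} {O : Set (T × E)}
    (hO : IsOpen O) (hc : ∀ v ∈ O, ContinuousAt (fun v : T × E => G v.1 v.2) v)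
    (hd : ∀ v ∈ O, DifferentiableAt ℂ (G v.1) v.2) {v₀ : T × E} (hv₀ : v₀ ∈ O) :
    ContinuousAt (fun v : T × E => (fderiv ℂ (G v.1) v.2).det) v₀ := by
  let b := Module.finBasis ℂ E
  have h : (fun v : T × E => (fderiv ℂ (G v.1) v.2).det) = fun v =>
      ∑ σ : Equiv.Perm (Fin (Module.finrank ℂ E)),
      ((Equiv.Perm.sign σ : ℤ) : ℂ) * ∏ i, b.repr (fderiv ℂ (G v.1) v.2 (b i)) (σ i) := by
    funext v
    have h1 : (fderiv ℂ (G v.1) v.2).det =
        LinearMap.det (fderiv ℂ (G v.1) v.2 : E →ₗ[ℂ] E) := rfl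
    rw [h1, ← LinearMap.det_toMatrix b, Matrix.det_apply']
    refine Finset.sum_congr rfl fun σ _ => ?_
    congr 1
    refine Finset.prod_congr rfl fun i _ => ?_
    rw [LinearMap.toMatrix_apply]
    rfl
  rw [h]
  refine tendsto_finsetSum _ fun σ _ => Tendsto.mul tendsto_const_nhds ?_
  refine tendsto_finsetProd _ fun i _ => ?_
  have h2 := family_fderiv_contAt hO hc hd (b i) hv₀
  have h3 : Continuous (LinearMap.toContinuousLinearMap (b.coord (σ i))) :=
    (LinearMap.toContinuousLinearMap (b.coord (σ i))).continuous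
  exact (h3.continuousAt.tendsto.comp h2.tendsto)

end Pool.Agent.SG
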