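import Pool.Agent.H.MP_e23cd6_ag.SG.X.Bas
import Pool.Agent.H.MP_e23cd6_ag.SG.X.JacP
import Pool.Agent.H.MP_e23cd6_ag.NT.WSec

/-! Block X: the Jacobian determinants of the action. -/

set_option autoImplicit false

open scoped Manifold ContDiff Topology ENNReal
open MeasureTheory Set Filter

namespace Pool.Agent.SG

open Pool.Agent.Abd Pool.Agent.Abn

variable {E : Type} [NormedAddCommGroup E] [NormedSpace ℂ E] {n : ℕ}
  {X₀ X : Type} [TopologicalSpace X₀] [ChartedSpace E X₀] [TopologicalSpace X]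
  {N : NSp E X₀ X} {L P : NLine N} {K J K' J' m : ℕ} {U V : Set X}

variable {A : GAct n N}

/-- The action on the regular part is jointly continuous. -/
theorem greg_cont : Continuous fun v : Gp n × X₀ => A.reg v.1 v.2 := by
  rw [N.emb.isInducing.continuous_iff]
  have h1 : Continuous fun v : Gp n × X₀ => A.act v.1 (N.inc v.2) :=
    A.cont.comp (continuous_fst.prodMk (N.emb.continuous.comp continuous_snd))
  refine h1.congr fun v => ?_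
  exact A.inc v.1 v.2

/-- The inverse of a holomorphic curve is a holomorphic curve. -/
theorem gjac_holCurve_inv {γ : ℂ → Gp n} (hγ : HolCurve γ) : HolCurve fun z => (γ z)⁻¹ := by
  intro i j
  have e : (fun z => (((γ z)⁻¹ : Gp n) : Matrix (Fin n) (Fin n) ℂ) i j) = fun z =>
      ∑ σ : Equiv.Perm (Fin n), ((Equiv.Perm.sign σ : ℤ) : ℂ) *
        ∏ k, ((γ z : Matrix (Fin n) (Fin n) ℂ).updateRow j (Pi.single i 1)) (σ k) k := by
    funext z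
    rw [Matrix.SpecialLinearGroup.coe_inv, Matrix.adjugate_apply, Matrix.det_apply']
  rw [e]
  refine Differentiable.fun_sum fun σ _ => Differentiable.const_mul ?_ _
  refine Differentiable.fun_finsetProd fun k _ => ?_
  by_cases hk : σ k = j
  · simp only [hk, Matrix.updateRow_self]
    exact differentiable_const _
  · simp only [Matrix.updateRow_ne hk]
    exact hγ _ _

section charts

variable [IsManifold 𝓘(ℂ, E) ω X₀]

/-- The action in charts is holomorphic. -/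
theorem gcomp_contDiffAt {g : Gp n} {φ ψ : OpenPartialHomeomorph X₀ E} (h1 : φ ∈ Charts E X₀)
    (h2 : ψ ∈ Charts E X₀) {x : X₀} (k1 : A.reg g x ∈ φ.source) (k2 : x ∈ ψ.source) :
    ContDiffAt ℂ ω (φ ∘ A.reg g ∘ ψ.symm) (ψ x) := by
  have e1 : ContMDiffAt 𝓘(ℂ, E) 𝓘(ℂ, E) ω ψ.symm (ψ x) :=
    contMDiffAt_symm_of_mem_maximalAtlas h2 (ψ.map_source k2)
  have e2 : ContMDiffAt 𝓘(ℂ, E) 𝓘(ℂ, E) ω (A.reg g) (ψ.symm (ψ x)) :=
    (greg_hol A g).contMDiffAt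
  have e3 : ContMDiffAt 𝓘(ℂ, E) 𝓘(ℂ, E) ω φ ((A.reg g ∘ ψ.symm) (ψ x)) := by
    simp only [Function.comp, ψ.left_inv k2]
    exact contMDiffAt_of_mem_maximalAtlas h1 k1
  have e4 : ContMDiffAt 𝓘(ℂ, E) 𝓘(ℂ, E) ω (A.reg g ∘ ψ.symm) (ψ x) :=
    ContMDiffAt.comp (ψ x) e2 e1
  exact (ContMDiffAt.comp (ψ x) e3 e4).contDiffAt

/-- The Jacobian of the product (chain rule; `φ₁`, `φ₂`, `φ₃` charts at `g h x`, `h x`, `x`). -/
theorem gjac_mul {g h : Gp n} {φ₁ φ₂ φ₃ : OpenPartialHomeomorph X₀ E}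
    (h1 : φ₁ ∈ Charts E X₀) (h2 : φ₂ ∈ Charts E X₀) (h3 : φ₃ ∈ Charts E X₀) {x : X₀}
    (k1 : A.reg (g * h) x ∈ φ₁.source) (k2 : A.reg h x ∈ φ₂.source) (k3 : x ∈ φ₃.source) :
    A.jac φ₁ φ₃ (g * h) x = A.jac φ₁ φ₂ g (A.reg h x) * A.jac φ₂ φ₃ h x := by
  have k1' : A.reg g (A.reg h x) ∈ φ₁.source := by
    rw [← greg_mul]
    exact k1
  have e1 := gcomp_contDiffAt (A := A) (g := g) h1 h2 k1' k2
  have e2 := gcomp_contDiffAt (A := A) (g := h) h2 h3 k2 k3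
  have d1 : HasFDerivAt (φ₁ ∘ A.reg g ∘ φ₂.symm)
      (fderiv ℂ (φ₁ ∘ A.reg g ∘ φ₂.symm) (φ₂ (A.reg h x))) (φ₂ (A.reg h x)) :=
    (e1.differentiableAt (by simp)).hasFDerivAt
  have d2 : HasFDerivAt (φ₂ ∘ A.reg h ∘ φ₃.symm)
      (fderiv ℂ (φ₂ ∘ A.reg h ∘ φ₃.symm) (φ₃ x)) (φ₃ x) :=
    (e2.differentiableAt (by simp)).hasFDerivAt
  have hx : (φ₂ ∘ A.reg h ∘ φ₃.symm) (φ₃ x) = φ₂ (A.reg h x) := by
    simp only [Function.comp, φ₃.left_inv k3]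
  rw [← hx] at d1
  have d3 := d1.comp (φ₃ x) d2
  have hev : (φ₁ ∘ A.reg (g * h) ∘ φ₃.symm) =ᶠ[𝓝 (φ₃ x)]
      (φ₁ ∘ A.reg g ∘ φ₂.symm) ∘ (φ₂ ∘ A.reg h ∘ φ₃.symm) := by
    have hc : ContinuousAt (A.reg h ∘ φ₃.symm) (φ₃ x) := by
      refine ContinuousAt.comp ?_ (φ₃.symm.continuousAt (φ₃.map_source k3))
      exact (greg_hol A h).continuous.continuousAt
    have hs : (A.reg h ∘ φ₃.symm) (φ₃ x) ∈ φ₂.source := by
      simp only [Function.comp, φ₃.left_inv k3]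
      exact k2
    filter_upwards [hc.preimage_mem_nhds (φ₂.open_source.mem_nhds hs)] with w hw
    have hw' : φ₂.symm (φ₂ (A.reg h (φ₃.symm w))) = A.reg h (φ₃.symm w) := φ₂.left_inv hw
    simp only [Function.comp]
    rw [hw', greg_mul]
  have d4 := d3.congr_of_eventuallyEq hev
  have e3 : fderiv ℂ (φ₁ ∘ A.reg (g * h) ∘ φ₃.symm) (φ₃ x) =
      (fderiv ℂ (φ₁ ∘ A.reg g ∘ φ₂.symm) (φ₂ (A.reg h x))).comp
        (fderiv ℂ (φ₂ ∘ A.reg h ∘ φ₃.symm) (φ₃ x)) := by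
    rw [d4.fderiv, hx]
  unfold GAct.jac
  rw [e3]
  change LinearMap.det (((fderiv ℂ (φ₁ ∘ A.reg g ∘ φ₂.symm) (φ₂ (A.reg h x)) : E →L[ℂ] E) :
      E →ₗ[ℂ] E) ∘ₗ ((fderiv ℂ (φ₂ ∘ A.reg h ∘ φ₃.symm) (φ₃ x) : E →L[ℂ] E) : E →ₗ[ℂ] E)) = _
  rw [LinearMap.det_comp]

omit [IsManifold 𝓘(ℂ, E) ω X₀] in
theorem gjac_one_eq (φ ψ : OpenPartialHomeomorph X₀ E) (x : X₀) :
    A.jac φ ψ 1 x = jac φ ψ x := by
  have e : (φ ∘ A.reg 1 ∘ ψ.symm : E → E) = φ ∘ ψ.symm := by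
    funext w
    simp only [Function.comp, greg_one]
  unfold GAct.jac jac
  rw [e]

set_option linter.unusedVariables false in
theorem gjac_one {φ ψ : OpenPartialHomeomorph X₀ E}
    (h1 : φ ∈ Charts E X₀) (h2 : ψ ∈ Charts E X₀) {x : X₀} (k1 : x ∈ φ.source)
    (k2 : x ∈ ψ.source) : A.jac φ ψ 1 x = jac φ ψ x := gjac_one_eq φ ψ x

theorem gjac_ne {g : Gp n} {φ ψ : OpenPartialHomeomorph X₀ E}
    (h1 : φ ∈ Charts E X₀) (h2 : ψ ∈ Charts E X₀) {x : X₀} (k1 : A.reg g x ∈ φ.source)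
    (k2 : x ∈ ψ.source) : A.jac φ ψ g x ≠ 0 := by
  have h3 := gjac_mul (A := A) (g := g⁻¹) (h := g) (φ₁ := ψ) (φ₂ := φ) (φ₃ := ψ) h2 h1 h2
    (x := x) (by rw [inv_mul_cancel, greg_one]; exact k2) k1 k2
  rw [inv_mul_cancel, gjac_one_eq, foura_jac_self k2] at h3
  exact right_ne_zero_of_mul_eq_one h3.symm

/-- Holomorphy of the Jacobian in `x`. -/
theorem gjac_holAt [FiniteDimensional ℂ E] {g : Gp n}
    {φ ψ : OpenPartialHomeomorph X₀ E} (h1 : φ ∈ Charts E X₀) (h2 : ψ ∈ Charts E X₀) {x : X₀}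
    (k1 : A.reg g x ∈ φ.source) (k2 : x ∈ ψ.source) :
    HolAt E (fun x => A.jac φ ψ g x) x := by
  have : CompleteSpace E := FiniteDimensional.complete ℂ E
  have e1 : AnalyticAt ℂ (φ ∘ A.reg g ∘ ψ.symm) (ψ x) :=
    (gcomp_contDiffAt (A := A) h1 h2 k1 k2).analyticAt
  have e2 : AnalyticAt ℂ (fun w => (fderiv ℂ (φ ∘ A.reg g ∘ ψ.symm) w).det) (ψ x) :=
    foura_det e1.fderiv
  have e3 : ContMDiffAt 𝓘(ℂ, E) 𝓘(ℂ) ω
      (fun w => (fderiv ℂ (φ ∘ A.reg g ∘ ψ.symm) w).det) (ψ x) := e2.contDiffAt.contMDiffAt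
  exact ContMDiffAt.comp (g := fun w => (fderiv ℂ (φ ∘ A.reg g ∘ ψ.symm) w).det) (f := ψ) x e3
    (contMDiffAt_of_mem_maximalAtlas h2 k2)

/-- Holomorphy of the Jacobian along holomorphic curves. -/
theorem gjac_differentiableAt [FiniteDimensional ℂ E] {γ : ℂ → Gp n}
    (hγ : HolCurve γ) {φ ψ : OpenPartialHomeomorph X₀ E} (h1 : φ ∈ Charts E X₀)
    (h2 : ψ ∈ Charts E X₀) {x : X₀} {z₀ : ℂ} (k1 : x ∈ φ.source)
    (k2 : A.reg (γ z₀)⁻¹ x ∈ ψ.source) :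
    DifferentiableAt ℂ (fun z => A.jac φ ψ (γ z) (A.reg (γ z)⁻¹ x)) z₀ := by
  obtain ⟨y, hy⟩ : ∃ y, y = A.reg (γ z₀)⁻¹ x := ⟨_, rfl⟩
  have hyψ : y ∈ ψ.source := by
    rw [hy]
    exact k2
  have hxy : A.reg (γ z₀) y = x := by rw [hy, greg_reg_inv]
  -- the joint map
  have a1 : ContMDiffAt 𝓘(ℂ, ℂ × E) (𝓘(ℂ).prod 𝓘(ℂ, E)) ω
      (fun v : ℂ × E => (v.1, ψ.symm v.2)) (z₀, ψ y) := by
    have e1 : ContMDiffAt 𝓘(ℂ, E) 𝓘(ℂ, E) ω ψ.symm (ψ y) :=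
      contMDiffAt_symm_of_mem_maximalAtlas h2 (ψ.map_source hyψ)
    have e2 : ContMDiffAt 𝓘(ℂ, ℂ × E) 𝓘(ℂ, E) ω (fun v : ℂ × E => ψ.symm v.2) (z₀, ψ y) :=
      ContMDiffAt.comp (g := ψ.symm) (f := fun v : ℂ × E => v.2) (z₀, ψ y) e1
        contDiff_snd.contMDiff.contMDiffAt
    exact (contDiff_fst.contMDiff.contMDiffAt).prodMk e2
  have a2 : ContMDiffAt 𝓘(ℂ, ℂ × E) 𝓘(ℂ, E) ω
      (fun v : ℂ × E => A.reg (γ v.1) (ψ.symm v.2)) (z₀, ψ y) :=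
    ContMDiffAt.comp (g := fun v : ℂ × X₀ => A.reg (γ v.1) v.2)
      (f := fun v : ℂ × E => (v.1, ψ.symm v.2)) (z₀, ψ y) (A.hol γ hγ).contMDiffAt a1
  have a3 : ContMDiffAt 𝓘(ℂ, ℂ × E) 𝓘(ℂ, E) ω
      (fun v : ℂ × E => φ (A.reg (γ v.1) (ψ.symm v.2))) (z₀, ψ y) := by
    refine ContMDiffAt.comp (g := φ) (f := fun v : ℂ × E => A.reg (γ v.1) (ψ.symm v.2))
      (z₀, ψ y) ?_ a2
    simp only [ψ.left_inv hyψ, hxy]
    exact contMDiffAt_of_mem_maximalAtlas h1 k1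
  have a4 : AnalyticAt ℂ (fun v : ℂ × E => φ (A.reg (γ v.1) (ψ.symm v.2))) (z₀, ψ y) := by
    have : CompleteSpace E := FiniteDimensional.complete ℂ E
    exact a3.contDiffAt.analyticAt
  have a5 := foura_jac a4
  -- the curve
  have b1 : ContMDiffAt 𝓘(ℂ) 𝓘(ℂ, E) ω (fun z : ℂ => A.reg (γ z)⁻¹ x) z₀ :=
    ContMDiffAt.comp (g := fun v : ℂ × X₀ => A.reg (γ v.1)⁻¹ v.2) (f := fun z : ℂ => (z, x)) z₀
      (A.hol _ (gjac_holCurve_inv hγ)).contMDiffAt (contMDiffAt_id.prodMk contMDiffAt_const)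
  have b2 : ContMDiffAt 𝓘(ℂ) 𝓘(ℂ, E) ω (fun z : ℂ => ψ (A.reg (γ z)⁻¹ x)) z₀ := by
    refine ContMDiffAt.comp (g := ψ) (f := fun z : ℂ => A.reg (γ z)⁻¹ x) z₀ ?_ b1
    exact contMDiffAt_of_mem_maximalAtlas h2 k2
  have b3 : DifferentiableAt ℂ (fun z : ℂ => (z, ψ (A.reg (γ z)⁻¹ x))) z₀ :=
    differentiableAt_id.prodMk (b2.contDiffAt.differentiableAt (by simp))
  have a6 : DifferentiableAt ℂ (fun v : ℂ × E =>
      (fderiv ℂ (fun w => φ (A.reg (γ v.1) (ψ.symm w))) v.2).det)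
      ((fun z : ℂ => (z, ψ (A.reg (γ z)⁻¹ x))) z₀) := by
    simp only [← hy]
    exact a5.differentiableAt
  exact DifferentiableAt.comp (f := fun z : ℂ => (z, ψ (A.reg (γ z)⁻¹ x))) z₀ a6 b3

/-- Continuity of the Jacobian in `g`, at the moving point `g⁻¹ x`. -/
theorem gjac_contAt [FiniteDimensional ℂ E]
    {φ ψ : OpenPartialHomeomorph X₀ E} (h1 : φ ∈ Charts E X₀) (h2 : ψ ∈ Charts E X₀) {x : X₀}
    {g₀ : Gp n} (k1 : x ∈ φ.source) (k2 : A.reg g₀⁻¹ x ∈ ψ.source) :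
    ContinuousAt (fun g => A.jac φ ψ g (A.reg g⁻¹ x)) g₀ := by
  obtain ⟨O, hOdef⟩ : ∃ O : Set (Gp n × E),
      O = {v | v.2 ∈ ψ.target ∧ A.reg v.1 (ψ.symm v.2) ∈ φ.source} := ⟨_, rfl⟩
  have hact : ∀ v : Gp n × E, v.2 ∈ ψ.target →
      ContinuousAt (fun v : Gp n × E => A.reg v.1 (ψ.symm v.2)) v := by
    intro v hv
    have e1 : ContinuousAt (fun v : Gp n × E => ψ.symm v.2) v :=
      ContinuousAt.comp (g := ψ.symm) (f := fun v : Gp n × E => v.2)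
        (ψ.symm.continuousAt hv) continuous_snd.continuousAt
    exact ContinuousAt.comp (g := fun v : Gp n × X₀ => A.reg v.1 v.2)
      (f := fun v : Gp n × E => (v.1, ψ.symm v.2)) greg_cont.continuousAt
      (continuous_fst.continuousAt.prodMk e1)
  have hO : IsOpen O := by
    rw [isOpen_iff_mem_nhds]
    intro v hv
    rw [hOdef] at hv ⊢
    have e1 : ∀ᶠ v' : Gp n × E in 𝓝 v, v'.2 ∈ ψ.target :=
      continuous_snd.continuousAt.eventually (ψ.open_target.mem_nhds hv.1)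
    have e2 : ∀ᶠ v' : Gp n × E in 𝓝 v, A.reg v'.1 (ψ.symm v'.2) ∈ φ.source :=
      (hact v hv.1).eventually (φ.open_source.mem_nhds hv.2)
    filter_upwards [e1, e2] with v' h3 h4
    exact ⟨h3, h4⟩
  have hc : ∀ v ∈ O, ContinuousAt (fun v : Gp n × E => (φ ∘ A.reg v.1 ∘ ψ.symm) v.2) v := by
    intro v hv
    rw [hOdef] at hv
    exact ContinuousAt.comp (g := φ) (f := fun v : Gp n × E => A.reg v.1 (ψ.symm v.2))
      (φ.continuousAt hv.2) (hact v hv.1)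
  have hd : ∀ v ∈ O, DifferentiableAt ℂ ((φ ∘ A.reg v.1 ∘ ψ.symm) : E → E) v.2 := by
    intro v hv
    rw [hOdef] at hv
    have h3 := gcomp_contDiffAt (A := A) (g := v.1) h1 h2 (x := ψ.symm v.2) hv.2
      (ψ.map_target hv.1)
    rw [ψ.right_inv hv.1] at h3
    exact h3.differentiableAt (by simp)
  have hv₀ : (g₀, ψ (A.reg g₀⁻¹ x)) ∈ O := by
    rw [hOdef]
    refine ⟨ψ.map_source k2, ?_⟩
    show A.reg g₀ (ψ.symm (ψ (A.reg g₀⁻¹ x))) ∈ φ.source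
    rw [ψ.left_inv k2, greg_reg_inv]
    exact k1
  have h3 := family_det_contAt (T := Gp n) (G := fun g => (φ ∘ A.reg g ∘ ψ.symm : E → E))
    hO hc hd hv₀
  have h4 : ContinuousAt (fun g : Gp n => (g, ψ (A.reg g⁻¹ x))) g₀ := by
    have e1 : Continuous fun g : Gp n => A.reg g⁻¹ x :=
      greg_cont.comp (continuous_inv.prodMk continuous_const)
    have e2 : ContinuousAt (fun g : Gp n => ψ (A.reg g⁻¹ x)) g₀ :=
      ContinuousAt.comp (g := ψ) (f := fun g : Gp n => A.reg g⁻¹ x) (ψ.continuousAt k2)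
        e1.continuousAt
    exact continuousAt_id.prodMk e2
  exact ContinuousAt.comp (f := fun g : Gp n => (g, ψ (A.reg g⁻¹ x))) h3 h4

end charts

end Pool.Agent.SG
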