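import Pool.Agent.H.MP_e23cd6_ag.SG.XRepT

/-! Block X: finite dimensional spaces of sections as representations. -/

set_option autoImplicit false

namespace Pool.Agent.SG

open Matrix MeasureTheory Topology Set

variable {n : ℕ}

theorem differentiable_det' {p : ℕ} {M : ℂ → Matrix (Fin p) (Fin p) ℂ}
    (h : ∀ i j, Differentiable ℂ fun z => M z i j) : Differentiable ℂ fun z => (M z).det := by
  simp only [Matrix.det_apply]
  refine Differentiable.fun_sum fun σ _ => ?_
  refine Differentiable.const_smul ?_ _
  exact Differentiable.fun_finsetProd fun i _ => h (σ i) i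

/-- The inverse of a holomorphic curve. -/
theorem HolCurve.inv' {φ : ℂ → Gp n} (hφ : HolCurve φ) : HolCurve fun z => (φ z)⁻¹ := by
  intro i j
  have e : (fun z => ((φ z)⁻¹ : Gp n).1 i j) = fun z =>
      ((φ z : Matrix (Fin n) (Fin n) ℂ).updateRow j (Pi.single i 1)).det := by
    funext z
    rw [← Matrix.adjugate_apply]
    rfl
  show Differentiable ℂ (fun z => ((φ z)⁻¹ : Gp n).1 i j)
  rw [e]
  refine differentiable_det' fun a b => ?_
  by_cases hab : a = j
  · subst hab
    simp only [Matrix.updateRow_self]
    exact differentiable_const _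
  · have e2 : (fun z => ((φ z : Matrix (Fin n) (Fin n) ℂ).updateRow j (Pi.single i 1)) a b) =
        fun z => (φ z : Matrix (Fin n) (Fin n) ℂ) a b := by
      funext z
      rw [Matrix.updateRow_ne hab]
    rw [e2]
    exact hφ a b

/-- Let `SL_n(ℂ)` act linearly on the finite dimensional space `W`, let `ev p` be linear forms which
separate the elements of `W`, such that `ev p (g w)` is continuous in `g` and holomorphic along
holomorphic curves. Then there are a representation `R` and a basis `σ` of `W` such that for all linear
forms `l` the vector of the values `l (σ a)` is mapped by `R(g)` to the vector of the values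
`l (g⁻¹ σ a)`. -/
theorem exists_repW {W : Type} [AddCommGroup W] [Module ℂ W] [FiniteDimensional ℂ W]
    (T : Gp n →* Module.End ℂ W) {S : Type} (ev : S → W →ₗ[ℂ] ℂ)
    (sep : ∀ w, (∀ p, ev p w = 0) → w = 0)
    (cont : ∀ p w, Continuous fun g => ev p (T g w))
    (hol : ∀ p w (φ : ℂ → Gp n), HolCurve φ → Differentiable ℂ fun z => ev p (T (φ z) w)) :
    ∃ (ι : Type) (_ : Fintype ι) (_ : DecidableEq ι) (R : Rep n ι) (σ : Module.Basis ι ℂ W),
      ∀ g (l : W →ₗ[ℂ] ℂ), R.act g (fun a => l (σ a)) = fun a => l (T g⁻¹ (σ a)) := by
  classical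
  let ι := Fin (Module.finrank ℂ W)
  let w : Module.Basis ι ℂ W := Module.finBasis ℂ W
  -- the forms `ev p` span the dual space
  have hspan : Submodule.span ℂ (Set.range ev) = (⊤ : Submodule ℂ (Module.Dual ℂ W)) := by
    set V : Subspace ℂ (Module.Dual ℂ W) := Submodule.span ℂ (Set.range ev) with hV
    have h0 : V.dualCoannihilator = ⊥ := by
      rw [eq_bot_iff]
      intro t ht
      rw [Submodule.mem_dualCoannihilator] at ht
      rw [Submodule.mem_bot]
      exact sep t fun p => ht _ (Submodule.subset_span ⟨p, rfl⟩)
    have h1 : V.dualCoannihilator.dualAnnihilator = V :=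
      Subspace.dualCoannihilator_dualAnnihilator_eq
    rw [h0, Submodule.dualAnnihilator_bot] at h1
    exact h1.symm
  have hcont : ∀ (l : Module.Dual ℂ W) x, Continuous fun g => l (T g x) := by
    intro l
    have hl : l ∈ Submodule.span ℂ (Set.range ev) := by rw [hspan]; exact Submodule.mem_top
    induction hl using Submodule.span_induction with
    | mem l hl => obtain ⟨p, rfl⟩ := hl; exact fun x => cont p x
    | zero => intro x; simp only [LinearMap.zero_apply]; exact continuous_const
    | add l l' _ _ h h' => intro x; simp only [LinearMap.add_apply]; exact (h x).add (h' x)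
    | smul c l _ h => intro x; simp only [LinearMap.smul_apply]; exact (h x).const_smul c
  have hhol : ∀ (l : Module.Dual ℂ W) x (φ : ℂ → Gp n), HolCurve φ →
      Differentiable ℂ fun z => l (T (φ z) x) := by
    intro l
    have hl : l ∈ Submodule.span ℂ (Set.range ev) := by rw [hspan]; exact Submodule.mem_top
    induction hl using Submodule.span_induction with
    | mem l hl => obtain ⟨p, rfl⟩ := hl; exact fun x => hol p x
    | zero =>
      intro x φ _
      simp only [LinearMap.zero_apply]
      exact differentiable_const _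
    | add l l' _ _ h h' =>
      intro x φ hφ
      simp only [LinearMap.add_apply]
      exact (h x φ hφ).add (h' x φ hφ)
    | smul c l _ h =>
      intro x φ hφ
      simp only [LinearMap.smul_apply]
      exact (h x φ hφ).const_smul c
  -- the matrix representation
  let M : Gp n → Matrix ι ι ℂ := fun g a b => w.coord b (T g⁻¹ (w a))
  have hM : ∀ g a, T g⁻¹ (w a) = ∑ b, M g a b • w b := by
    intro g a
    exact (w.sum_repr (T g⁻¹ (w a))).symm
  let ρ : Gp n →* Matrix ι ι ℂ :=
    { toFun := M
      map_one' := by
        ext a b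
        show w.coord b (T 1⁻¹ (w a)) = _
        rw [inv_one, map_one, Module.End.one_apply, Module.Basis.coord_apply,
          Module.Basis.repr_self, Matrix.one_apply, Finsupp.single_apply]
      map_mul' := by
        intro g h
        ext a b
        show w.coord b (T (g * h)⁻¹ (w a)) = (M g * M h) a b
        rw [_root_.mul_inv_rev, map_mul, Module.End.mul_apply, hM g a, map_sum, map_sum,
          Matrix.mul_apply]
        refine Finset.sum_congr rfl fun c _ => ?_
        rw [map_smul, map_smul, smul_eq_mul] }
  obtain ⟨R, P, Pi, h1, h2, h3⟩ := exists_rep ρ (by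
      refine continuous_matrix fun a b => ?_
      exact (hcont (w.coord b) (w a)).comp continuous_inv) (by
      intro φ hφ a b
      exact hhol (w.coord b) (w a) _ hφ.inv')
  -- the new basis
  let σ : ι → W := fun a => ∑ b, P a b • w b
  have hσw : ∀ a, w a = ∑ b, Pi a b • σ b := by
    intro a
    simp only [σ, Finset.smul_sum, smul_smul]
    rw [Finset.sum_comm]
    simp only [← Finset.sum_smul]
    have e : ∀ c, ∑ b, Pi a b * P b c = (1 : Matrix ι ι ℂ) a c := by
      intro c
      rw [← h2, Matrix.mul_apply]
    simp only [e, Matrix.one_apply, ite_smul, one_smul, zero_smul]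
    rw [Finset.sum_eq_single a (fun b _ hb => by rw [if_neg (Ne.symm hb)])
      (fun h => absurd (Finset.mem_univ a) h), if_pos rfl]
  have hs : ⊤ ≤ Submodule.span ℂ (Set.range σ) := by
    rw [← w.span_eq, Submodule.span_le]
    rintro _ ⟨a, rfl⟩
    rw [hσw a]
    exact Submodule.sum_mem _ fun b _ => Submodule.smul_mem _ _ (Submodule.subset_span ⟨b, rfl⟩)
  have hli : LinearIndependent ℂ σ :=
    linearIndependent_of_top_le_span_of_card_eq_finrank hs (by simp [ι])
  let B : Module.Basis ι ℂ W := Module.Basis.mk hli hs
  refine ⟨ι, inferInstance, inferInstance, R, B, ?_⟩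
  intro g l
  have hB : ∀ a, B a = σ a := fun a => by rw [Module.Basis.mk_apply]
  funext a
  simp only [hB]
  have e1 : T g⁻¹ (σ a) = ∑ b, P a b • ∑ c, M g b c • w c := by
    simp only [σ, map_sum, map_smul, hM]
  have e2 : ∀ v : ι → ℂ, R.act g v = (P * M g * Pi) *ᵥ v := by
    intro v
    show (R.ρ g) *ᵥ v = _
    rw [h3 g]
    rfl
  rw [e2, e1]
  have e3 : (fun b => l (w b)) = Pi *ᵥ fun a => l (σ a) := by
    funext b
    rw [hσw b, map_sum]
    simp only [map_smul, smul_eq_mul]
    rfl
  rw [← Matrix.mulVec_mulVec, ← e3, ← Matrix.mulVec_mulVec]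
  simp only [map_sum, map_smul, smul_eq_mul]
  rfl

end Pool.Agent.SG
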