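import Pool.Agent.H.MP_e23cd6_ag.SG.X.ModA

/-! Block X: the action of `SL_n(ℂ)` on the sections of `L ^ K ⊗ P ^ J`. -/

set_option autoImplicit false

open scoped Manifold ContDiff Topology ENNReal
open MeasureTheory Set Filter

namespace Pool.Agent.SG

open Pool.Agent.Abd Pool.Agent.Abn

variable {E : Type} [NormedAddCommGroup E] [NormedSpace ℂ E] {n : ℕ}
  {X₀ X : Type} [TopologicalSpace X₀] [ChartedSpace E X₀] [TopologicalSpace X]
  {N : NSp E X₀ X} {L P : NLine N} {K J K' J' m : ℕ} {U V : Set X}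

variable {A : GAct n N} (ΛL : GLin A L) (ΛP : GLin A P)

theorem tr_val' (g : Gp n) (t : nMod L P K J) {i j i' j' x} (h : NAt L P i j x)
    (h' : NAt L P i' j' (A.act g⁻¹ x)) :
    (tr ΛL ΛP K J g t).1 i j x = gl ΛL ΛP K J i j i' j' g (A.act g⁻¹ x) *
      t.1 i' j' (A.act g⁻¹ x) := by
  have e := tr_val ΛL ΛP g t (i := i) (j := j) (i' := i') (j' := j') (x := A.act g⁻¹ x)
    (by rw [gact_act_inv]; exact h) h'
  rw [gact_act_inv] at e
  exact e

/-- The action of `SL_n(ℂ)` on the sections. (All proofs: `nMod_ext`, `tr_val`, `gl_mul`,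
`gl_one`.) -/
noncomputable def TR (K J : ℕ) : Gp n →* Module.End ℂ (nMod L P K J) where
  toFun g :=
    { toFun := tr ΛL ΛP K J g
      map_add' := fun t t' => nMod_ext fun i j x h => by
        obtain ⟨i', j', hat⟩ := exists_nat L P (A.act g⁻¹ x)
        show (tr ΛL ΛP K J g (t + t')).1 i j x = (tr ΛL ΛP K J g t).1 i j x +
          (tr ΛL ΛP K J g t').1 i j x
        rw [tr_val' ΛL ΛP g _ h hat, tr_val' ΛL ΛP g _ h hat, tr_val' ΛL ΛP g _ h hat, ← mul_add]
        rfl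
      map_smul' := fun c t => nMod_ext fun i j x h => by
        obtain ⟨i', j', hat⟩ := exists_nat L P (A.act g⁻¹ x)
        show (tr ΛL ΛP K J g (c • t)).1 i j x = c * (tr ΛL ΛP K J g t).1 i j x
        rw [tr_val' ΛL ΛP g _ h hat, tr_val' ΛL ΛP g _ h hat]
        show _ * (c * _) = _
        ring }
  map_one' := by
    refine LinearMap.ext fun t => nMod_ext fun i j x h => ?_
    show (tr ΛL ΛP K J 1 t).1 i j x = t.1 i j x
    have h' : NAt L P i j (A.act 1 x) := by rw [A.one]; exact h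
    have e := tr_val ΛL ΛP 1 t h' h
    rw [A.one, gl_one ΛL ΛP h h, L.one _ _ h.memL, P.one _ _ h.memP] at e
    rw [e]
    ring
  map_mul' := fun g g' => by
    refine LinearMap.ext fun t => nMod_ext fun i j x h => ?_
    show (tr ΛL ΛP K J (g * g') t).1 i j x = (tr ΛL ΛP K J g (tr ΛL ΛP K J g' t)).1 i j x
    obtain ⟨i₁, j₁, h1⟩ := exists_nat L P (A.act g⁻¹ x)
    obtain ⟨i₂, j₂, h2⟩ := exists_nat L P (A.act g'⁻¹ (A.act g⁻¹ x))
    set y := A.act g'⁻¹ (A.act g⁻¹ x) with hy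
    have e1 : A.act g' y = A.act g⁻¹ x := by rw [hy, gact_act_inv]
    have e2 : A.act (g * g') y = x := by rw [A.mul, e1, gact_act_inv]
    have k1 : NAt L P i j (A.act (g * g') y) := by rw [e2]; exact h
    have k2 : NAt L P i₁ j₁ (A.act g' y) := by rw [e1]; exact h1
    have f1 := tr_val ΛL ΛP (g * g') t k1 h2
    have f2 := tr_val ΛL ΛP g' t k2 h2
    have f3 := tr_val ΛL ΛP g (tr ΛL ΛP K J g' t) (i := i) (j := j) (x := A.act g' y)
      (by rw [← A.mul, e2]; exact h) k2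
    rw [← A.mul, e2] at f3
    rw [e2] at f1
    rw [f1, f3, f2, ← gl_mul ΛL ΛP k1 k2 h2]
    ring

theorem TR_val (g : Gp n) (t : nMod L P K J) {i j i' j' x} (h : NAt L P i j (A.act g x))
    (h' : NAt L P i' j' x) :
    (TR ΛL ΛP K J g t).1 i j (A.act g x) = gl ΛL ΛP K J i j i' j' g x * t.1 i' j' x :=
  tr_val ΛL ΛP g t h h'

theorem TR_val' (g : Gp n) (t : nMod L P K J) {i j i' j' x} (h : NAt L P i j x)
    (h' : NAt L P i' j' (A.act g⁻¹ x)) :
    (TR ΛL ΛP K J g t).1 i j x = gl ΛL ΛP K J i j i' j' g (A.act g⁻¹ x) *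
      t.1 i' j' (A.act g⁻¹ x) :=
  tr_val' ΛL ΛP g t h h'

theorem gact_inv_continuous (x : X) : Continuous fun g : Gp n => A.act g⁻¹ x :=
  A.cont.comp (continuous_inv.prodMk continuous_const)

/-- The values of `g t` at `x` depend continuously on `g`.

Proof. If not `NAt L P i j x` the function is `0`. Otherwise near `g₀` one may use fixed frames
`i'`, `j'` at `g₀⁻¹ x` (they are frames at `g⁻¹ x` for `g` near `g₀`), and
`(g t) (x) = gl ΛL ΛP K J i j i' j' g (g⁻¹ x) * t i' j' (g⁻¹ x)` by `TR_val` at the point `g⁻¹ x`;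
`gl_contAt`, `A.cont`. -/
theorem TR_cont (t : nMod L P K J) (i : L.ι) (j : P.ι) (x : X) :
    Continuous fun g => nev K J i j x (TR ΛL ΛP K J g t) := by
  by_cases hx : NAt L P i j x
  · rw [continuous_iff_continuousAt]
    intro g₀
    obtain ⟨i', j', hat⟩ := exists_nat L P (A.act g₀⁻¹ x)
    have hc : ContinuousAt (fun g : Gp n => A.act g⁻¹ x) g₀ :=
      (gact_inv_continuous (A := A) x).continuousAt
    have hx' : NAt L P i j (A.act g₀ (A.act g₀⁻¹ x)) := by rw [gact_act_inv]; exact hx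
    have h1 : ContinuousAt (fun g : Gp n => gl ΛL ΛP K J i j i' j' g (A.act g⁻¹ x)) g₀ :=
      ContinuousAt.comp (g := fun v : Gp n × X => gl ΛL ΛP K J i j i' j' v.1 v.2)
        (f := fun g : Gp n => (g, A.act g⁻¹ x)) (gl_contAt ΛL ΛP hx' hat)
        (continuousAt_id.prodMk hc)
    have h2 : ContinuousAt (fun g : Gp n => t.1 i' j' (A.act g⁻¹ x)) g₀ :=
      ContinuousAt.comp (g := t.1 i' j') (f := fun g : Gp n => A.act g⁻¹ x)
        (Hol_continuousAt (t.2.2.1 i' j' _ hat)) hc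
    refine (h1.mul h2).congr ?_
    filter_upwards [hc.eventually hat.eventually] with g hg
    exact (TR_val' ΛL ΛP g t hx hg).symm
  · have e : (fun g => nev K J i j x (TR ΛL ΛP K J g t)) = fun _ => (0 : ℂ) := by
      funext g
      by_contra h0
      exact hx ((TR ΛL ΛP K J g t).2.1 i j x h0)
    rw [e]
    exact continuous_const

theorem differentiable_det {p : ℕ} {M : ℂ → Matrix (Fin p) (Fin p) ℂ}
    (h : ∀ i j, Differentiable ℂ fun z => M z i j) : Differentiable ℂ fun z => (M z).det := by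
  simp only [Matrix.det_apply]
  refine Differentiable.fun_sum fun σ _ => ?_
  refine Differentiable.const_smul ?_ _
  exact Differentiable.fun_finsetProd fun i _ => h (σ i) i

/-- The inverse of a holomorphic curve. -/
theorem HolCurve.inv {φ : ℂ → Gp n} (hφ : HolCurve φ) : HolCurve fun z => (φ z)⁻¹ := by
  intro i j
  have e : (fun z => ((φ z)⁻¹ : Gp n).1 i j) = fun z =>
      ((φ z : Matrix (Fin n) (Fin n) ℂ).updateRow j (Pi.single i 1)).det := by
    funext z
    rw [← Matrix.adjugate_apply]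
    rfl
  show Differentiable ℂ (fun z => ((φ z)⁻¹ : Gp n).1 i j)
  rw [e]
  refine differentiable_det fun a b => ?_
  by_cases hab : a = j
  · subst hab
    simp only [Matrix.updateRow_self]
    exact differentiable_const _
  · have e2 : (fun z => ((φ z : Matrix (Fin n) (Fin n) ℂ).updateRow j (Pi.single i 1)) a b) =
        fun z => (φ z : Matrix (Fin n) (Fin n) ℂ) a b := by
      funext z
      rw [Matrix.updateRow_ne hab]
    rw [e2]
    exact hφ a b

/-- The curve `φ(z) y` in the regular part. -/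
theorem greg_curve {φ : ℂ → Gp n} (hφ : HolCurve φ) (y : X₀) :
    ContMDiff 𝓘(ℂ) 𝓘(ℂ, E) ω (fun z => A.reg (φ z) y) := by
  have h1 := A.hol φ hφ
  have h2 : ContMDiff 𝓘(ℂ) (𝓘(ℂ).prod 𝓘(ℂ, E)) ω (fun z : ℂ => (z, y)) :=
    contMDiff_id.prodMk contMDiff_const
  exact h1.comp h2

/-- The values of `φ(z) t` at regular points depend holomorphically on `z`.

Proof. As before, near `z₀`, `(φ(z) t) (y) = gl … (φ z) (φ(z)⁻¹ y) * t i' j' (φ(z)⁻¹ y)`. The map
`z ↦ (φ z)⁻¹` is a `HolCurve` (the entries of the inverse are the entries of the adjugate,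
polynomials in the entries); `Λ.hol` is jointly holomorphic in `(z, y)` so the composition with
`z ↦ (z, A.reg (φ z)⁻¹ y)` is holomorphic (`A.hol`). -/
theorem TR_hol (t : nMod L P K J) (i : L.ι) (j : P.ι) (y : X₀) {φ : ℂ → Gp n} (hφ : HolCurve φ) :
    Differentiable ℂ fun z => nev K J i j (N.inc y) (TR ΛL ΛP K J (φ z) t) := by
  by_cases hx : NAt L P i j (N.inc y)
  · intro z₀
    obtain ⟨i', j', hat⟩ := exists_nat L P (N.inc (A.reg (φ z₀)⁻¹ y))
    have hp : ContMDiffAt 𝓘(ℂ) 𝓘(ℂ, E) ω (fun z => A.reg (φ z)⁻¹ y) z₀ :=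
      greg_curve (A := A) hφ.inv y z₀
    have hp2 : ContMDiffAt 𝓘(ℂ) (𝓘(ℂ).prod 𝓘(ℂ, E)) ω (fun z : ℂ => (z, A.reg (φ z)⁻¹ y)) z₀ :=
      contMDiffAt_id.prodMk hp
    have hx' : NAt L P i j (A.act (φ z₀) (N.inc (A.reg (φ z₀)⁻¹ y))) := by
      rw [← A.inc, gact_act_inv]; exact hx
    have h1 : ContMDiffAt 𝓘(ℂ) 𝓘(ℂ) ω
        (fun z => ΛL.lam i i' (φ z) (N.inc (A.reg (φ z)⁻¹ y))) z₀ :=
      ContMDiffAt.comp (g := fun v : ℂ × X₀ => ΛL.lam i i' (φ v.1) (N.inc v.2))
        (f := fun z : ℂ => (z, A.reg (φ z)⁻¹ y)) z₀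
        (ΛL.hol φ hφ i i' z₀ _ hat.memL hx'.memL) hp2
    have h2 : ContMDiffAt 𝓘(ℂ) 𝓘(ℂ) ω
        (fun z => ΛP.lam j j' (φ z) (N.inc (A.reg (φ z)⁻¹ y))) z₀ :=
      ContMDiffAt.comp (g := fun v : ℂ × X₀ => ΛP.lam j j' (φ v.1) (N.inc v.2))
        (f := fun z : ℂ => (z, A.reg (φ z)⁻¹ y)) z₀
        (ΛP.hol φ hφ j j' z₀ _ hat.memP hx'.memP) hp2
    have h3 : ContMDiffAt 𝓘(ℂ) 𝓘(ℂ) ω (fun z => t.1 i' j' (N.inc (A.reg (φ z)⁻¹ y))) z₀ :=
      ContMDiffAt.comp (g := fun y => t.1 i' j' (N.inc y)) (f := fun z => A.reg (φ z)⁻¹ y) z₀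
        (Hol_reg (t.2.2.1 i' j' _ hat)) hp
    have d1 := h1.contDiffAt.differentiableAt (by simp)
    have d2 := h2.contDiffAt.differentiableAt (by simp)
    have d3 := h3.contDiffAt.differentiableAt (by simp)
    refine (((d1.pow K).mul (d2.pow J)).mul d3).congr_of_eventuallyEq ?_
    have hev : ∀ᶠ z in 𝓝 z₀, NAt L P i' j' (N.inc (A.reg (φ z)⁻¹ y)) :=
      (N.emb.continuous.continuousAt.comp hp.continuousAt).eventually hat.eventually
    filter_upwards [hev] with z hz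
    have hz' : NAt L P i' j' (A.act (φ z)⁻¹ (N.inc y)) := by rw [A.inc]; exact hz
    have e := TR_val' ΛL ΛP (φ z) t hx hz'
    rw [A.inc] at e
    exact e
  · have e : (fun z => nev K J i j (N.inc y) (TR ΛL ΛP K J (φ z) t)) = fun _ => (0 : ℂ) := by
      funext z
      by_contra h0
      exact hx ((TR ΛL ΛP K J (φ z) t).2.1 i j _ h0)
    rw [e]
    exact differentiable_const _

/-- Sections are determined by their values at the regular points (`eq_of_reg`). -/
theorem nev_sep (t : nMod L P K J) (h : ∀ i j y, nev K J i j (N.inc y) t = 0) : t = 0 := by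
  refine nMod_ext fun i j x hx => ?_
  show t.1 i j x = 0
  refine eq_of_reg N (f := t.1 i j) (g := fun _ => (0 : ℂ))
    (Hol_continuousAt (t.2.2.1 i j x hx)) continuousAt_const ?_
  filter_upwards with z y hy
  rw [← hy]
  exact h i j y

end Pool.Agent.SG
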