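import Pool.Agent.H.MP_e23cd6_ag.SG.X.ModSa
import Pool.Agent.H.MP_e23cd6_ag.SG.X.Jac

/-! Block X: the vector space of the sections of `L ^ K ⊗ P ^ J ⊗ K_X ^ (-m)` over the regular part
and the action of `SL_n(ℂ)` on it. -/

set_option autoImplicit false

open scoped Manifold ContDiff Topology ENNReal
open MeasureTheory Set Filter

namespace Pool.Agent.SG

open Pool.Agent.Abd Pool.Agent.Abn

variable {E : Type} [NormedAddCommGroup E] [NormedSpace ℂ E] {n : ℕ}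
  {X₀ X : Type} [TopologicalSpace X₀] [ChartedSpace E X₀] [TopologicalSpace X]
  {N : NSp E X₀ X} {L P : NLine N} {K J K' J' m : ℕ} {U V : Set X}

variable {A : GAct n N}

variable [IsManifold 𝓘(ℂ, E) ω X₀] [FiniteDimensional ℂ E] (ΛL : GLin A L) (ΛP : GLin A P)

/-- The factor of the action on `L ^ K ⊗ P ^ J ⊗ K_X ^ (-m)`, from the frames `i'`, `j'`, `ψ` at `x`
to the frames `i`, `j`, `φ` at `g x`. -/
noncomputable def cS (K J m : ℕ) (i : L.ι) (j : P.ι) (φ : OpenPartialHomeomorph X₀ E) (i' : L.ι)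
    (j' : P.ι) (ψ : OpenPartialHomeomorph X₀ E) (g : Gp n) (x : X₀) : ℂ :=
  gl ΛL ΛP K J i j i' j' g (N.inc x) * A.jac φ ψ g x ^ m

omit [IsManifold 𝓘(ℂ, E) ω X₀] [FiniteDimensional ℂ E] in
theorem nat_of_at {i : L.ι} {j : P.ι} {φ : OpenPartialHomeomorph X₀ E} {g : Gp n} {x : X₀}
    (h : At L.reg P.reg i j φ (A.reg g x)) : NAt L P i j (A.act g (N.inc x)) := by
  rw [A.inc]
  exact NAt.of_reg h

omit [FiniteDimensional ℂ E] in
theorem cS_mul {g h : Gp n} {i j φ i' j' ψ i'' j'' κ} {x : X₀}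
    (h1 : At L.reg P.reg i j φ (A.reg (g * h) x)) (h2 : At L.reg P.reg i' j' ψ (A.reg h x))
    (h3 : At L.reg P.reg i'' j'' κ x) :
    cS ΛL ΛP K J m i j φ i' j' ψ g (A.reg h x) * cS ΛL ΛP K J m i' j' ψ i'' j'' κ h x =
      cS ΛL ΛP K J m i j φ i'' j'' κ (g * h) x := by
  unfold cS
  rw [← gl_mul ΛL ΛP (nat_of_at h1) (nat_of_at h2) (NAt.of_reg h3),
    gjac_mul h1.chart h2.chart h3.chart h1.mem h2.mem h3.mem, A.inc]
  ring

omit [IsManifold 𝓘(ℂ, E) ω X₀] [FiniteDimensional ℂ E] in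
theorem cS_one {i j φ i' j' ψ} {x : X₀} (h1 : At L.reg P.reg i j φ x)
    (h2 : At L.reg P.reg i' j' ψ x) : cS ΛL ΛP K J m i j φ i' j' ψ 1 x =
      L.reg.g i i' x ^ K * P.reg.g j j' x ^ J * jac φ ψ x ^ m := by
  unfold cS
  rw [gl_one ΛL ΛP (NAt.of_reg h1) (NAt.of_reg h2), gjac_one_eq]
  rfl

omit [IsManifold 𝓘(ℂ, E) ω X₀] [FiniteDimensional ℂ E] in
/-- The transition rule. -/
theorem cS_trans (t : sMod L P K J m) {i j φ i' j' ψ} {x : X₀} (h1 : At L.reg P.reg i j φ x)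
    (h2 : At L.reg P.reg i' j' ψ x) :
    t.1 i j φ x = cS ΛL ΛP K J m i j φ i' j' ψ 1 x * t.1 i' j' ψ x := by
  rw [cS_one ΛL ΛP h1 h2]
  exact t.2.2.2 i j φ i' j' ψ x h1 h2

omit [FiniteDimensional ℂ E] in
theorem cS_right {g : Gp n} {i j φ i' j' ψ i'' j'' κ} {x : X₀}
    (h1 : At L.reg P.reg i j φ (A.reg g x)) (h2 : At L.reg P.reg i' j' ψ x)
    (h3 : At L.reg P.reg i'' j'' κ x) :
    cS ΛL ΛP K J m i j φ i' j' ψ g x * cS ΛL ΛP K J m i' j' ψ i'' j'' κ 1 x =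
      cS ΛL ΛP K J m i j φ i'' j'' κ g x := by
  have h := cS_mul ΛL ΛP (K := K) (J := J) (m := m) (g := g) (h := 1) (x := x)
    (i := i) (j := j) (φ := φ) (i' := i') (j' := j') (ψ := ψ) (i'' := i'') (j'' := j'') (κ := κ)
    (by rw [mul_one]; exact h1) (by rw [greg_one]; exact h2) h3
  rwa [greg_one, mul_one] at h

omit [FiniteDimensional ℂ E] in
theorem cS_left {g : Gp n} {i j φ i' j' ψ i'' j'' κ} {x : X₀}
    (h1 : At L.reg P.reg i j φ (A.reg g x)) (h2 : At L.reg P.reg i' j' ψ (A.reg g x))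
    (h3 : At L.reg P.reg i'' j'' κ x) :
    cS ΛL ΛP K J m i j φ i' j' ψ 1 (A.reg g x) * cS ΛL ΛP K J m i' j' ψ i'' j'' κ g x =
      cS ΛL ΛP K J m i j φ i'' j'' κ g x := by
  have h := cS_mul ΛL ΛP (K := K) (J := J) (m := m) (g := 1) (h := g) (x := x)
    (i := i) (j := j) (φ := φ) (i' := i') (j' := j') (ψ := ψ) (i'' := i'') (j'' := j'') (κ := κ)
    (by rw [one_mul]; exact h1) h2 h3
  rwa [one_mul] at h

/-- `cS` is holomorphic in the point. -/
theorem cS_holAt {g : Gp n} {i j φ i' j' ψ} {x : X₀}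
    (h1 : At L.reg P.reg i j φ (A.reg g x)) (h2 : At L.reg P.reg i' j' ψ x) :
    HolAt E (fun x => cS ΛL ΛP K J m i j φ i' j' ψ g x) x :=
  (gl_holAt ΛL ΛP (nat_of_at h1) (NAt.of_reg h2)).mul
    ((gjac_holAt h1.chart h2.chart h1.mem h2.mem).pow m)

open Classical in
/-- Translation by `g`, on the values. -/
noncomputable def trS (K J m : ℕ) (g : Gp n)
    (t : L.ι → P.ι → OpenPartialHomeomorph X₀ E → X₀ → ℂ) (i : L.ι) (j : P.ι)
    (φ : OpenPartialHomeomorph X₀ E) (x : X₀) : ℂ :=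
  if At L.reg P.reg i j φ x then
    cS ΛL ΛP K J m i j φ (L.cover (N.inc (A.reg g⁻¹ x))).choose
      (P.cover (N.inc (A.reg g⁻¹ x))).choose (chartAt E (A.reg g⁻¹ x)) g (A.reg g⁻¹ x) *
    t (L.cover (N.inc (A.reg g⁻¹ x))).choose (P.cover (N.inc (A.reg g⁻¹ x))).choose
      (chartAt E (A.reg g⁻¹ x)) (A.reg g⁻¹ x) else 0

omit [FiniteDimensional ℂ E] in
theorem at_chosen (y : X₀) : At L.reg P.reg (L.cover (N.inc y)).choose
    (P.cover (N.inc y)).choose (chartAt E y) y :=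
  ⟨IsManifold.chart_mem_maximalAtlas y, (L.cover (N.inc y)).choose_spec,
    (P.cover (N.inc y)).choose_spec, mem_chart_source E y⟩

omit [FiniteDimensional ℂ E] in
theorem trS_val (g : Gp n) (t : sMod L P K J m) {i j φ i' j' ψ} {x : X₀}
    (h : At L.reg P.reg i j φ (A.reg g x)) (h' : At L.reg P.reg i' j' ψ x) :
    trS ΛL ΛP K J m g t.1 i j φ (A.reg g x) =
      cS ΛL ΛP K J m i j φ i' j' ψ g x * t.1 i' j' ψ x := by
  have key : ∀ y : X₀, y = x → cS ΛL ΛP K J m i j φ (L.cover (N.inc y)).choose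
      (P.cover (N.inc y)).choose (chartAt E y) g y *
      t.1 (L.cover (N.inc y)).choose (P.cover (N.inc y)).choose (chartAt E y) y =
      cS ΛL ΛP K J m i j φ i' j' ψ g x * t.1 i' j' ψ x := by
    rintro y rfl
    rw [cS_trans ΛL ΛP t (at_chosen y) h', ← mul_assoc, cS_right ΛL ΛP h (at_chosen y) h']
  have h1 := key _ (greg_inv_reg A g x)
  rw [← h1]
  exact if_pos h

omit [FiniteDimensional ℂ E] in
theorem trS_val' (g : Gp n) (t : sMod L P K J m) {i j φ i' j' ψ} {x : X₀}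
    (h : At L.reg P.reg i j φ x) (h' : At L.reg P.reg i' j' ψ (A.reg g⁻¹ x)) :
    trS ΛL ΛP K J m g t.1 i j φ x =
      cS ΛL ΛP K J m i j φ i' j' ψ g (A.reg g⁻¹ x) * t.1 i' j' ψ (A.reg g⁻¹ x) := by
  have h1 := trS_val ΛL ΛP g t (i := i) (j := j) (φ := φ) (x := A.reg g⁻¹ x)
    (by rw [greg_reg_inv]; exact h) h'
  rwa [greg_reg_inv] at h1

theorem trS_mem (g : Gp n) (t : sMod L P K J m) : trS ΛL ΛP K J m g t.1 ∈ sMod L P K J m := by
  refine ⟨fun i j φ x h => ?_, fun i j φ x hx => ?_, fun i j φ i' j' ψ x h h' => ?_⟩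
  · by_contra hcon
    exact h (if_neg hcon)
  · -- holomorphy
    obtain ⟨y, hy⟩ : ∃ y, y = A.reg g⁻¹ x := ⟨_, rfl⟩
    have hyx : A.reg g y = x := by rw [hy, greg_reg_inv]
    have hat := at_chosen (L := L) (P := P) y
    obtain ⟨i', hi'⟩ : ∃ i', i' = (L.cover (N.inc y)).choose := ⟨_, rfl⟩
    obtain ⟨j', hj'⟩ : ∃ j', j' = (P.cover (N.inc y)).choose := ⟨_, rfl⟩
    obtain ⟨ψ, hψ⟩ : ∃ ψ, ψ = chartAt E y := ⟨_, rfl⟩
    rw [← hi', ← hj', ← hψ] at hat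
    have hxy : At L.reg P.reg i j φ (A.reg g y) := by
      rw [hyx]
      exact hx
    have h1 : HolAt E (fun y => cS ΛL ΛP K J m i j φ i' j' ψ g y * t.1 i' j' ψ y) y :=
      (cS_holAt ΛL ΛP hxy hat).mul (t.2.2.1 i' j' ψ y hat)
    have h2 : ContMDiffAt 𝓘(ℂ, E) 𝓘(ℂ, E) ω (A.reg g⁻¹) x := (greg_hol A g⁻¹).contMDiffAt
    rw [hy] at h1
    have h3 : HolAt E ((fun y => cS ΛL ΛP K J m i j φ i' j' ψ g y * t.1 i' j' ψ y) ∘
        A.reg g⁻¹) x := ContMDiffAt.comp x h1 h2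
    refine ContMDiffAt.congr_of_eventuallyEq h3 ?_
    have hcont : ContinuousAt (A.reg g⁻¹) x := (greg_hol A g⁻¹).continuous.continuousAt
    have hat' : ∀ᶠ x' in 𝓝 x, At L.reg P.reg i' j' ψ (A.reg g⁻¹ x') := by
      have h4 := hat.eventually
      rw [hy] at h4
      exact hcont.eventually h4
    filter_upwards [hx.eventually, hat'] with x' h5 h6
    exact trS_val' ΛL ΛP g t h5 h6
  · -- transition
    have hat := at_chosen (L := L) (P := P) (A.reg g⁻¹ x)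
    have h1 := trS_val' ΛL ΛP g t h hat
    have h2 := trS_val' ΛL ΛP g t h' hat
    have hgx : A.reg g (A.reg g⁻¹ x) = x := greg_reg_inv A g x
    have h3 := cS_left ΛL ΛP (K := K) (J := J) (m := m) (g := g) (x := A.reg g⁻¹ x)
      (i := i) (j := j) (φ := φ) (i' := i') (j' := j') (ψ := ψ)
      (by rw [hgx]; exact h) (by rw [hgx]; exact h') hat
    rw [hgx, cS_one ΛL ΛP h h'] at h3
    rw [h1, h2, ← h3]
    ring

omit [FiniteDimensional ℂ E] [IsManifold 𝓘(ℂ, E) ω X₀] in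
theorem trS_add (g : Gp n) (t t' : L.ι → P.ι → OpenPartialHomeomorph X₀ E → X₀ → ℂ) :
    trS ΛL ΛP K J m g (t + t') = trS ΛL ΛP K J m g t + trS ΛL ΛP K J m g t' := by
  funext i j φ x
  simp only [trS, Pi.add_apply]
  by_cases h : At L.reg P.reg i j φ x
  · rw [if_pos h, if_pos h, if_pos h]
    ring
  · rw [if_neg h, if_neg h, if_neg h, add_zero]

omit [FiniteDimensional ℂ E] [IsManifold 𝓘(ℂ, E) ω X₀] in
theorem trS_smul (g : Gp n) (c : ℂ) (t : L.ι → P.ι → OpenPartialHomeomorph X₀ E → X₀ → ℂ) :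
    trS ΛL ΛP K J m g (c • t) = c • trS ΛL ΛP K J m g t := by
  funext i j φ x
  simp only [trS, Pi.smul_apply, smul_eq_mul]
  by_cases h : At L.reg P.reg i j φ x
  · rw [if_pos h, if_pos h]
    ring
  · rw [if_neg h, if_neg h, mul_zero]

/-- The translation as a linear map. -/
noncomputable def trSL (K J m : ℕ) (g : Gp n) : sMod L P K J m →ₗ[ℂ] sMod L P K J m where
  toFun t := ⟨trS ΛL ΛP K J m g t.1, trS_mem ΛL ΛP g t⟩
  map_add' t t' := Subtype.ext (trS_add ΛL ΛP g t.1 t'.1)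
  map_smul' c t := Subtype.ext (trS_smul ΛL ΛP g c t.1)

theorem trSL_val (g : Gp n) (t : sMod L P K J m) {i j φ i' j' ψ} {x : X₀}
    (h : At L.reg P.reg i j φ (A.reg g x)) (h' : At L.reg P.reg i' j' ψ x) :
    (trSL ΛL ΛP K J m g t).1 i j φ (A.reg g x) =
      cS ΛL ΛP K J m i j φ i' j' ψ g x * t.1 i' j' ψ x := trS_val ΛL ΛP g t h h'

/-- The action of `SL_n(ℂ)` on the sections over the regular part. -/
theorem exists_TRS (K J m : ℕ) : ∃ T : Gp n →* Module.End ℂ (sMod L P K J m),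
    ∀ (g : Gp n) (t : sMod L P K J m) i j φ i' j' ψ (x : X₀), At L.reg P.reg i j φ (A.reg g x) →
      At L.reg P.reg i' j' ψ x → (T g t).1 i j φ (A.reg g x) =
        gl ΛL ΛP K J i j i' j' g (N.inc x) * A.jac φ ψ g x ^ m * t.1 i' j' ψ x := by
  refine ⟨{ toFun := trSL ΛL ΛP K J m, map_one' := ?_, map_mul' := ?_ },
    fun g t i j φ i' j' ψ x h h' => trSL_val ΛL ΛP g t h h'⟩
  · refine LinearMap.ext fun t => sMod_ext fun i j φ x h => ?_
    have h1 := trSL_val ΛL ΛP 1 t (i := i) (j := j) (φ := φ) (x := x)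
      (by rw [greg_one]; exact h) h
    rw [greg_one] at h1
    rw [h1]
    exact (cS_trans ΛL ΛP t h h).symm
  · intro g g'
    refine LinearMap.ext fun t => sMod_ext fun i j φ x h => ?_
    obtain ⟨y, hy⟩ : ∃ y, y = A.reg (g * g')⁻¹ x := ⟨_, rfl⟩
    have hyx : A.reg (g * g') y = x := by rw [hy, greg_reg_inv]
    have ha : At L.reg P.reg i j φ (A.reg (g * g') y) := by
      rw [hyx]
      exact h
    have ha' : At L.reg P.reg i j φ (A.reg g (A.reg g' y)) := by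
      rw [← greg_mul]
      exact ha
    have hb := at_chosen (L := L) (P := P) (A.reg g' y)
    have hc := at_chosen (L := L) (P := P) y
    have e1 := trSL_val ΛL ΛP (g * g') t ha hc
    have e2 := trSL_val ΛL ΛP g (trSL ΛL ΛP K J m g' t) ha' hb
    have e3 := trSL_val ΛL ΛP g' t hb hc
    rw [← hyx, e1]
    show _ = (trSL ΛL ΛP K J m g (trSL ΛL ΛP K J m g' t)).1 i j φ (A.reg (g * g') y)
    rw [greg_mul, e2, e3, ← mul_assoc, cS_mul ΛL ΛP ha hb hc]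

/-- The chosen action. -/
noncomputable def TRS (K J m : ℕ) : Gp n →* Module.End ℂ (sMod L P K J m) :=
  (exists_TRS ΛL ΛP K J m).choose

theorem TRS_val (g : Gp n) (t : sMod L P K J m) {i j φ i' j' ψ} {x : X₀}
    (h : At L.reg P.reg i j φ (A.reg g x)) (h' : At L.reg P.reg i' j' ψ x) :
    (TRS ΛL ΛP K J m g t).1 i j φ (A.reg g x) =
      gl ΛL ΛP K J i j i' j' g (N.inc x) * A.jac φ ψ g x ^ m * t.1 i' j' ψ x :=
  (exists_TRS ΛL ΛP K J m).choose_spec g t i j φ i' j' ψ x h h'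

theorem TRS_val' (g : Gp n) (t : sMod L P K J m) {i j φ i' j' ψ} {x : X₀}
    (h : At L.reg P.reg i j φ x) (h' : At L.reg P.reg i' j' ψ (A.reg g⁻¹ x)) :
    (TRS ΛL ΛP K J m g t).1 i j φ x =
      gl ΛL ΛP K J i j i' j' g (N.inc (A.reg g⁻¹ x)) * A.jac φ ψ g (A.reg g⁻¹ x) ^ m *
        t.1 i' j' ψ (A.reg g⁻¹ x) := by
  have h1 := TRS_val ΛL ΛP g t (i := i) (j := j) (φ := φ) (x := A.reg g⁻¹ x)
    (by rw [greg_reg_inv]; exact h) h'
  rwa [greg_reg_inv] at h1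

/-- Values of `g t` depend continuously on `g`. -/
theorem TRS_cont (t : sMod L P K J m) (i : L.ι) (j : P.ι) (φ : OpenPartialHomeomorph X₀ E)
    (x : X₀) : Continuous fun g => sev K J m i j φ x (TRS ΛL ΛP K J m g t) := by
  by_cases hx : At L.reg P.reg i j φ x
  · rw [continuous_iff_continuousAt]
    intro g₀
    obtain ⟨i', j', ψ, hat⟩ : ∃ i' j' ψ, At L.reg P.reg i' j' ψ (A.reg g₀⁻¹ x) :=
      ⟨_, _, _, at_chosen (A.reg g₀⁻¹ x)⟩
    have hc1 : Continuous fun g : Gp n => A.reg g⁻¹ x :=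
      greg_cont.comp (continuous_inv.prodMk continuous_const)
    have hat' : ∀ᶠ g in 𝓝 g₀, At L.reg P.reg i' j' ψ (A.reg g⁻¹ x) :=
      hc1.continuousAt.eventually hat.eventually
    have hxg : At L.reg P.reg i j φ (A.reg g₀ (A.reg g₀⁻¹ x)) := by
      rw [greg_reg_inv]
      exact hx
    have c1 : ContinuousAt (fun g : Gp n => gl ΛL ΛP K J i j i' j' g (N.inc (A.reg g⁻¹ x))) g₀ := by
      have h1 := gl_contAt ΛL ΛP (K := K) (J := J) (nat_of_at hxg) (NAt.of_reg hat)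
      exact ContinuousAt.comp (g := fun v : Gp n × X => gl ΛL ΛP K J i j i' j' v.1 v.2)
        (f := fun g : Gp n => (g, N.inc (A.reg g⁻¹ x))) h1
        (continuousAt_id.prodMk (N.emb.continuous.comp hc1).continuousAt)
    have c2 : ContinuousAt (fun g : Gp n => A.jac φ ψ g (A.reg g⁻¹ x)) g₀ :=
      gjac_contAt hx.chart hat.chart hx.mem hat.mem
    have c3 : ContinuousAt (fun g : Gp n => t.1 i' j' ψ (A.reg g⁻¹ x)) g₀ :=
      ContinuousAt.comp (g := t.1 i' j' ψ) (f := fun g : Gp n => A.reg g⁻¹ x)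
        (t.2.2.1 i' j' ψ _ hat).continuousAt hc1.continuousAt
    refine ((c1.mul (c2.pow m)).mul c3).congr ?_
    filter_upwards [hat'] with g hg
    exact (TRS_val' ΛL ΛP g t hx hg).symm
  · have e : (fun g => sev K J m i j φ x (TRS ΛL ΛP K J m g t)) = fun _ => 0 := by
      funext g
      by_contra h0
      exact hx ((TRS ΛL ΛP K J m g t).2.1 i j φ x h0)
    rw [e]
    exact continuous_const

/-- Values of `γ(z) t` depend holomorphically on `z`. -/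
theorem TRS_hol (t : sMod L P K J m) (i : L.ι) (j : P.ι) (φ : OpenPartialHomeomorph X₀ E)
    (x : X₀) {γ : ℂ → Gp n} (hγ : HolCurve γ) :
    Differentiable ℂ fun z => sev K J m i j φ x (TRS ΛL ΛP K J m (γ z) t) := by
  by_cases hx : At L.reg P.reg i j φ x
  · intro z₀
    obtain ⟨i', j', ψ, hat⟩ : ∃ i' j' ψ, At L.reg P.reg i' j' ψ (A.reg (γ z₀)⁻¹ x) :=
      ⟨_, _, _, at_chosen (A.reg (γ z₀)⁻¹ x)⟩
    have b1 : ContMDiff 𝓘(ℂ) 𝓘(ℂ, E) ω (fun z : ℂ => A.reg (γ z)⁻¹ x) :=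
      (A.hol _ (gjac_holCurve_inv hγ)).comp
        (contMDiff_id.prodMk contMDiff_const : ContMDiff 𝓘(ℂ) (𝓘(ℂ).prod 𝓘(ℂ, E)) ω
          (fun z : ℂ => (z, x)))
    have hat' : ∀ᶠ z in 𝓝 z₀, At L.reg P.reg i' j' ψ (A.reg (γ z)⁻¹ x) :=
      b1.continuous.continuousAt.eventually hat.eventually
    have hxg : At L.reg P.reg i j φ (A.reg (γ z₀) (A.reg (γ z₀)⁻¹ x)) := by
      rw [greg_reg_inv]
      exact hx
    have b2 : ContMDiffAt 𝓘(ℂ) (𝓘(ℂ).prod 𝓘(ℂ, E)) ω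
        (fun z : ℂ => (z, A.reg (γ z)⁻¹ x)) z₀ := contMDiffAt_id.prodMk b1.contMDiffAt
    have cL : ContMDiffAt 𝓘(ℂ) 𝓘(ℂ) ω
        (fun z : ℂ => ΛL.lam i i' (γ z) (N.inc (A.reg (γ z)⁻¹ x))) z₀ :=
      ContMDiffAt.comp (g := fun v : ℂ × X₀ => ΛL.lam i i' (γ v.1) (N.inc v.2))
        (f := fun z : ℂ => (z, A.reg (γ z)⁻¹ x)) z₀
        (ΛL.hol γ hγ i i' z₀ _ (NAt.of_reg hat).memL (nat_of_at hxg).memL) b2
    have cP : ContMDiffAt 𝓘(ℂ) 𝓘(ℂ) ω
        (fun z : ℂ => ΛP.lam j j' (γ z) (N.inc (A.reg (γ z)⁻¹ x))) z₀ :=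
      ContMDiffAt.comp (g := fun v : ℂ × X₀ => ΛP.lam j j' (γ v.1) (N.inc v.2))
        (f := fun z : ℂ => (z, A.reg (γ z)⁻¹ x)) z₀
        (ΛP.hol γ hγ j j' z₀ _ (NAt.of_reg hat).memP (nat_of_at hxg).memP) b2
    have dL := cL.contDiffAt.differentiableAt (by simp)
    have dP := cP.contDiffAt.differentiableAt (by simp)
    have c1 : DifferentiableAt ℂ
        (fun z : ℂ => gl ΛL ΛP K J i j i' j' (γ z) (N.inc (A.reg (γ z)⁻¹ x))) z₀ :=
      (dL.pow K).mul (dP.pow J)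
    have c2 : DifferentiableAt ℂ (fun z : ℂ => A.jac φ ψ (γ z) (A.reg (γ z)⁻¹ x)) z₀ :=
      gjac_differentiableAt hγ hx.chart hat.chart hx.mem hat.mem
    have c3 : DifferentiableAt ℂ (fun z : ℂ => t.1 i' j' ψ (A.reg (γ z)⁻¹ x)) z₀ := by
      have h1 : ContMDiffAt 𝓘(ℂ) 𝓘(ℂ) ω (fun z : ℂ => t.1 i' j' ψ (A.reg (γ z)⁻¹ x)) z₀ :=
        ContMDiffAt.comp (g := t.1 i' j' ψ) (f := fun z : ℂ => A.reg (γ z)⁻¹ x) z₀
          (t.2.2.1 i' j' ψ _ hat) b1.contMDiffAt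
      exact h1.contDiffAt.differentiableAt (by simp)
    refine ((c1.mul (c2.pow m)).mul c3).congr_of_eventuallyEq ?_
    filter_upwards [hat'] with z hz
    exact TRS_val' ΛL ΛP (γ z) t hx hz
  · have e : (fun z => sev K J m i j φ x (TRS ΛL ΛP K J m (γ z) t)) = fun _ => 0 := by
      funext z
      by_contra h0
      exact hx ((TRS ΛL ΛP K J m (γ z) t).2.1 i j φ x h0)
    rw [e]
    exact differentiable_const _

end Pool.Agent.SG
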