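import Pool.Agent.H.MP_e23cd6_ag.SG.X.Mod
import Pool.Agent.H.MP_e23cd6_ag.NT.WSec

/-! Block X: the vector space of the sections of `L ^ K ⊗ P ^ J ⊗ K_X ^ (-m)` over the regular part
and the action of `SL_n(ℂ)` on it. -/

set_option autoImplicit false

open scoped Manifold ContDiff Topology ENNReal
open MeasureTheory Set Filter

namespace Pool.Agent.SG

open Pool.Agent.Abd Pool.Agent.Abn

variable {E : Type} [NormedAddCommGroup E] [NormedSpace ℂ E] {n : ℕ}
  {X₀ X : Type} [TopologicalSpace X₀] [ChartedSpace E X₀] [TopologicalSpace X]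
  {N : NSp E X₀ X} {L P : NLine N} {K J K' J' m : ℕ} {U V : Set X}

/-- The sections of `L ^ K ⊗ P ^ J ⊗ K_X ^ (-m)` over the regular part: the families `f i j φ` with
the value `0` outside of `U i ∩ U j ∩ φ.source` and for `φ` not a chart. -/
def sMod (L P : NLine N) (K J m : ℕ) :
    Submodule ℂ (L.ι → P.ι → OpenPartialHomeomorph X₀ E → X₀ → ℂ) where
  carrier := {f | (∀ i j φ x, f i j φ x ≠ 0 → At L.reg P.reg i j φ x) ∧
    (∀ i j φ x, At L.reg P.reg i j φ x → HolAt E (f i j φ) x) ∧
    (∀ i j φ i' j' ψ x, At L.reg P.reg i j φ x → At L.reg P.reg i' j' ψ x →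
      f i j φ x = L.reg.g i i' x ^ K * P.reg.g j j' x ^ J * jac φ ψ x ^ m * f i' j' ψ x)}
  zero_mem' := ⟨fun i j φ x h => absurd rfl h, fun i j φ x _ => contMDiffAt_const,
    fun i j φ i' j' ψ x _ _ => (mul_zero _).symm⟩
  add_mem' := by
    rintro f f' ⟨h1, h2, h3⟩ ⟨h1', h2', h3'⟩
    refine ⟨fun i j φ x h => ?_, fun i j φ x hx => ?_, fun i j φ i' j' ψ x h h' => ?_⟩
    · by_contra hcon
      apply h
      have e1 : f i j φ x = 0 := by
        by_contra h0
        exact hcon (h1 i j φ x h0)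
      have e2 : f' i j φ x = 0 := by
        by_contra h0
        exact hcon (h1' i j φ x h0)
      simp [e1, e2]
    · exact (h2 i j φ x hx).add (h2' i j φ x hx)
    · simp only [Pi.add_apply]
      rw [h3 i j φ i' j' ψ x h h', h3' i j φ i' j' ψ x h h']
      ring
  smul_mem' := by
    rintro c f ⟨h1, h2, h3⟩
    refine ⟨fun i j φ x h => ?_, fun i j φ x hx => ?_, fun i j φ i' j' ψ x h h' => ?_⟩
    · apply h1 i j φ x
      intro h0
      apply h
      simp [h0]
    · have h4 : HolAt E (fun _ : X₀ => c) x := contMDiffAt_const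
      exact h4.mul (h2 i j φ x hx)
    · simp only [Pi.smul_apply, smul_eq_mul]
      rw [h3 i j φ i' j' ψ x h h']
      ring

/-- The section given by an element of `sMod`. -/
def sMod.sec (t : sMod L P K J m) : Sec2 L.reg P.reg K J m (N.inc ⁻¹' (univ : Set X)) where
  f := t.1
  hol := fun i j φ hφ x _ h1 h2 h3 => t.2.2.1 i j φ x ⟨hφ, h1, h2, h3⟩
  trans := fun i j i' j' φ hφ ψ hψ x _ h1 h2 h3 h4 h5 h6 =>
    t.2.2.2 i j φ i' j' ψ x ⟨hφ, h1, h2, h5⟩ ⟨hψ, h3, h4, h6⟩

open Classical in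
/-- The element of `sMod` given by a section. -/
noncomputable def toSMod (s : Sec2 L.reg P.reg K J m (N.inc ⁻¹' (univ : Set X))) :
    sMod L P K J m :=
  ⟨fun i j φ x => if At L.reg P.reg i j φ x then s.f i j φ x else 0, by
    refine ⟨fun i j φ x h => ?_, fun i j φ x hx => ?_, fun i j φ i' j' ψ x h h' => ?_⟩
    · by_contra hcon
      exact h (if_neg hcon)
    · refine (s.hol' (mem_univ _) hx).congr_of_eventuallyEq ?_
      filter_upwards [hx.eventually] with y hy
      exact if_pos hy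
    · simp only
      rw [if_pos h, if_pos h']
      exact s.trans' (mem_univ _) h h'⟩

theorem toSMod_f (s : Sec2 L.reg P.reg K J m (N.inc ⁻¹' (univ : Set X))) {i j φ x}
    (h : At L.reg P.reg i j φ x) : (toSMod s).1 i j φ x = s.f i j φ x := if_pos h

theorem sMod_ext {t t' : sMod L P K J m}
    (h : ∀ i j φ x, At L.reg P.reg i j φ x → t.1 i j φ x = t'.1 i j φ x) : t = t' := by
  apply Subtype.ext
  funext i j φ x
  by_cases hx : At L.reg P.reg i j φ x
  · exact h i j φ x hx
  · have e1 : t.1 i j φ x = 0 := by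
      by_contra h0
      exact hx (t.2.1 i j φ x h0)
    have e2 : t'.1 i j φ x = 0 := by
      by_contra h0
      exact hx (t'.2.1 i j φ x h0)
    rw [e1, e2]

/-- The value at the point `x`, in the frames `i`, `j` and the chart `φ`. -/
def sev (K J m : ℕ) (i : L.ι) (j : P.ι) (φ : OpenPartialHomeomorph X₀ E) (x : X₀) :
    sMod L P K J m →ₗ[ℂ] ℂ where
  toFun t := t.1 i j φ x
  map_add' _ _ := rfl
  map_smul' _ _ := rfl

end Pool.Agent.SG
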