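import Pool.Agent.H.MP_e23cd6_ag.SG.X.PDa
import Pool.Agent.H.MP_e23cd6_ag.SG.LsA

/-! Block X: the evaluation vectors of a line bundle `L ^ K ⊗ P ^ J` generated by its sections. -/

set_option autoImplicit false

open scoped Manifold ContDiff Topology ENNReal
open MeasureTheory Set Filter

namespace Pool.Agent.SG

open Pool.Agent.Abd Pool.Agent.Abn

variable {E : Type} [NormedAddCommGroup E] [NormedSpace ℂ E] [FiniteDimensional ℂ E] {n : ℕ}
  {X₀ X : Type} [TopologicalSpace X₀] [ChartedSpace E X₀] [IsManifold 𝓘(ℂ, E) ω X₀]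
  [TopologicalSpace X] [T2Space X] [CompactSpace X] {N : NSp E X₀ X} {L P : NLine N} {K J : ℕ}
  {A : GAct n N} {ΛL : GLin A L} {ΛP : GLin A P}

/-- The frames chosen at `x`. -/
noncomputable def fr1 (L : NLine N) (x : X) : L.ι := (L.cover x).choose

theorem fr1_mem (L : NLine N) (x : X) : x ∈ L.U (fr1 L x) := (L.cover x).choose_spec

theorem fr_nat (L P : NLine N) (x : X) : NAt L P (fr1 L x) (fr1 P x) x :=
  ⟨fr1_mem L x, fr1_mem P x⟩

/-- The vector of the values in the frames `i`, `j`. -/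
def EDat.vec (D : EDat ΛL ΛP K J) (i : L.ι) (j : P.ι) (x : X) (a : D.ι) : ℂ := (D.σ a).f i j x

theorem EDat.vec_trans (D : EDat ΛL ΛP K J) {i j i' j' x} (h : NAt L P i j x)
    (h' : NAt L P i' j' x) :
    D.vec i j x = (L.g i i' x ^ K * P.g j j' x ^ J) • D.vec i' j' x :=
  funext fun a => (D.σ a).trans' (mem_univ x) h h'

theorem EDat.tr_ne {i j i' j' x} (h : NAt L P i j x) (h' : NAt L P i' j' x) :
    L.g i i' x ^ K * P.g j j' x ^ J ≠ 0 :=
  mul_ne_zero (pow_ne_zero _ (L.g_ne h.memL h'.memL)) (pow_ne_zero _ (P.g_ne h.memP h'.memP))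

theorem EDat.vec_ne (D : EDat ΛL ΛP K J) (hgen : ∀ x, ∃ s : NSec L P K J univ, s.NZ x) {i j x}
    (h : NAt L P i j x) : D.vec i j x ≠ 0 := by
  intro h0
  obtain ⟨s, hs⟩ := hgen x
  rw [s.nz_iff (mem_univ x) h] at hs
  obtain ⟨c, hc⟩ := D.span s
  apply hs
  rw [hc i j x h]
  exact Finset.sum_eq_zero fun a _ => by
    rw [show (D.σ a).f i j x = 0 from congrFun h0 a, mul_zero]

theorem EDat.vec_act (D : EDat ΛL ΛP K J) {g : Gp n} {i j i' j' x}
    (h : NAt L P i j (A.act g x)) (h' : NAt L P i' j' x) :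
    D.vec i j (A.act g x) = gl ΛL ΛP K J i j i' j' g x • D.R.act g (D.vec i' j' x) :=
  funext fun a => D.eqv g x i j i' j' h h' a

theorem EDat.vec_cont (D : EDat ΛL ΛP K J) {i j x} (h : NAt L P i j x) :
    ContinuousAt (D.vec i j) x :=
  continuousAt_pi.2 fun a => Hol_continuousAt ((D.σ a).hol' (mem_univ x) h)

/-- The evaluation vectors. `contP`: near `x₀` fix the frames `i`, `j` of `x₀`; by the transition rule
`v y` is a nonzero multiple of the vector of the `(σ a).f i j y`, so the quotient is the same for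
this vector, which depends continuously on `y` near `x₀` and is not zero. -/
noncomputable def EDat.toPDat (D : EDat ΛL ΛP K J)
    (hgen : ∀ x, ∃ s : NSec L P K J univ, s.NZ x) : PDat n X A.act where
  ι := D.ι
  ft := D.ft
  de := D.de
  R := D.R
  v := fun x a => (D.σ a).f (fr1 L x) (fr1 P x) x
  ne := fun y => D.vec_ne hgen (fr_nat L P y)
  eqv := fun g y => by
    have h1 := D.vec_act (fr_nat L P (A.act g y)) (fr_nat L P y)
    have h2 := gl_ne ΛL ΛP (K := K) (J := J) (fr_nat L P (A.act g y)) (fr_nat L P y)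
    refine ⟨_, inv_ne_zero h2, ?_⟩
    show D.R.act g (D.vec (fr1 L y) (fr1 P y) y) =
      (gl ΛL ΛP K J _ _ _ _ g y)⁻¹ • D.vec (fr1 L (A.act g y)) (fr1 P (A.act g y)) (A.act g y)
    rw [h1, smul_smul, inv_mul_cancel₀ h2, one_smul]
  contP := fun a b => by
    rw [continuous_iff_continuousAt]
    intro x
    have h := fr_nat L P x
    have h0 := D.vec_cont h
    have h1 : ContinuousAt (fun y => D.vec (fr1 L x) (fr1 P x) y a *
        star (D.vec (fr1 L x) (fr1 P x) y b) / (ns (D.vec (fr1 L x) (fr1 P x) y) : ℂ)) x := by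
      have ha : ContinuousAt (fun y => D.vec (fr1 L x) (fr1 P x) y a) x :=
        (continuousAt_pi.1 h0) a
      have hb : ContinuousAt (fun y => D.vec (fr1 L x) (fr1 P x) y b) x :=
        (continuousAt_pi.1 h0) b
      have hn : ContinuousAt (fun y => ns (D.vec (fr1 L x) (fr1 P x) y)) x :=
        ContinuousAt.comp (g := ns) continuous_ns.continuousAt h0
      refine (ha.mul hb.star).div (Complex.continuous_ofReal.continuousAt.comp hn) ?_
      exact Complex.ofReal_ne_zero.2 (ns_pos (D.vec_ne hgen h)).ne'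
    refine h1.congr ?_
    filter_upwards [h.eventually] with y hy
    have hc := EDat.tr_ne (K := K) (J := J) (fr_nat L P y) hy
    have e := D.vec_trans (fr_nat L P y) hy
    show _ = D.vec (fr1 L y) (fr1 P y) y a * star (D.vec (fr1 L y) (fr1 P y) y b) /
      (ns (D.vec (fr1 L y) (fr1 P y) y) : ℂ)
    rw [e, ns_smul]
    generalize L.g (fr1 L y) (fr1 L x) y ^ K * P.g (fr1 P y) (fr1 P x) y ^ J = c at hc
    have hns : ((ns (D.vec (fr1 L x) (fr1 P x) y) : ℝ) : ℂ) ≠ 0 :=
      Complex.ofReal_ne_zero.2 (ns_pos (D.vec_ne hgen hy)).ne'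
    have hcc : ((‖c‖ ^ 2 : ℝ) : ℂ) = c * star c := by
      have := Complex.mul_conj c
      rw [Complex.normSq_eq_norm_sq] at this
      exact this.symm
    have hs : star c ≠ 0 := star_ne_zero.2 hc
    rw [Pi.smul_apply, Pi.smul_apply, smul_eq_mul, smul_eq_mul, star_mul', Complex.ofReal_mul, hcc]
    field_simp

theorem EDat.toPDat_v (D : EDat ΛL ΛP K J) (hgen : ∀ x, ∃ s : NSec L P K J univ, s.NZ x) (x : X) :
    (D.toPDat hgen).v x = D.vec (fr1 L x) (fr1 P x) x := rfl

/-- The values in any frames are multiples of the evaluation vector. -/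
theorem EDat.val (D : EDat ΛL ΛP K J) (hgen : ∀ x, ∃ s : NSec L P K J univ, s.NZ x) {i j x}
    (h : NAt L P i j x) : ∃ z : ℂ, z ≠ 0 ∧ ∀ a,
      (D.σ a).f i j x = z * (D.toPDat hgen).v x a :=
  ⟨_, EDat.tr_ne (K := K) (J := J) h (fr_nat L P x),
    fun a => (D.σ a).trans' (mem_univ x) h (fr_nat L P x)⟩

/-- The function `lg` in terms of the values in any frames. -/
theorem EDat.lg_eq (D : EDat ΛL ΛP K J) (hgen : ∀ x, ∃ s : NSec L P K J univ, s.NZ x) (g : Gp n)
    {i j i' j' x} (h : NAt L P i j (A.act g x)) (h' : NAt L P i' j' x) :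
    (D.toPDat hgen).lg g x = (Real.log (ns fun a => (D.σ a).f i j (A.act g x)) -
      Real.log (ns fun a => (D.σ a).f i' j' x)) / 2 - Real.log ‖gl ΛL ΛP K J i j i' j' g x‖ := by
  show (Real.log (ns (D.R.act g (D.vec (fr1 L x) (fr1 P x) x))) -
      Real.log (ns (D.vec (fr1 L x) (fr1 P x) x))) / 2 =
    (Real.log (ns (D.vec i j (A.act g x))) - Real.log (ns (D.vec i' j' x))) / 2 -
      Real.log ‖gl ΛL ΛP K J i j i' j' g x‖
  have hc := EDat.tr_ne (K := K) (J := J) h' (fr_nat L P x)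
  have hg := gl_ne ΛL ΛP (K := K) (J := J) h h'
  have hv := D.vec_ne hgen (fr_nat L P x)
  have hgv := act_ne_zero D.R hv g
  rw [D.vec_act h h', D.vec_trans h' (fr_nat L P x), Rep.act_smul, ns_smul, ns_smul, ns_smul]
  generalize L.g i' (fr1 L x) x ^ K * P.g j' (fr1 P x) x ^ J = c at hc
  have hc' : ‖c‖ ≠ 0 := norm_ne_zero_iff.2 hc
  have hg' : ‖gl ΛL ΛP K J i j i' j' g x‖ ≠ 0 := norm_ne_zero_iff.2 hg
  rw [Real.log_mul (pow_ne_zero _ hg') (mul_ne_zero (pow_ne_zero _ hc') (ns_pos hgv).ne'),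
    Real.log_mul (pow_ne_zero _ hc') (ns_pos hgv).ne',
    Real.log_mul (pow_ne_zero _ hc') (ns_pos hv).ne', Real.log_pow, Real.log_pow]
  push_cast
  ring

/-- If the sections separate the points then the evaluation vectors of different points are not
proportional. -/
theorem EDat.sep (D : EDat ΛL ΛP K J) (hgen : ∀ x, ∃ s : NSec L P K J univ, s.NZ x)
    (hsep : ∀ x y : X, x ≠ y → ∃ s : NSec L P K J univ, s.NZ x ∧ ¬ s.NZ y) {y y' : X}
    (h : ∃ z : ℂ, (D.toPDat hgen).v y' = z • (D.toPDat hgen).v y) : y = y' := by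
  by_contra hne
  obtain ⟨z, hz⟩ := h
  obtain ⟨s, h1, h2⟩ := hsep y' y (Ne.symm hne)
  obtain ⟨c, hc⟩ := D.span s
  rw [s.nz_iff (mem_univ _) (fr_nat L P y')] at h1
  rw [s.nz_iff (mem_univ _) (fr_nat L P y), not_not, hc _ _ _ (fr_nat L P y)] at h2
  apply h1
  rw [hc _ _ _ (fr_nat L P y')]
  have h3 : ∀ a, (D.σ a).f (fr1 L y') (fr1 P y') y' = z * (D.σ a).f (fr1 L y) (fr1 P y) y :=
    fun a => congrFun hz a
  calc _ = z * ∑ a, c a * (D.σ a).f (fr1 L y) (fr1 P y) y := by
        rw [Finset.mul_sum]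
        exact Finset.sum_congr rfl fun a _ => by rw [h3]; ring
    _ = 0 := by rw [h2, mul_zero]

end Pool.Agent.SG
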