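import Pool.Agent.H.MP_e23cd6_ag.SG.Sys
import Pool.Agent.H.MP_e23cd6_ag.SG.X.MatG
import Pool.Agent.H.MP_e23cd6_ag.SG.X.Fin

/-! Block X: the evaluation vectors of a line bundle `L ^ K ⊗ P ^ J` generated by its sections. -/

set_option autoImplicit false

open scoped Manifold ContDiff Topology ENNReal
open MeasureTheory Set Filter

namespace Pool.Agent.SG

open Pool.Agent.Abd Pool.Agent.Abn

variable {E : Type} [NormedAddCommGroup E] [NormedSpace ℂ E] [FiniteDimensional ℂ E] {n : ℕ}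
  {X₀ X : Type} [TopologicalSpace X₀] [ChartedSpace E X₀] [IsManifold 𝓘(ℂ, E) ω X₀]
  [TopologicalSpace X] [T2Space X] [CompactSpace X] {N : NSp E X₀ X} {L P : NLine N} {K J : ℕ}
  {A : GAct n N} (ΛL : GLin A L) (ΛP : GLin A P)

/-- Evaluation data for `L ^ K ⊗ P ^ J`: a basis `σ` of the space of sections, with respect to which
the action is given by a representation. -/
structure EDat (ΛL : GLin A L) (ΛP : GLin A P) (K J : ℕ) where
  ι : Type
  ft : Fintype ι
  de : DecidableEq ι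
  R : Rep n ι
  σ : ι → NSec L P K J univ
  span : ∀ s : NSec L P K J univ, ∃ c : ι → ℂ, ∀ i j x, NAt L P i j x →
    s.f i j x = ∑ a, c a * (σ a).f i j x
  eqv : ∀ g x i j i' j', NAt L P i j (A.act g x) → NAt L P i' j' x → ∀ a,
    (σ a).f i j (A.act g x) = gl ΛL ΛP K J i j i' j' g x * R.act g (fun b => (σ b).f i' j' x) a

attribute [instance] EDat.ft EDat.de

/-- Proof. `exists_repW` for `W = nMod L P K J`, `T = TR ΛL ΛP K J` and the forms `nev K J i j (inc y)`
at the regular points (`nev_sep`, `TR_cont`, `TR_hol`, `nMod_finite`). `σ a` is the section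
`(σ a).sec`. For `eqv`: `l = nev K J i' j' x`, so
`R.act g (values at x in i', j') a = (TR g⁻¹ σ_a).1 i' j' x`, and by `TR_val` (for `g`, applied to
`TR g⁻¹ σ_a`) `(σ a) i j (g x) = gl … g x * (TR g⁻¹ σ_a) i' j' x`. -/
theorem exists_edat [SecondCountableTopology X₀] (K J : ℕ) : Nonempty (EDat ΛL ΛP K J) := by
  obtain ⟨ι, ft, de, R, σ, h⟩ := exists_repW (W := nMod L P K J) (TR ΛL ΛP K J)
    (S := L.ι × P.ι × X₀) (fun p => nev K J p.1 p.2.1 (N.inc p.2.2))
    (fun w hw => nev_sep w fun i j y => hw (i, j, y))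
    (fun p w => TR_cont ΛL ΛP w _ _ _)
    (fun p w φ hφ => TR_hol ΛL ΛP w _ _ _ hφ)
  refine ⟨⟨ι, ft, de, R, fun a => nMod.sec (σ a), ?_, ?_⟩⟩
  · intro s
    refine ⟨fun a => σ.repr (toMod s) a, fun i j x hx => ?_⟩
    have h1 := congrArg (nev K J i j x) (σ.sum_repr (toMod s))
    rw [map_sum, nev_apply, toMod_f s hx] at h1
    rw [← h1]
    exact Finset.sum_congr rfl fun a _ => by rw [map_smul, smul_eq_mul, nev_apply]; rfl
  · intro g x i j i' j' h1 h2 a
    have h3 := congrFun (h g (nev K J i' j' x)) a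
    have h4 : R.act g (fun b => (nMod.sec (σ b)).f i' j' x) a =
        (TR ΛL ΛP K J g⁻¹ (σ a)).1 i' j' x := h3
    rw [h4, ← TR_val ΛL ΛP g (TR ΛL ΛP K J g⁻¹ (σ a)) h1 h2, ← Module.End.mul_apply, ← map_mul,
      mul_inv_cancel, map_one]
    rfl

end Pool.Agent.SG
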