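import Pool.Agent.H.MP_e23cd6_ag.SG.X.Bas
import Pool.Agent.H.MP_e23cd6_ag.AB.A2
import Pool.Agent.H.MP_e23cd6_ag.GT.AnUp

/-! Block X: the absolute values of holomorphic functions near the singular points are bounded by
those on a compact set of regular points. -/

set_option autoImplicit false

open scoped Manifold ContDiff Topology ENNReal
open MeasureTheory Set Filter

namespace Pool.Agent.SG

open Pool.Agent.Abd Pool.Agent.Abn

variable {E : Type} [NormedAddCommGroup E] [NormedSpace ℂ E] [FiniteDimensional ℂ E]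
  {X₀ X : Type} [TopologicalSpace X₀] [ChartedSpace E X₀] [IsManifold 𝓘(ℂ, E) ω X₀]
  [TopologicalSpace X] [T2Space X] [CompactSpace X] {N : NSp E X₀ X}

variable (E) in
omit [IsManifold 𝓘(ℂ, E) ω X₀] in
include E in
/-- A compact exhaustion of an open subset of the regular part.

Proof. `X₀` is locally compact (charts) and second countable, so the open subset `O` (as a
subspace) is locally compact and second countable, hence σ-compact: `CompactExhaustion O`, and take
the images. -/
theorem exists_exhaust [SecondCountableTopology X₀] {O : Set X₀} (hO : IsOpen O) :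
    ∃ Q : ℕ → Set X₀, (∀ k, IsCompact (Q k)) ∧ (∀ k, Q k ⊆ interior (Q (k + 1))) ∧
      ⋃ k, Q k = O := by
  haveI : ProperSpace E := FiniteDimensional.proper ℂ E
  haveI : LocallyCompactSpace X₀ := ChartedSpace.locallyCompactSpace E X₀
  haveI : LocallyCompactSpace O := hO.locallyCompactSpace
  let K : CompactExhaustion O := default
  refine ⟨fun k => Subtype.val '' K k, fun k => (K.isCompact k).image continuous_subtype_val,
    fun k => ?_, ?_⟩
  · refine Subset.trans (image_mono (K.subset_interior_succ k)) ?_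
    exact interior_maximal (image_mono interior_subset)
      (hO.isOpenEmbedding_subtypeVal.isOpenMap _ isOpen_interior)
  · rw [← image_iUnion, K.iUnion_eq, image_univ, Subtype.range_coe]

omit [FiniteDimensional ℂ E] in
/-- A function holomorphic at a point is differentiable in the chart. -/
theorem sup_diff {g : X₀ → ℂ} {φ : OpenPartialHomeomorph X₀ E} (hφ : φ ∈ Charts E X₀) {w : E}
    (hw : w ∈ φ.target) (hg : HolAt E g (φ.symm w)) :
    DifferentiableAt ℂ (fun w => g (φ.symm w)) w := by
  have h1 : ContMDiffAt 𝓘(ℂ, E) 𝓘(ℂ, E) ω φ.symm w :=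
    contMDiffAt_symm_of_mem_maximalAtlas hφ hw
  have h3 : ContMDiffAt 𝓘(ℂ, E) 𝓘(ℂ) ω (g ∘ φ.symm) w := ContMDiffAt.comp w hg h1
  exact h3.contDiffAt.differentiableAt (by simp)

/-- The sum of a series of holomorphic functions with `|f k| ≤ 2 ^ (-k)` on `Q k`.

Proof. Near `y ∈ Q k₀ ⊆ interior (Q (k₀ + 1))` the series converges uniformly; finite sums are
holomorphic; locally uniform limits of holomorphic functions on open subsets of the finite
dimensional space `E` are holomorphic (see `lim_holo` in AB/A2.lean; pass to the chart at `y`). -/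
theorem hol_series {O : Set X₀} {Q : ℕ → Set X₀}
    (hQ : ∀ k, Q k ⊆ interior (Q (k + 1))) (hQO : ⋃ k, Q k = O) {f : ℕ → X₀ → ℂ}
    (hf : ∀ k, ∀ y ∈ O, HolAt E (f k) y) (hb : ∀ k, ∀ y ∈ Q k, ‖f k y‖ ≤ (2 : ℝ)⁻¹ ^ k) :
    ∀ y ∈ O, HolAt E (fun y => ∑' k, f k y) y ∧ Summable fun k => f k y := by
  have hmono : Monotone Q := monotone_nat_of_le_succ fun k => (hQ k).trans interior_subset
  have hsum : Summable fun k : ℕ => (2 : ℝ)⁻¹ ^ k :=
    summable_geometric_of_lt_one (by norm_num) (by norm_num)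
  intro y hy
  obtain ⟨k₀, hk₀⟩ : ∃ k, y ∈ Q k := by
    rw [← hQO] at hy
    exact mem_iUnion.1 hy
  have hyi : y ∈ interior (Q (k₀ + 1)) := hQ k₀ hk₀
  have hbe : ∀ᶠ k in atTop, ∀ z ∈ interior (Q (k₀ + 1)), ‖f k z‖ ≤ (2 : ℝ)⁻¹ ^ k := by
    filter_upwards [eventually_ge_atTop (k₀ + 1)] with k hk z hz
    exact hb k z (hmono hk (interior_subset hz))
  constructor
  · set φ := chartAt E y with hφdef
    have hφ : φ ∈ Charts E X₀ := IsManifold.chart_mem_maximalAtlas y
    have hyφ : y ∈ φ.source := mem_chart_source E y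
    set U : Set E := φ.target ∩ φ.symm ⁻¹' interior (Q (k₀ + 1)) with hU
    have hUo : IsOpen U := φ.isOpen_inter_preimage_symm isOpen_interior
    have hyU : φ y ∈ U := by
      refine ⟨φ.map_source hyφ, ?_⟩
      rw [mem_preimage, φ.left_inv hyφ]
      exact hyi
    have hUO : ∀ w ∈ U, φ.symm w ∈ O := by
      intro w hw
      rw [← hQO]
      exact mem_iUnion.2 ⟨_, interior_subset hw.2⟩
    have h1 : TendstoUniformlyOn (fun N w => ∑ k ∈ Finset.range N, f k (φ.symm w))
        (fun w => ∑' k, f k (φ.symm w)) atTop U :=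
      tendstoUniformlyOn_tsum_nat_eventually hsum
        (hbe.mono fun k hk w hw => hk _ hw.2)
    have h2 := (Pool.Agent.H.MP_e23cd6_ag.AB.lim_holo hUo (fun N w hw => by
      refine DifferentiableAt.differentiableWithinAt ?_
      refine DifferentiableAt.fun_sum fun k _ => ?_
      exact sup_diff hφ hw.1 (hf k _ (hUO w hw))) h1.tendstoLocallyUniformlyOn).1
    have h3 : AnalyticAt ℂ (fun w => ∑' k, f k (φ.symm w)) (φ y) := by
      refine analyticAt_of_diff ?_
      filter_upwards [hUo.mem_nhds hyU] with w hw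
      exact (h2 w hw).differentiableAt (hUo.mem_nhds hw)
    have h4 : ContMDiffAt 𝓘(ℂ, E) 𝓘(ℂ, E) ω φ y := contMDiffAt_of_mem_maximalAtlas hφ hyφ
    have h5 : ContMDiffAt 𝓘(ℂ, E) 𝓘(ℂ) ω (fun w => ∑' k, f k (φ.symm w)) (φ y) :=
      h3.contDiffAt.contMDiffAt
    have h6 : ContMDiffAt 𝓘(ℂ, E) 𝓘(ℂ) ω ((fun w => ∑' k, f k (φ.symm w)) ∘ φ) y :=
      ContMDiffAt.comp y h5 h4
    refine ContMDiffAt.congr_of_eventuallyEq h6 ?_
    filter_upwards [φ.open_source.mem_nhds hyφ] with z hz
    rw [Function.comp_apply, φ.left_inv hz]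
  · refine Summable.of_norm_bounded_eventually_nat hsum ?_
    exact hbe.mono fun k hk => hk y hyi

end Pool.Agent.SG
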